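import Pool.Agent.Work.MP_b5407d_pos_helper9.LastNeg

/-! # MP_b5407d_gt, case without corner: `Z(P2) ≤ 0` if there is no chain point beyond `P2` and the
chain passes the height of `P2` to the left of `P2` (helper9, after helper47's `Z_le`) -/

set_option autoImplicit false

open MeasureTheory Set Filter Topology

namespace Pool.Agent.Work.MP_b5407d_pos_h9.LA

open Pool.LBM Pool.Agent.Work.MP_b5407d_pos_h47
open Pool.Agent.Work.MP_b5407d_pos_h9.FV (Rg)

section
variable {v w : ℝ} {a b : ℕ → ℝ} {m p q : ℕ}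

theorem Za (hw : w ≠ 0) (h : Std m 0 a b) (S : Spl m a b p q)
    (hX : w * pJ v w a b m < mE v (a 1)) {z2 t2 : ℝ}
    (hz : z2 * mE v (a 1) = pJ v w a b m) (hq2 : (q : ℝ) ≤ t2) (h2m : t2 ≤ m)
    (hY2 : pY v w a b m t2 = z2) (hX2 : pX v w a b t2 ≤ mE v (a 1))
    (hno : ∀ t : ℝ, 1 ≤ t → t ≤ m → mE v (a 1) ≤ pX v w a b t → pY v w a b m t ≤ z2) :
    pM v w a b m 0 - mE v (a 1) * pN v w a b m 0 - z2 * pP v w a b m +
      mE v (a 1) * z2 * pd v w a b m ≤ 0 := by
  have hJ : 0 < pJ v w a b m := MP_b5407d_pos_h13.pJ_pos (MP_b5407d_pos_h13.CP_of_Std h)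
  obtain ⟨T1, T2, H⟩ := exists_Hc v w h S
  have hX0 := X0_pos v h
  have ha1 := a1_pos h
  have hk : 0 < 1 - w * z2 := by
    have h1 : (1 - w * z2) * mE v (a 1) = mE v (a 1) - w * pJ v w a b m := by
      linear_combination -w * hz
    by_contra hn
    push Not at hn
    have := mul_nonpos_of_nonpos_of_nonneg hn hX0.le
    linarith
  have HH := hat_of h S H hJ hX hz hk
  set J := pJ v w a b m with hJd
  set X0 := mE v (a 1) with hX0d
  set c := pX v w a b p with hcd
  set Φ : ℝ → ℝ := fun u => pY v w a b m (T2 u) with hΦd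
  set ψ : ℝ → ℝ := fun u => pY v w a b m (T1 u) with hψd
  have hX1 : pX v w a b 1 = X0 := X_1 h
  have hXm : pX v w a b m = w * J := X_m h
  have hXpq : pX v w a b q = c := X_pq S
  have hb0 : b 0 = 0 := h.br
  have hb1 : b 1 = 0 := by simpa using h.br1
  have am := h.am
  have hp : (1 : ℝ) ≤ p := by exact_mod_cast S.p1
  have hqm : (q : ℝ) ≤ m := Nat.cast_le.2 S.qm.le
  have hX0c : X0 ≤ c := HH.hc
  -- values at `T2 u`, `T1 u`
  have e1 : ∀ u ∈ Icc (w * J) c, pX v w a b (T2 u) = u ∧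
      ef (1 + v * w * J) v w u (Φ u) = pe v w a b (T2 u) := by
    intro u hu
    have h1 : pX v w a b (T2 u) = u :=
      H.up.XT u ⟨by rw [hXm]; exact hu.1, by rw [hXpq]; exact hu.2⟩
    refine ⟨h1, ?_⟩
    have h3 := e_rel (v := v) (w := w) (b := b) h.a0 m (T2 u)
    rw [h1] at h3
    exact h3.symm
  have e2 : ∀ u ∈ Icc X0 c, pX v w a b (T1 u) = u ∧
      ef (1 + v * w * J) v w u (ψ u) = pe v w a b (T1 u) := by
    intro u hu
    have h1 : pX v w a b (T1 u) = u :=
      H.lo.XT u ⟨by rw [hX1]; exact hu.1, hu.2⟩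
    refine ⟨h1, ?_⟩
    have h3 := e_rel (v := v) (w := w) (b := b) h.a0 m (T1 u)
    rw [h1] at h3
    exact h3.symm
  have ml : ∀ u ∈ Icc (w * J) X0, u ∈ Icc (w * J) c := fun u hu => ⟨hu.1, hu.2.trans hX0c⟩
  have mr : ∀ u ∈ Icc X0 c, u ∈ Icc (w * J) c := fun u hu => ⟨hX.le.trans hu.1, hu.2⟩
  have hei : Continuous (fun t => (pe v w a b t)⁻¹) := peiAC.cont
  have hXc : Continuous (pX v w a b) := XAC.cont
  have hYc : Continuous (pY v w a b m) := (YAC m).cont
  have hbc : ContinuousOn (fun u => (ef (1 + v * w * J) v w u z2)⁻¹) (Icc (w * J) X0) :=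
    box_cont hz hk hX
  have hpe : ∀ t, (pe v w a b t)⁻¹ * pe v w a b t = 1 := fun t => inv_mul_cancel₀ (pe_pos t).ne'
  -- (Z)
  have IZ : w ^ 2 * IF (1 + v * w * J) v w (w * J) X0 c z2 Φ ψ (fG z2) =
      w ^ 2 * (pM v w a b m 0 - X0 * pN v w a b m 0 - z2 * pP v w a b m +
        X0 * z2 * pd v w a b m) := by
    have h1 := conv_gen h S H hX
      (g := fun t => (pX v w a b t - X0) *
        (w * (pY v w a b m t - z2) * (pe v w a b t)⁻¹ ^ 2 - (pe v w a b t)⁻¹))
      (A2 := fun u => -((u - X0) * (ef (1 + v * w * J) v w u z2)⁻¹))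
      (Sl := fun u => w ^ 2 * ((u - X0) * sl (1 + v * w * J) v w (fG z2) u z2 (Φ u)))
      (Sr := fun u => w ^ 2 * ((u - X0) * sl (1 + v * w * J) v w (fG z2) u (ψ u) (Φ u)))
      (by fun_prop) ((by fun_prop : ContinuousOn (fun u : ℝ => u - X0) _).mul hbc).neg
      (fun u hu => by
        have := sl_G (z2 := z2) (HH.eΦ u (ml u hu)) (HH.ez u hu)
        rw [(e1 u (ml u hu)).2] at this
        rw [(e1 u (ml u hu)).1]
        linear_combination (u - X0) * this)
      (fun u hu => by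
        have := sl_G (z2 := z2) (HH.eΦ u (mr u hu)) (HH.eψ u hu)
        rw [(e1 u (mr u hu)).2, (e2 u hu).2] at this
        rw [(e1 u (mr u hu)).1, (e2 u hu).1]
        linear_combination (u - X0) * this)
    rw [intervalIntegral.integral_const_mul, intervalIntegral.integral_const_mul,
      intervalIntegral.integral_neg, box2 hz hk hX ha1.le] at h1
    have h2 := Z_id (v := v) (w := w) (a := a) (b := b) am hb0 hb1 z2
    rw [hX1] at h2
    have h4 : ∀ t, (pX v w a b t - X0) *
        (w * (pY v w a b m t - z2) * (pe v w a b t)⁻¹ ^ 2 - (pe v w a b t)⁻¹) *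
        (pe v w a b t * dpl a t) =
        w * ((pX v w a b t - X0) * (pY v w a b m t - z2) * (pe v w a b t)⁻¹ * dpl a t) -
        (pX v w a b t - X0) * dpl a t := fun t => by
      linear_combination ((pX v w a b t - X0) * (w * (pY v w a b m t - z2) * (pe v w a b t)⁻¹ -
        1) * dpl a t) * hpe t
    simp only [h4] at h1
    have i1 : IntervalIntegrable (fun t => w * ((pX v w a b t - X0) * (pY v w a b m t - z2) *
        (pe v w a b t)⁻¹ * dpl a t)) volume 1 m :=
      ((Rg.cmul (((hXc.sub continuous_const).mul (hYc.sub continuous_const)).mul hei)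
        (plAC a).rg).int _ _).const_mul w
    have i2 : IntervalIntegrable (fun t => (pX v w a b t - X0) * dpl a t) volume 1 m :=
      (Rg.cmul (hXc.sub continuous_const) (plAC a).rg).int _ _
    have i3 : IntervalIntegrable (fun t => pB v w a b m z2 t * dpl a t) volume 1 m :=
      (Rg.cmul (BAC m z2).cont (plAC a).rg).int _ _
    rw [intervalIntegral.integral_sub i1 i2, intervalIntegral.integral_const_mul] at h1
    -- `F + w B` is a function of `x`
    have h6 : (∫ t in (1 : ℝ)..m, (pX v w a b t - X0) * dpl a t) +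
        w * ∫ t in (1 : ℝ)..m, pB v w a b m z2 t * dpl a t =
        (1 - w * z2) * ∫ s in (0 : ℝ)..a 1, (X0 - mE v s) := by
      rw [← intervalIntegral.integral_const_mul, ← intervalIntegral.integral_add i2
        (i3.const_mul w)]
      have h7 : ∀ t, (pX v w a b t - X0) * dpl a t + w * (pB v w a b m z2 t * dpl a t) =
          (fun s => -((1 - w * z2) * (X0 - mE v s))) (pl a t) * dpl a t := by
        intro t
        simp only [pB]
        rw [X_rel h.a0]
        linear_combination (-w * dpl a t) * hz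
      have hc := mE_c v
      have h8 := int_x (φ := fun s => -((1 - w * z2) * (X0 - mE v s))) am (by fun_prop)
      rw [intervalIntegral.integral_neg, intervalIntegral.integral_const_mul] at h8
      rw [intervalIntegral.integral_congr (g := fun t =>
        (fun s => -((1 - w * z2) * (X0 - mE v s))) (pl a t) * dpl a t) (fun t _ => h7 t), h8]
      ring
    have h5 : w ^ 2 * (pM v w a b m 0 - X0 * pN v w a b m 0 - z2 * pP v w a b m +
        X0 * z2 * pd v w a b m) = w * (w * (pM v w a b m 0 - X0 * pN v w a b m 0 -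
        z2 * pP v w a b m + X0 * z2 * pd v w a b m)) := by ring
    rw [h5, h2]
    unfold IF
    linarith
  have hw2 : w ^ 2 ≠ 0 := pow_ne_zero 2 hw
  have JZ := mul_left_cancel₀ hw2 IZ
  rw [← JZ]
  have mN : (w * J) ∈ Icc (w * J) c := ⟨le_rfl, hX.le.trans hX0c⟩
  have mc : c ∈ Icc (w * J) c := ⟨hX.le.trans hX0c, le_rfl⟩
  have mc' : c ∈ Icc X0 c := ⟨hX0c, le_rfl⟩
  have mX0' : X0 ∈ Icc X0 c := ⟨le_rfl, hX0c⟩
  -- the point `t2`
  have hu2 : T2 (pX v w a b t2) = t2 := H.up.TX t2 ⟨hq2, h2m⟩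
  have hΦ2 : Φ (pX v w a b t2) = z2 := by simp only [hΦd, hu2]; exact hY2
  have hXc2 : pX v w a b t2 ≤ c := hX2.trans hX0c
  have hN2 : w * J ≤ pX v w a b t2 := by
    rw [← hXm]
    exact X_anti S hq2 h2m le_rfl
  have m2 : pX v w a b t2 ∈ Icc (w * J) c := ⟨hN2, hXc2⟩
  have h0 : ψ X0 ≤ Φ X0 := by
    have h1 := conc3 HH.Φv m2 mc hX2 hX0c
    have h2 := HH.ψm mX0' mc' hX0c
    have h3 := HH.top
    have h4 := HH.hz
    rw [hΦ2] at h1
    rcases eq_or_lt_of_le (hX2.trans hX0c) with h5 | h5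
    · have h6 : pX v w a b t2 = X0 := le_antisymm hX2 (by rw [h5]; exact hX0c)
      rw [← h6, hΦ2, h6]; exact h4.le
    · by_contra hn
      push Not at hn
      have h7 : 0 ≤ (c - X0) * (z2 - ψ X0) := mul_nonneg (by linarith) (by linarith)
      have h8 : 0 ≤ (X0 - pX v w a b t2) * (Φ c - ψ X0) := mul_nonneg (by linarith) (by linarith)
      have h9 : 0 < (c - pX v w a b t2) * (ψ X0 - Φ X0) := mul_pos (by linarith) (by linarith)
      linarith
  have hgv : ConcaveOn ℝ (Icc X0 c) (fun X => Φ X - ψ X) :=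
    (HH.Φv.subset (Icc_subset_Icc_left HH.hN.le) (convex_Icc X0 c)).sub HH.ψv
  have hA : ∀ X ∈ Icc X0 c, ψ X ≤ Φ X := by
    intro X hX
    have h1 := conc3 hgv mX0' mc' hX.1 hX.2
    rcases eq_or_lt_of_le HH.hc with h | h
    · have : X = X0 := le_antisymm (by rw [h]; exact hX.2) hX.1
      rw [this]; exact h0
    · by_contra hn
      push Not at hn
      have h2 := HH.top
      have h5 := mul_nonneg (sub_nonneg.2 hX.2) (sub_nonneg.2 h0)
      have h6 := mul_nonneg (sub_nonneg.2 hX.1) (sub_nonneg.2 h2)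
      have h7 := mul_pos (sub_pos.2 h) (sub_pos.2 hn)
      linarith
  refine HH.caseA hA ?_
  intro X hX'
  have h1 := (e1 X (mr X hX')).1
  have h2 := H.up.m X
  exact hno (T2 X) (by
    have : (1 : ℝ) ≤ q := by exact_mod_cast S.p1.trans S.pq
    linarith [h2.1]) h2.2 (by rw [h1]; exact hX'.1)

/-- the comparison at `P2` -/
theorem sza : SZa := fun _ _ _ _ _ _ _ _ _ hw h S hX hz h1 h2 h3 h4 h5 =>
  Za hw h S hX hz h1 h2 h3 h4 h5

/-- **LAST for `w < 0`** -/
theorem caseLast_neg' (hw : w < 0) : MP_b5407d_pos_h13.CaseLast v w := caseLast_neg sza hw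

end

end Pool.Agent.Work.MP_b5407d_pos_h9.LA
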