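import Pool.Agent.Work.MP_b5407d_pos_helper47.Ident

/-! # MP_b5407d_gt, case without corner: positivity of `Λ` on arcs of turning `< π` (helper9) -/

set_option autoImplicit false

open MeasureTheory Set Filter Topology

namespace Pool.Agent.Work.MP_b5407d_pos_h9.LA

open Pool.LBM Pool.Agent.Work.MP_b5407d_pos_h9.FV Pool.Agent.Work.MP_b5407d_pos_h47

/-- the integrand of `Λ` with base point `P` -/
noncomputable def lamI (v w : ℝ) (a b : ℕ → ℝ) (m : ℕ) (P t : ℝ) : ℝ :=
  ((pX v w a b P - pX v w a b t) * dpl b t - (pY v w a b m P - pY v w a b m t) * dpl a t) *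
    (pe v w a b t)⁻¹

/-- slopes are ordered on `[α, β)` -/
def Slp (a b : ℕ → ℝ) (α β : ℝ) : Prop :=
  ∀ s ∈ Ico α β, ∀ t ∈ Ico α β, s ≤ t → dpl b s * dpl a t ≤ dpl a s * dpl b t

lemma Slp.mono {a b : ℕ → ℝ} {α β α' β' : ℝ} (h : Slp a b α β) (h1 : α ≤ α') (h2 : β' ≤ β) :
    Slp a b α' β' :=
  fun s hs t ht => h s ⟨h1.trans hs.1, hs.2.trans_le h2⟩ t ⟨h1.trans ht.1, ht.2.trans_le h2⟩

section
variable {v w : ℝ} {a b : ℕ → ℝ} {m : ℕ} {α β : ℝ}

lemma nonneg_Ioo {f : ℝ → ℝ} {x y : ℝ} (hab : x ≤ y) (h : ∀ u ∈ Ioo x y, 0 ≤ f u) :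
    0 ≤ ∫ u in x..y, f u := by
  rw [intervalIntegral.integral_of_le hab, integral_Ioc_eq_integral_Ioo]
  exact setIntegral_nonneg measurableSet_Ioo h

lemma iiX (x y : ℝ) : IntervalIntegrable (fun t => pe v w a b t * dpl a t) volume x y :=
  (Rg.cmul peAC.cont (plAC a).rg).int x y

lemma iiY (x y : ℝ) : IntervalIntegrable (fun t => pe v w a b t * dpl b t) volume x y :=
  (Rg.cmul peAC.cont (plAC b).rg).int x y

lemma cross_int (α t P Q : ℝ) :
    (pX v w a b t - pX v w a b α) * Q - (pY v w a b m t - pY v w a b m α) * P =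
      ∫ s in α..t, pe v w a b s * (dpl a s * Q - dpl b s * P) := by
  have h1 := (XAC (v := v) (w := w) (a := a) (b := b)).eq α t
  have h2 := (YAC (v := v) (w := w) (a := a) (b := b) m).eq α t
  rw [← h1, ← h2, ← intervalIntegral.integral_mul_const, ← intervalIntegral.integral_mul_const,
    ← intervalIntegral.integral_sub ((iiX α t).mul_const Q) ((iiY α t).mul_const P)]
  refine intervalIntegral.integral_congr fun s _ => ?_
  ring

/-- positivity, base point at the end (clockwise) of the arc -/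
lemma pos_end (hab : α ≤ β) (hs : Slp a b α β) : 0 ≤ ∫ t in β..α, lamI v w a b m α t := by
  rw [intervalIntegral.integral_symm, ← intervalIntegral.integral_neg]
  refine nonneg_Ioo hab fun t ht => ?_
  have h1 := cross_int (v := v) (w := w) (a := a) (b := b) (m := m) α t (dpl a t) (dpl b t)
  have h2 : -lamI v w a b m α t = ((pX v w a b t - pX v w a b α) * dpl b t -
      (pY v w a b m t - pY v w a b m α) * dpl a t) * (pe v w a b t)⁻¹ := by unfold lamI; ring
  rw [h2, h1]
  refine mul_nonneg (nonneg_Ioo ht.1.le fun s hs' => ?_) (inv_nonneg.2 (pe_pos t).le)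
  have h3 := hs s ⟨hs'.1.le, hs'.2.trans ht.2⟩ t ⟨ht.1.le, ht.2⟩ hs'.2.le
  exact mul_nonneg (pe_pos s).le (by linarith)

/-- positivity, base point at the start (clockwise) of the arc -/
lemma pos_start (hab : α ≤ β) (hs : Slp a b α β) : 0 ≤ ∫ t in β..α, lamI v w a b m β t := by
  rw [intervalIntegral.integral_symm, ← intervalIntegral.integral_neg]
  refine nonneg_Ioo hab fun t ht => ?_
  have h1 := cross_int (v := v) (w := w) (a := a) (b := b) (m := m) β t (dpl a t) (dpl b t)
  have h2 : -lamI v w a b m β t = ((pX v w a b t - pX v w a b β) * dpl b t -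
      (pY v w a b m t - pY v w a b m β) * dpl a t) * (pe v w a b t)⁻¹ := by unfold lamI; ring
  rw [h2, h1, intervalIntegral.integral_symm, ← intervalIntegral.integral_neg]
  refine mul_nonneg (nonneg_Ioo ht.2.le fun s hs' => ?_) (inv_nonneg.2 (pe_pos t).le)
  have h3 := hs t ⟨ht.1.le, ht.2⟩ s ⟨ht.1.le.trans hs'.1.le, hs'.2⟩ hs'.1.le
  have h4 := mul_nonneg (pe_pos (v := v) (w := w) (a := a) (b := b) s).le
    (sub_nonneg.2 h3)
  linarith

end

end Pool.Agent.Work.MP_b5407d_pos_h9.LA
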