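import Pool.Agent.Work.MP_b5407d_pos_helper9.Bridge2

/-! (B2): `Z(z) >= 0` for a decreasing near chain and `z1 >= mE v (X m)`, `z2 >= mE w (Y 0)`. -/

set_option autoImplicit false

open MeasureTheory Set Filter Topology

namespace Pool.Agent.Work.MP_b5407d_pos_h9.FV

open Pool.LBM (pl dpl)

lemma int_nonneg_Ioo {f : ℝ → ℝ} {a b : ℝ} (hab : a ≤ b) (h : ∀ u ∈ Ioo a b, 0 ≤ f u) :
    0 ≤ ∫ u in a..b, f u := by
  rw [intervalIntegral.integral_of_le hab, integral_Ioc_eq_integral_Ioo]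
  exact setIntegral_nonneg measurableSet_Ioo h

lemma mE_mono (v : ℝ) : Monotone (mE v) := by
  intro a b hab
  have h : mE v b - mE v a = ∫ s in a..b, Real.exp (-(v * s)) := by
    rw [mE, mE, sub_eq_iff_eq_add, add_comm]
    exact (intervalIntegral.integral_add_adjacent_intervals
      (Continuous.intervalIntegrable (by fun_prop) _ _)
      (Continuous.intervalIntegrable (by fun_prop) _ _)).symm
  have h2 : 0 ≤ ∫ s in a..b, Real.exp (-(v * s)) :=
    intervalIntegral.integral_nonneg hab fun s _ => (Real.exp_pos _).le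
  linarith

section
variable {v w : ℝ} {x x' y y' : ℝ → ℝ} {L z1 z2 : ℝ}

theorem Z_nonneg (hL : 0 ≤ L) (hx' : ∀ s ∈ Ioo 0 L, 0 ≤ x' s) (hy' : ∀ s ∈ Ioo 0 L, y' s ≤ 0)
    (hyy : ∀ s ∈ Icc 0 L, y s ≤ y 0) (hz1 : mE v (x L) ≤ z1) (hz2 : mE w (y 0) ≤ z2) :
    0 ≤ Z v w x x' y y' L z1 z2 := by
  have h1 : ∀ s ∈ Ioo 0 L, 0 ≤ -(F v w x x' y L z1 s * k v w x x' y z2 s / e v w x y s * y' s) := by
    intro s hs
    have hF : 0 ≤ F v w x x' y L z1 s := by
      have h2 : 0 ≤ ∫ u in s..L, e v w x y u * x' u :=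
        int_nonneg_Ioo hs.2.le fun u hu =>
          mul_nonneg (e_pos _ _ _ _ _).le (hx' u ⟨hs.1.trans hu.1, hu.2⟩)
      rw [intervalIntegral.integral_symm] at h2
      rw [F]; linarith
    have hk : 0 ≤ k v w x x' y z2 s := by
      rw [k]
      refine int_nonneg_Ioo hs.1.le fun u hu => ?_
      have hu2 : u ∈ Icc 0 L := ⟨hu.1.le, (hu.2.trans hs.2).le⟩
      have h3 : mE w (y u) ≤ z2 := (mE_mono w (hyy u hu2)).trans hz2
      exact mul_nonneg (mul_nonneg (Real.exp_pos _).le (by linarith))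
        (hx' u ⟨hu.1, hu.2.trans hs.2⟩)
    have he := e_pos v w x y s
    have h4 : 0 ≤ F v w x x' y L z1 s * k v w x x' y z2 s / e v w x y s :=
      div_nonneg (mul_nonneg hF hk) he.le
    have := mul_nonneg h4 (neg_nonneg.2 (hy' s hs))
    linarith
  have h2 := int_nonneg_Ioo hL h1
  rw [intervalIntegral.integral_neg] at h2
  rw [Z]; exact h2

end

section
variable {v w : ℝ} {X Y : ℕ → ℝ} {m : ℕ} {z1 z2 : ℝ}

lemma floor_lt_nat {m : ℕ} {s : ℝ} (h0 : 0 ≤ s) (h1 : s < m) : ⌊s⌋₊ < m :=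
  (Nat.floor_lt h0).2 h1

/-- (B2) -/
theorem cZ_nonneg (hX : ∀ i < m, X i ≤ X (i + 1)) (hY : ∀ i < m, Y (i + 1) ≤ Y i)
    (hz1 : mE v (X m) ≤ z1) (hz2 : mE w (Y 0) ≤ z2) : 0 ≤ cZ v w X Y m z1 z2 := by
  have hp0 : pl Y 0 = Y 0 := by simpa using Pool.LBM.PV.pl_nat Y 0
  have hpm : pl X (m : ℝ) = X m := Pool.LBM.PV.pl_nat X m
  have hmono : ∀ i ≤ m, Y i ≤ Y 0 := by
    intro i
    induction i with
    | zero => intro _; exact le_rfl
    | succ i ih => intro hi; exact (hY i (by omega)).trans (ih (by omega))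
  rw [cZ]
  refine Z_nonneg (Nat.cast_nonneg m) ?_ ?_ ?_ (by rw [hpm]; exact hz1) (by rw [hp0]; exact hz2)
  · intro s hs
    have := hX _ (floor_lt_nat hs.1.le hs.2)
    simp only [Pool.LBM.dpl]; linarith
  · intro s hs
    have := hY _ (floor_lt_nat hs.1.le hs.2)
    simp only [Pool.LBM.dpl]; linarith
  · intro s hs
    rw [hp0]
    rcases hs.2.lt_or_eq with h | h
    · have hi := floor_lt_nat hs.1 h
      have h1 := hmono _ hi.le
      have h2 := hmono (⌊s⌋₊ + 1) hi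
      have h3 : (⌊s⌋₊ : ℝ) ≤ s := Nat.floor_le hs.1
      have h4 : s < ⌊s⌋₊ + 1 := Nat.lt_floor_add_one s
      simp only [Pool.LBM.pl]
      nlinarith
    · rw [h, Pool.LBM.PV.pl_nat]
      exact hmono m le_rfl

/-- (B2) with the four functionals `cd, cn, cpp, cm`. -/
theorem cbil_nonneg (hX0 : X 0 = 0) (hX : ∀ i < m, X i ≤ X (i + 1))
    (hY : ∀ i < m, Y (i + 1) ≤ Y i)
    (hz1 : mE v (X m) ≤ z1) (hz2 : mE w (Y 0) ≤ z2) :
    0 ≤ cd v w X Y m * z1 * z2 - z1 * cn v w X Y m - z2 * cpp v w X Y m + cm v w X Y m := by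
  have h := cZ_nonneg (v := v) (w := w) hX hY hz1 hz2
  rw [cZ_eq hX0] at h
  exact h

end

end Pool.Agent.Work.MP_b5407d_pos_h9.FV
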