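import Pool.Agent.Work.MP_b5407d_pos_helper9.LastGeo
import Pool.Agent.Work.MP_b5407d_pos_helper13.QM
import Pool.Agent.Work.MP_b5407d_nc_helper97.Lam
import Pool.Agent.Work.MP_b5407d_nc_helper97.Q123
import Pool.Agent.Work.MP_b5407d_pos_helper13.NCglue

/-! # MP_b5407d_gt, case without corner, LAST for `w < 0` (helper9) -/

set_option autoImplicit false

open MeasureTheory Set Filter Topology

namespace Pool.Agent.Work.MP_b5407d_pos_h9.LA

open Pool.LBM Pool.Agent.Work.MP_b5407d_pos_h47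

section
variable {v w : ℝ} {a b : ℕ → ℝ} {m p q : ℕ}

lemma idn (hw : w ≠ 0) (h : Std m 0 a b) : Idn v w a b m :=
  ⟨MP_b5407d_nc_h97.Lid hw h, MP_b5407d_nc_h97.Xf h, MP_b5407d_nc_h97.Yf h,
    fun P => by
      have h1 := MP_b5407d_nc_h97.Xf' (v := v) (w := w) h P
      have h2 : -(pX v w a b P - mE v (a 1)) / pe v w a b 1 =
        -((pX v w a b P - mE v (a 1)) / pe v w a b 1) := by ring
      rw [h2]; exact h1,
    MP_b5407d_nc_h97.Bf h, MP_b5407d_nc_h97.super⟩

/-- (Q1) in the form of `Spl` -/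
lemma Q1s (h : Std m 0 a b) (S : Spl m a b p q)
    (hρ : mE v (a 1) * mE w (b m) < pJ v w a b m)
    (hE : mE w (b m) * (∫ t in (m : ℝ)..q, (pe v w a b t)⁻¹ * dpl a t) ≤ pd v w a b m) :
    mE w (b m) * pP v w a b m < pJ v w a b m * pd v w a b m := by
  have hb1 : b 1 = 0 := by simpa using h.br1
  have hq0 : 0 < q := lt_of_lt_of_le S.p1 S.pq
  refine MP_b5407d_nc_h97.Qslice v w (MP_b5407d_pos_h13.CP_of_Std h) h.br hb1 hq0 S.qm ?_ ?_ hρ ?_
  · intro j hj
    rcases lt_or_ge j p with h1 | h1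
    · linarith [S.lo j h1]
    · linarith [S.ve j h1 hj]
  · intro j hj hjm
    linarith [S.up j hj hjm]
  · rw [intervalIntegral.integral_symm (q : ℝ) (m : ℝ)] at hE
    exact hE

/-- (Q3) -/
lemma Q3s (h : Std m 0 a b) (S : Spl m a b p q)
    (hρ : mE v (a 1) * mE w (b m) < pJ v w a b m)
    (hD : pJ v w a b m * pd v w a b m ≤ mE w (b m) * pP v w a b m) :
    pP v w a b m < pX v w a b q * pd v w a b m := by
  rw [X_pq S]
  refine MP_b5407d_nc_h97.Q3 h S ?_
  by_contra hn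
  push Not at hn
  have := MP_b5407d_nc_h97.Q2 h S hρ hn
  linarith

/-- the comparison at `P2` -/
def SZa : Prop := ∀ (v w : ℝ) (m p q : ℕ) (a b : ℕ → ℝ) (z2 t2 : ℝ), w ≠ 0 → Std m 0 a b →
  Spl m a b p q → w * pJ v w a b m < mE v (a 1) → z2 * mE v (a 1) = pJ v w a b m →
  (q : ℝ) ≤ t2 → t2 ≤ m → pY v w a b m t2 = z2 → pX v w a b t2 ≤ mE v (a 1) →
  (∀ t : ℝ, 1 ≤ t → t ≤ m → mE v (a 1) ≤ pX v w a b t → pY v w a b m t ≤ z2) →
  pM v w a b m 0 - mE v (a 1) * pN v w a b m 0 - z2 * pP v w a b m +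
    mE v (a 1) * z2 * pd v w a b m ≤ 0

/-- **LAST for `w < 0`** -/
theorem caseLast_neg (hZa : SZa) (hw : w < 0) :
    MP_b5407d_pos_h13.CaseLast v w := by
  intro m a b h hρ h1 h2
  have hJ : 0 < pJ v w a b m := MP_b5407d_pos_h13.pJ_pos (MP_b5407d_pos_h13.CP_of_Std h)
  have hD : 0 < pd v w a b m := MP_b5407d_pos_h13.pd_pos (MP_b5407d_pos_h13.CP_of_Std h)
  have hUB := X0_pos v h
  have hD1 : pJ v w a b m * pd v w a b m ≤ mE w (b m) * pP v w a b m := by
    rw [← mul_div_assoc, le_div_iff₀ hD] at h1; exact h1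
  have hD2 : pJ v w a b m * pd v w a b m ≤ mE v (a 1) * pN v w a b m 0 := by
    rw [← mul_div_assoc, le_div_iff₀ hD] at h2; exact h2
  obtain ⟨p, q, S⟩ := exists_spl h
  obtain ⟨k, hk, htop⟩ := Finset.exists_max_image (Finset.range (m + 1)) b ⟨0, by simp⟩
  have hk' : k ≤ m := by have := Finset.mem_range.1 hk; omega
  have htop' : ∀ j ≤ m, b j ≤ b k := fun j hj => htop j (Finset.mem_range.2 (by omega))
  refine lastA_of hw.le h S (idn hw.ne h) hρ hD1 hD2 (MP_b5407d_pos_h13.idD h hw.ne) (Q1s h S hρ)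
    (Q3s h S hρ hD1) hk' htop' (MP_b5407d_pos_h13.mQ2 v w h hρ hD2 hk' htop') ?_
  intro t2 g1 g2 g3 g4 g5
  have hUL : 0 < mE w (b m) := by
    rw [← mE_0 w]
    refine mE_mono w ?_
    have := h.left
    rw [h.br] at this
    exact this
  have hz : pY v w a b m t2 * mE v (a 1) = pJ v w a b m := by rw [mul_comm]; exact g3
  have hX : w * pJ v w a b m < mE v (a 1) := by
    have := mul_neg_of_neg_of_pos hw hJ
    linarith
  have hZ := hZa v w m p q a b (pY v w a b m t2) t2 hw.ne h S hX hz g1 g2 rfl g4 (by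
    intro t t1 t3 t4
    have := g5 t t1 t3 t4
    by_contra hn
    push Not at hn
    have := mul_lt_mul_of_pos_left hn hUB
    linarith)
  refine of_Z hD hZ (mul_nonneg ?_ ?_)
  · -- `C1 ≥ U_B`
    by_contra hn
    push Not at hn
    have e1 : mE w (b m) * (pP v w a b m - mE v (a 1) * pd v w a b m) < 0 :=
      mul_neg_of_pos_of_neg hUL hn
    have e2 : mE v (a 1) * mE w (b m) * pd v w a b m < pJ v w a b m * pd v w a b m :=
      mul_lt_mul_of_pos_right hρ hD
    linarith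
  · by_contra hn
    push Not at hn
    have e1 : mE v (a 1) * (pN v w a b m 0 - pY v w a b m t2 * pd v w a b m) < 0 :=
      mul_neg_of_pos_of_neg hUB hn
    have e2 : mE v (a 1) * (pY v w a b m t2 * pd v w a b m) = pJ v w a b m * pd v w a b m := by
      rw [← mul_assoc, g3]
    linarith

end

end Pool.Agent.Work.MP_b5407d_pos_h9.LA
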