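import Pool.Agent.Work.MP_b5407d_pos_helper9.Bridge2

/-! `NearChain` at a local minimum. -/

set_option autoImplicit false

open MeasureTheory Set Filter Topology

namespace Pool.Agent.Work.MP_b5407d_pos_h9.FV

open Pool.Agent.MPb5407d
open Pool.LBM (pl dpl)

lemma lin_zero {m : ℕ} {a b s0 s1 : ℕ → ℝ} (ha : ∀ i < m, 0 < a i) (hb : ∀ i < m, 0 < b i)
    (hs : ∀ i, i + 1 < m → b (i + 1) * a i < b i * a (i + 1))
    (h : ∀ al be : ℕ → ℝ, al 0 = 0 → be m = 0 → ∑ k ∈ Finset.range m,
      ((be k * a k + al k * b k) * s0 k + (be (k + 1) * a k + al (k + 1) * b k) * s1 k) = 0) :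
    ∀ k < m, s0 k = 0 ∧ s1 k = 0 := by
  intro k hk
  constructor
  · rcases Nat.eq_zero_or_pos k with h0 | h0
    · subst h0
      have h1 := h (fun _ => 0) (fun j => if j = 0 then 1 else 0) rfl
        (by simp; omega)
      rw [Finset.sum_eq_single 0] at h1
      · simp at h1
        exact h1.resolve_left (ha 0 hk).ne'
      · intro j _ hj
        simp [hj]
      · intro hh
        exact absurd (Finset.mem_range.2 hk) hh
    · obtain ⟨i, rfl⟩ : ∃ i, k = i + 1 := ⟨k - 1, by omega⟩
      have h1 := h (fun j => if j = i + 1 then a i else 0) (fun j => if j = i + 1 then -b i else 0)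
        (by simp) (by simp; omega)
      rw [Finset.sum_eq_single (i + 1)] at h1
      · simp at h1
        have h2 := hs i hk
        have h3 : -(b i * a (i + 1)) + a i * b (i + 1) ≠ 0 := by
          have : -(b i * a (i + 1)) + a i * b (i + 1) < 0 := by linarith
          exact this.ne
        exact h1.resolve_left h3
      · intro j _ hj
        by_cases hji : j = i
        · subst hji
          simp; left; ring
        · simp [hj, hji]
      · intro hh
        exact absurd (Finset.mem_range.2 hk) hh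
  · by_cases hm : k + 1 = m
    · have h1 := h (fun j => if j = k + 1 then 1 else 0) (fun _ => 0) (by simp) rfl
      rw [Finset.sum_eq_single k] at h1
      · simp at h1
        exact h1.resolve_left (hb k hk).ne'
      · intro j hj hjk
        have hj' := Finset.mem_range.1 hj
        have h2 : j ≠ k + 1 := by omega
        simp [h2, hjk]
      · intro hh
        exact absurd (Finset.mem_range.2 hk) hh
    · have h1 := h (fun j => if j = k + 1 then a (k + 1) else 0)
        (fun j => if j = k + 1 then -b (k + 1) else 0) (by simp) (by simp; omega)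
      rw [Finset.sum_eq_single k] at h1
      · simp at h1
        have h2 := hs k (by omega)
        have h3 : -(b (k + 1) * a k) + a (k + 1) * b k ≠ 0 := by
          have : 0 < -(b (k + 1) * a k) + a (k + 1) * b k := by linarith
          exact this.ne'
        exact h1.resolve_left h3
      · intro j _ hj
        by_cases hji : j = k + 1
        · subst hji
          simp; left; ring
        · simp [hj, hji]
      · intro hh
        exact absurd (Finset.mem_range.2 hk) hh

lemma ePhi_cont {a b η p1 r0 A0 B1 : ℝ} (ha : a ≠ 0) (hb : b ≠ 0) :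
    Continuous (fun t => ePhi a b η p1 r0 A0 B1 t) := by
  by_cases h : η = 0
  · subst h
    simp only [ePhi_zero ha hb]
    fun_prop
  · simp only [ePhi_ne ha hb h]
    fun_prop

section
variable {v w : ℝ} {X Y : ℕ → ℝ} {m : ℕ} {z1 z2 : ℝ}

/-- MAIN BRIDGE: the first order conditions at a local minimum over the near chains with `m`
edges. -/
theorem nearChain_of_min {d0 P0 N0 M0 : ℝ} (hX : X 0 = 0) (hY : Y m = 0)
    (ha : ∀ i < m, 0 < X (i + 1) - X i) (hb : ∀ i < m, 0 < Y i - Y (i + 1))
    (hs : ∀ i, i + 1 < m → (Y (i + 1) - Y (i + 1 + 1)) * (X (i + 1) - X i) <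
      (Y i - Y (i + 1)) * (X (i + 1 + 1) - X (i + 1)))
    (hD : d0 - cd v w X Y m ≠ 0)
    (hmin : ∀ al be : ℕ → ℝ, al 0 = 0 → be m = 0 → IsLocalMin (fun t : ℝ =>
      chh v w (fun k => X k + t * al k) (fun k => Y k + t * be k) m d0 P0 N0 M0) 0)
    (h1 : z1 = (P0 - cpp v w X Y m) / (d0 - cd v w X Y m))
    (h2 : z2 = (N0 - cn v w X Y m) / (d0 - cd v w X Y m)) :
    NearChain m v w (fun i => X (i + 1) - X i) (fun i => Y i - Y (i + 1))
      (cp v w X Y m z1) (cr' v w X Y z2) (cA v w X Y z2) (cB v w X Y m z1) := by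
  have h0I : (0 : ℝ) ∈ Icc (0 : ℝ) 1 := ⟨le_rfl, zero_le_one⟩
  have h1I : (1 : ℝ) ∈ Icc (0 : ℝ) 1 := ⟨zero_le_one, le_rfl⟩
  have hz := lin_zero (a := fun i => X (i + 1) - X i) (b := fun i => Y i - Y (i + 1))
    (s0 := S0 v w X Y m z1 z2) (s1 := S1 v w X Y m z1 z2) ha hb hs
    (fun al be hal hbe => sum_zero hX hY hal hbe hD (hmin al be hal hbe) h1 h2)
  have hcast : ∀ i : ℕ, ((i + 1 : ℕ) : ℝ) = (i : ℝ) + 1 := fun i => by push_cast; ring
  refine ⟨ha, hb, hs, ?_, ?_, ?_, ?_, ?_, ?_, ?_⟩
  · intro i hi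
    have := cF_edge (v := v) (w := w) (X := X) (Y := Y) (m := m) (z1 := z1) i h0I
    rw [add_zero] at this
    rw [← this, cp]
  · intro i hi
    have := cG_edge (v := v) (w := w) (X := X) (Y := Y) (z2 := z2) i h1I
    rw [← this, cr', hcast]
  · simp [cA]
  · intro i hi
    have := cA_edge (v := v) (w := w) (X := X) (Y := Y) (z2 := z2) i h1I
    rw [← this, cA, hcast]
  · simp [cB]
  · intro i hi
    have := cB_edge (v := v) (w := w) (X := X) (Y := Y) (m := m) (z1 := z1) i h0I
    rw [add_zero] at this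
    rw [← this, cB]
  · intro i hi
    obtain ⟨q0, q1⟩ := hz i hi
    have hce := ce_pos (v := v) (w := w) (X := X) (Y := Y) i
    -- the two integrals
    have hcongr : ∀ g : ℝ → ℝ, (∫ t in (0 : ℝ)..1,
        ce v w X Y (i + t) * cphi v w X Y m z1 z2 (i + t) * g t) =
        ce v w X Y i * ∫ t in (0 : ℝ)..1,
          Real.exp (-((v * (X (i + 1) - X i) - w * (Y i - Y (i + 1))) * t)) *
          (ePhi (X (i + 1) - X i) (Y i - Y (i + 1))
      (v * (X (i + 1) - X i) - w * (Y i - Y (i + 1))) (cp v w X Y m z1 (i + 1))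
      (cr' v w X Y z2 i) (cA v w X Y z2 i) (cB v w X Y m z1 (i + 1)) t * g t) := by
      intro g
      rw [← intervalIntegral.integral_const_mul]
      refine intervalIntegral.integral_congr fun t ht => ?_
      have ht2 : t ∈ Icc (0 : ℝ) 1 := by rwa [uIcc_of_le zero_le_one] at ht
      have h3 := ce_ratio (v := v) (w := w) (X := X) (Y := Y) i h0I ht2
      rw [add_zero, sub_zero] at h3
      simp only [h3, cphi_edge i ht2]
      ring
    rw [S0, hcongr] at q0
    rw [S1, hcongr] at q1
    have q0' := (mul_eq_zero.1 q0).resolve_left hce.ne'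
    have q1' := (mul_eq_zero.1 q1).resolve_left hce.ne'
    have hcont : Continuous (fun t => ePhi (X (i + 1) - X i) (Y i - Y (i + 1))
      (v * (X (i + 1) - X i) - w * (Y i - Y (i + 1))) (cp v w X Y m z1 (i + 1))
      (cr' v w X Y z2 i) (cA v w X Y z2 i) (cB v w X Y m z1 (i + 1)) t) :=
      ePhi_cont (ha i hi).ne' (hb i hi).ne'
    refine edge_main (ha i hi) (hb i hi) ?_ ?_
    · have h5 := intervalIntegral.integral_add (μ := volume) (a := (0 : ℝ)) (b := 1)
        (f := fun t => Real.exp (-((v * (X (i + 1) - X i) - w * (Y i - Y (i + 1))) * t)) *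
          (ePhi (X (i + 1) - X i) (Y i - Y (i + 1))
      (v * (X (i + 1) - X i) - w * (Y i - Y (i + 1))) (cp v w X Y m z1 (i + 1))
      (cr' v w X Y z2 i) (cA v w X Y z2 i) (cB v w X Y m z1 (i + 1)) t * (1 - t)))
        (g := fun t => Real.exp (-((v * (X (i + 1) - X i) - w * (Y i - Y (i + 1))) * t)) *
          (ePhi (X (i + 1) - X i) (Y i - Y (i + 1))
      (v * (X (i + 1) - X i) - w * (Y i - Y (i + 1))) (cp v w X Y m z1 (i + 1))
      (cr' v w X Y z2 i) (cA v w X Y z2 i) (cB v w X Y m z1 (i + 1)) t * t))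
        (Continuous.intervalIntegrable (by fun_prop) _ _)
        (Continuous.intervalIntegrable (by fun_prop) _ _)
      rw [q0', q1', add_zero] at h5
      refine Eq.trans ?_ h5
      refine intervalIntegral.integral_congr fun t _ => ?_
      ring
    · refine Eq.trans ?_ q1'
      refine intervalIntegral.integral_congr fun t _ => ?_
      ring

end

end Pool.Agent.Work.MP_b5407d_pos_h9.FV
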