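import Mathlib

/-! Calculus along piecewise smooth paths: functions which are differentiable off the integers, and
functions of a parameter `t` and a position `s` which are `C^1` in `t`. -/

set_option autoImplicit false

open MeasureTheory Set Filter Topology

namespace Pool.Agent.Work.MP_b5407d_pos_h9.FV

/-- exceptional set -/
def NN : Set ℝ := Set.range (fun n : ℕ => (n : ℝ))

lemma NN_countable : NN.Countable := Set.countable_range _

/-- locally integrable function, continuous off the integers -/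
structure Rg (g : ℝ → ℝ) : Prop where
  int : ∀ a b : ℝ, IntervalIntegrable g volume a b
  cont : ∀ s, s ∉ NN → ContinuousAt g s

/-- continuous function with derivative `f'` off the integers -/
structure AC (f f' : ℝ → ℝ) : Prop where
  cont : Continuous f
  der : ∀ s, s ∉ NN → HasDerivAt f (f' s) s
  rg : Rg f'

lemma Rg.of_cont {g : ℝ → ℝ} (h : Continuous g) : Rg g :=
  ⟨fun _ _ => h.intervalIntegrable _ _, fun _ _ => h.continuousAt⟩

lemma Rg.add {f g : ℝ → ℝ} (hf : Rg f) (hg : Rg g) : Rg (fun s => f s + g s) :=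
  ⟨fun a b => (hf.int a b).add (hg.int a b), fun s hs => (hf.cont s hs).add (hg.cont s hs)⟩

lemma Rg.sub {f g : ℝ → ℝ} (hf : Rg f) (hg : Rg g) : Rg (fun s => f s - g s) :=
  ⟨fun a b => (hf.int a b).sub (hg.int a b), fun s hs => (hf.cont s hs).sub (hg.cont s hs)⟩

lemma Rg.neg {f : ℝ → ℝ} (hf : Rg f) : Rg (fun s => -f s) :=
  ⟨fun a b => (hf.int a b).neg, fun s hs => (hf.cont s hs).neg⟩

lemma Rg.cmul {c g : ℝ → ℝ} (hc : Continuous c) (hg : Rg g) : Rg (fun s => c s * g s) :=
  ⟨fun a b => (hg.int a b).continuousOn_mul hc.continuousOn,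
    fun s hs => hc.continuousAt.mul (hg.cont s hs)⟩

lemma Rg.cmul2 {c d g : ℝ → ℝ} (hc : Continuous c) (hd : Continuous d) (hg : Rg g) :
    Rg (fun s => c s * d s * g s) :=
  Rg.cmul (hc.mul hd) hg

lemma Rg.mulc {c g : ℝ → ℝ} (hc : Continuous c) (hg : Rg g) : Rg (fun s => g s * c s) :=
  ⟨fun a b => (hg.int a b).mul_continuousOn hc.continuousOn,
    fun s hs => (hg.cont s hs).mul hc.continuousAt⟩

lemma Rg.meas {g : ℝ → ℝ} (hg : Rg g) (s : ℝ) : StronglyMeasurableAtFilter g (𝓝 s) volume := by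
  refine ⟨Ioc (s - 1) (s + 1), Ioc_mem_nhds (by linarith) (by linarith), ?_⟩
  have := (hg.int (s - 1) (s + 1)).1
  exact this.aestronglyMeasurable

lemma Rg.prim {g : ℝ → ℝ} (hg : Rg g) (c : ℝ) : AC (fun s => ∫ u in c..s, g u) g :=
  ⟨intervalIntegral.continuous_primitive hg.int c,
    fun s hs => intervalIntegral.integral_hasDerivAt_right (hg.int c s) (hg.meas s) (hg.cont s hs),
    hg⟩

lemma AC.eq {f f' : ℝ → ℝ} (h : AC f f') (a b : ℝ) : ∫ x in a..b, f' x = f b - f a :=
  integral_eq_of_hasDerivAt_off_countable f f' NN_countable h.cont.continuousOn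
    (fun x hx => h.der x hx.2) (h.rg.int a b)

lemma AC.congr {f f' g' : ℝ → ℝ} (h : AC f f') (he : ∀ s, f' s = g' s) : AC f g' := by
  have : f' = g' := funext he
  rwa [this] at h

lemma AC.congrf {f g f' : ℝ → ℝ} (h : AC f f') (he : ∀ s, f s = g s) : AC g f' := by
  have : f = g := funext he
  rwa [this] at h

lemma AC.const (c : ℝ) : AC (fun _ => c) (fun _ => 0) :=
  ⟨continuous_const, fun s _ => hasDerivAt_const s c, Rg.of_cont continuous_const⟩

lemma AC.add {f f' g g' : ℝ → ℝ} (hf : AC f f') (hg : AC g g') :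
    AC (fun s => f s + g s) (fun s => f' s + g' s) :=
  ⟨hf.cont.add hg.cont, fun s hs => (hf.der s hs).add (hg.der s hs), hf.rg.add hg.rg⟩

lemma AC.sub {f f' g g' : ℝ → ℝ} (hf : AC f f') (hg : AC g g') :
    AC (fun s => f s - g s) (fun s => f' s - g' s) :=
  ⟨hf.cont.sub hg.cont, fun s hs => (hf.der s hs).sub (hg.der s hs), hf.rg.sub hg.rg⟩

lemma AC.neg {f f' : ℝ → ℝ} (hf : AC f f') : AC (fun s => -f s) (fun s => -f' s) :=
  ⟨hf.cont.neg, fun s hs => (hf.der s hs).neg, hf.rg.neg⟩

lemma AC.mul {f f' g g' : ℝ → ℝ} (hf : AC f f') (hg : AC g g') :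
    AC (fun s => f s * g s) (fun s => f' s * g s + f s * g' s) :=
  ⟨hf.cont.mul hg.cont, fun s hs => (hf.der s hs).mul (hg.der s hs),
    (Rg.mulc hg.cont hf.rg).add (Rg.cmul hf.cont hg.rg)⟩

lemma AC.smul {f f' : ℝ → ℝ} (c : ℝ) (hf : AC f f') :
    AC (fun s => c * f s) (fun s => c * f' s) :=
  ⟨hf.cont.const_mul c |> fun h => h, fun s hs => (hf.der s hs).const_mul c,
    Rg.cmul continuous_const hf.rg⟩

lemma AC.comp {p p' f f' : ℝ → ℝ} (hp : ∀ x, HasDerivAt p (p' x) x) (hp' : Continuous p')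
    (hf : AC f f') : AC (fun s => p (f s)) (fun s => p' (f s) * f' s) := by
  have hc : Continuous p := continuous_iff_continuousAt.2 fun x => (hp x).continuousAt
  exact ⟨hc.comp hf.cont, fun s hs => (hp (f s)).comp s (hf.der s hs),
    Rg.cmul (hp'.comp hf.cont) hf.rg⟩

/-! ### dependence on a parameter -/

/-- `f t s` with continuous derivative in `t` -/
structure C1t (f ft : ℝ → ℝ → ℝ) : Prop where
  cont : Continuous (fun p : ℝ × ℝ => f p.1 p.2)
  contt : Continuous (fun p : ℝ × ℝ => ft p.1 p.2)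
  der : ∀ t s, HasDerivAt (fun t => f t s) (ft t s) t

lemma C1t.congr {f ft gt : ℝ → ℝ → ℝ} (h : C1t f ft) (he : ∀ t s, ft t s = gt t s) : C1t f gt := by
  have : ft = gt := by funext t s; exact he t s
  rwa [this] at h

lemma C1t.congrf {f g ft : ℝ → ℝ → ℝ} (h : C1t f ft) (he : ∀ t s, f t s = g t s) : C1t g ft := by
  have : f = g := by funext t s; exact he t s
  rwa [this] at h

lemma C1t.cs {f ft : ℝ → ℝ → ℝ} (h : C1t f ft) (t : ℝ) : Continuous (f t) :=
  h.cont.comp (continuous_const.prodMk continuous_id)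

lemma C1t.cst {f ft : ℝ → ℝ → ℝ} (h : C1t f ft) (t : ℝ) : Continuous (ft t) :=
  h.contt.comp (continuous_const.prodMk continuous_id)

lemma C1t.ofs {c : ℝ → ℝ} (hc : Continuous c) : C1t (fun _ s => c s) (fun _ _ => 0) :=
  ⟨hc.comp continuous_snd, continuous_const, fun t s => hasDerivAt_const t (c s)⟩

lemma C1t.oft {c c' : ℝ → ℝ} (hc : ∀ t, HasDerivAt c (c' t) t) (hc' : Continuous c') :
    C1t (fun t _ => c t) (fun t _ => c' t) := by
  have h : Continuous c := continuous_iff_continuousAt.2 fun x => (hc x).continuousAt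
  exact ⟨h.comp continuous_fst, hc'.comp continuous_fst, fun t s => hc t⟩

lemma C1t.id : C1t (fun t _ => t) (fun _ _ => 1) :=
  ⟨continuous_fst, continuous_const, fun t _ => hasDerivAt_id t⟩

lemma C1t.add {f ft g gt : ℝ → ℝ → ℝ} (hf : C1t f ft) (hg : C1t g gt) :
    C1t (fun t s => f t s + g t s) (fun t s => ft t s + gt t s) :=
  ⟨hf.cont.add hg.cont, hf.contt.add hg.contt, fun t s => (hf.der t s).add (hg.der t s)⟩

lemma C1t.sub {f ft g gt : ℝ → ℝ → ℝ} (hf : C1t f ft) (hg : C1t g gt) :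
    C1t (fun t s => f t s - g t s) (fun t s => ft t s - gt t s) :=
  ⟨hf.cont.sub hg.cont, hf.contt.sub hg.contt, fun t s => (hf.der t s).sub (hg.der t s)⟩

lemma C1t.neg {f ft : ℝ → ℝ → ℝ} (hf : C1t f ft) :
    C1t (fun t s => -f t s) (fun t s => -ft t s) :=
  ⟨hf.cont.neg, hf.contt.neg, fun t s => (hf.der t s).neg⟩

lemma C1t.mul {f ft g gt : ℝ → ℝ → ℝ} (hf : C1t f ft) (hg : C1t g gt) :
    C1t (fun t s => f t s * g t s) (fun t s => ft t s * g t s + f t s * gt t s) :=
  ⟨hf.cont.mul hg.cont, (hf.contt.mul hg.cont).add (hf.cont.mul hg.contt),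
    fun t s => (hf.der t s).mul (hg.der t s)⟩

lemma C1t.comp {p p' : ℝ → ℝ} {f ft : ℝ → ℝ → ℝ} (hp : ∀ x, HasDerivAt p (p' x) x)
    (hp' : Continuous p') (hf : C1t f ft) :
    C1t (fun t s => p (f t s)) (fun t s => p' (f t s) * ft t s) := by
  have hc : Continuous p := continuous_iff_continuousAt.2 fun x => (hp x).continuousAt
  exact ⟨hc.comp hf.cont, (hp'.comp hf.cont).mul hf.contt,
    fun t s => (hp (f t s)).comp t (hf.der t s)⟩

/-- joint continuity of primitives -/
lemma cont_prim {f : ℝ → ℝ → ℝ} {g : ℝ → ℝ} (hf : Continuous (fun p : ℝ × ℝ => f p.1 p.2))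
    (hg : Rg g) (c : ℝ) : Continuous (fun p : ℝ × ℝ => ∫ u in c..p.2, f p.1 u * g u) := by
  rw [continuous_iff_continuousAt]
  rintro ⟨t0, s0⟩
  obtain ⟨R, hR0, hR1, hR2⟩ : ∃ R : ℝ, 0 < R ∧ |c| < R ∧ |s0| < R :=
    ⟨max |c| |s0| + 1, by positivity, by
      have := le_max_left |c| |s0|; linarith, by have := le_max_right |c| |s0|; linarith⟩
  have hK : IsCompact (Icc (t0 - 1) (t0 + 1) ×ˢ Icc (-R) R) := isCompact_Icc.prod isCompact_Icc
  obtain ⟨B, hB⟩ := hK.exists_bound_of_continuousOn (f := fun p : ℝ × ℝ => f p.1 p.2)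
    hf.continuousOn
  have hm : ∀ t, AEStronglyMeasurable (fun u => f t u * g u) (volume.restrict (uIoc (-R) R)) := by
    intro t
    have h1 : IntervalIntegrable (fun u => f t u * g u) volume (-R) R :=
      (hg.int (-R) R).continuousOn_mul
        (hf.comp (continuous_const.prodMk continuous_id)).continuousOn
    exact h1.aestronglyMeasurable_restrict_uIoc
  refine intervalIntegral.continuousAt_parametric_primitive_of_dominated
    (F := fun t u => f t u * g u) (fun u => B * ‖g u‖) (-R) R hm ?_ ?_ ?_ ?_ ?_ ?_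
  · filter_upwards [Icc_mem_nhds (show t0 - 1 < t0 by linarith) (show t0 < t0 + 1 by linarith)]
      with t ht
    refine (ae_restrict_iff' measurableSet_uIoc).2 (Eventually.of_forall fun u hu => ?_)
    rw [norm_mul]
    refine mul_le_mul_of_nonneg_right ?_ (norm_nonneg _)
    rw [uIoc_of_le (by linarith)] at hu
    exact hB (t, u) ⟨ht, ⟨hu.1.le, hu.2⟩⟩
  · exact (hg.int (-R) R).norm.const_mul B
  · refine Eventually.of_forall fun u => ?_
    exact ((hf.comp (continuous_id.prodMk continuous_const)).mul continuous_const).continuousAt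
  · exact abs_lt.1 hR1
  · exact abs_lt.1 hR2
  · exact measure_singleton s0

lemma leib {f ft : ℝ → ℝ → ℝ} {g : ℝ → ℝ} (hf : C1t f ft) (hg : Rg g) (c s t : ℝ) :
    HasDerivAt (fun t => ∫ u in c..s, f t u * g u) (∫ u in c..s, ft t u * g u) t := by
  have hK : IsCompact (Icc (t - 1) (t + 1) ×ˢ uIcc c s) := isCompact_Icc.prod isCompact_uIcc
  obtain ⟨B, hB⟩ := hK.exists_bound_of_continuousOn (f := fun p : ℝ × ℝ => ft p.1 p.2)
    hf.contt.continuousOn
  have hint : ∀ t, IntervalIntegrable (fun u => f t u * g u) volume c s := fun t =>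
    (hg.int c s).continuousOn_mul (hf.cs t).continuousOn
  have hint' : ∀ t, IntervalIntegrable (fun u => ft t u * g u) volume c s := fun t =>
    (hg.int c s).continuousOn_mul (hf.cst t).continuousOn
  refine (intervalIntegral.hasDerivAt_integral_of_dominated_loc_of_deriv_le
    (F := fun t u => f t u * g u) (F' := fun t u => ft t u * g u)
    (bound := fun u => B * ‖g u‖)
    (Icc_mem_nhds (show t - 1 < t by linarith) (show t < t + 1 by linarith)) ?_ (hint t) ?_ ?_
    ((hg.int c s).norm.const_mul B) ?_).2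
  · exact Eventually.of_forall fun t => (hint t).aestronglyMeasurable_restrict_uIoc
  · exact (hint' t).aestronglyMeasurable_restrict_uIoc
  · refine Eventually.of_forall fun u hu t' ht' => ?_
    rw [norm_mul]
    exact mul_le_mul_of_nonneg_right (hB (t', u) ⟨ht', uIoc_subset_uIcc hu⟩) (norm_nonneg _)
  · refine Eventually.of_forall fun u _ t' _ => ?_
    exact (hf.der t' u).mul_const (g u)

lemma C1t.prim {f ft : ℝ → ℝ → ℝ} {g : ℝ → ℝ} (hf : C1t f ft) (hg : Rg g) (c : ℝ) :
    C1t (fun t s => ∫ u in c..s, f t u * g u) (fun t s => ∫ u in c..s, ft t u * g u) :=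
  ⟨cont_prim hf.cont hg c, cont_prim hf.contt hg c, fun t s => leib hf hg c s t⟩

lemma C1t.prim2 {f ft h ht : ℝ → ℝ → ℝ} {g k : ℝ → ℝ} (hf : C1t f ft) (hg : Rg g)
    (hh : C1t h ht) (hk : Rg k) (c : ℝ) :
    C1t (fun t s => ∫ u in c..s, (f t u * g u + h t u * k u))
      (fun t s => ∫ u in c..s, (ft t u * g u + ht t u * k u)) := by
  refine (((hf.prim hg c).add (hh.prim hk c)).congrf ?_).congr ?_
  · intro t s
    rw [intervalIntegral.integral_add]
    · exact (hg.int c s).continuousOn_mul (hf.cs t).continuousOn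
    · exact (hk.int c s).continuousOn_mul (hh.cs t).continuousOn
  · intro t s
    rw [intervalIntegral.integral_add]
    · exact (hg.int c s).continuousOn_mul (hf.cst t).continuousOn
    · exact (hk.int c s).continuousOn_mul (hh.cst t).continuousOn

end Pool.Agent.Work.MP_b5407d_pos_h9.FV
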