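import Mathlib

/-! # MP_b5407d_gt, case without corner, LAST: the final algebra (helper9) -/

set_option autoImplicit false

namespace Pool.Agent.Work.MP_b5407d_pos_h9.LA

/-- final contradiction, `w ≤ 0` -/
theorem final_alg {v w J UB UL d eT eR e2 eE XE YE X2 M2 C1 C2 L12 LA L2E L22 L1E X22 Y22 B : ℝ}
    (hw : w ≤ 0) (hUB : 0 < UB) (hUL : 0 < UL) (hJ : 0 < J) (hd : 0 < d)
    (heT : 0 < eT) (heR : 0 < eR) (he2 : 0 < e2) (heE : 0 < eE)
    (heTd : eT = 1 - w * UL) (heRd : eR = 1 - v * UB)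
    (hM2 : M2 * UB = J) (e2d : e2 = 1 + v * w * J - v * X2 - w * M2)
    (eEd : eE = 1 + v * w * J - v * XE - w * YE)
    (hC : d * (1 + v * w * J - v * C1 - w * C2) = J)
    (hD1 : J ≤ UL * C1) (hD2 : J ≤ UB * C2) (hρ : UB * UL < J)
    (hL : d * eE = J + (UL * XE - J) / eT + (UB * YE - J) / eR + L1E + L2E)
    (hs : L1E = L12 + (XE - X2) * Y22 - (YE - M2) * X22 + LA)
    (hX : e2 * X22 = (X2 - w * J) / eT + w * L12)
    (hY : e2 * Y22 = (M2 - UL) / eT - v * L12)
    (hB : B = w * d + UB / eR)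
    (hX' : e2 * (B - X22) = -(X2 - UB) / eR + w * L22)
    (p12 : 0 ≤ L12) (pA : 0 ≤ LA) (p2E : 0 ≤ L2E) (p22 : 0 ≤ L22)
    (g1 : C1 < XE) (g2 : YE ≤ M2) (g3 : UB ≤ X2) (g4 : X2 ≤ XE) : False := by
  set A : ℝ := v * d + UL / eT with hA
  have hC2 : M2 ≤ C2 := by
    by_contra hn
    push Not at hn
    have := mul_lt_mul_of_pos_right hn hUB
    linarith
  have hM2L : UL < M2 := by
    by_contra hn
    push Not at hn
    have := mul_le_mul_of_nonneg_right hn hUB.le
    linarith
  have hM2p : 0 < M2 := hUL.trans hM2L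
  -- `A > 0`
  have hApos : 0 < A := by
    rcases le_or_gt 0 v with hv | hv
    · rw [hA]; positivity
    · have h1 : A * (eT * J) = d * (UL * (1 - w * C2) - v * (UL * C1 - J)) := by
        rw [hA]
        have h2 : (v * d + UL / eT) * (eT * J) = v * d * eT * J + UL * J := by field_simp
        rw [h2, heTd]
        have h3 : UL * J = UL * (d * (1 + v * w * J - v * C1 - w * C2)) := by rw [hC]
        linear_combination h3
      have h4 : 0 < UL * (1 - w * C2) - v * (UL * C1 - J) := by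
        have h5 : 0 ≤ -w * C2 := mul_nonneg (by linarith) (hM2p.le.trans hC2)
        have h6 : 0 ≤ -v * (UL * C1 - J) := mul_nonneg (by linarith) (by linarith)
        have h7 : 0 < UL * (1 - w * C2) := mul_pos hUL (by linarith)
        linarith
      by_contra hn
      push Not at hn
      have h8 := mul_nonpos_of_nonpos_of_nonneg hn (mul_pos heT hJ).le
      have h9 := mul_pos hd h4
      linarith
  -- `n.z - Θ`
  have hz : A * (C1 - XE) + B * (M2 - YE) - (L1E + L2E) =
      (UL * C1 - J) / eT + -w * d * (C2 - M2) := by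
    have h1 : L1E + L2E = d * eE - J - (UL * XE - J) / eT - (UB * YE - J) / eR := by linarith
    rw [h1, hA, hB, eEd]
    have h2 : UB / eR * (M2 - YE) = (J - UB * YE) / eR := by
      rw [← hM2]; ring
    have h3 : UL / eT * (C1 - XE) = (UL * C1 - J) / eT - (UL * XE - J) / eT := by ring
    have h4 : (UB * YE - J) / eR = -((J - UB * YE) / eR) := by ring
    have h5 : (v * d + UL / eT) * (C1 - XE) = v * d * (C1 - XE) + UL / eT * (C1 - XE) := by ring
    have h6 : (w * d + UB / eR) * (M2 - YE) = w * d * (M2 - YE) + UB / eR * (M2 - YE) := by ring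
    rw [h5, h6, h2, h3, h4]
    linear_combination -hC
  have hz0 : 0 ≤ (UL * C1 - J) / eT + -w * d * (C2 - M2) := by
    have h1 : 0 ≤ (UL * C1 - J) / eT := div_nonneg (by linarith) heT.le
    have h2 : 0 ≤ -w * d * (C2 - M2) :=
      mul_nonneg (mul_nonneg (by linarith) hd.le) (by linarith)
    linarith
  -- lower bound
  have hlow : A * (XE - C1) + L12 + (XE - X2) * Y22 + LA ≤ (M2 - YE) * (B - X22) := by
    nlinarith
  have hYpos : 0 ≤ e2 * (L12 + (XE - X2) * Y22) := by
    have h1 : e2 * (L12 + (XE - X2) * Y22) =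
        L12 * (1 + v * w * J - v * XE - w * M2) + (XE - X2) * ((M2 - UL) / eT) := by
      have : e2 * (L12 + (XE - X2) * Y22) = e2 * L12 + (XE - X2) * (e2 * Y22) := by ring
      rw [this, hY, e2d]; ring
    have h2 : 0 ≤ 1 + v * w * J - v * XE - w * M2 := by
      have : 1 + v * w * J - v * XE - w * M2 = eE + -w * (M2 - YE) := by rw [eEd]; ring
      rw [this]
      have : 0 ≤ -w * (M2 - YE) := mul_nonneg (by linarith) (by linarith)
      linarith
    rw [h1]
    have h3 : 0 ≤ (M2 - UL) / eT := div_nonneg (by linarith) heT.le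
    have h4 := mul_nonneg (sub_nonneg.2 g4) h3
    have h5 := mul_nonneg p12 h2
    linarith
  have hBneg : e2 * (B - X22) ≤ 0 := by
    rw [hX']
    have h1 : 0 ≤ (X2 - UB) / eR := div_nonneg (by linarith) heR.le
    have h2 : w * L22 ≤ 0 := mul_nonpos_of_nonpos_of_nonneg hw p22
    have h3 : -(X2 - UB) / eR = -((X2 - UB) / eR) := by ring
    rw [h3]; linarith
  have h10 : e2 * (A * (XE - C1) + L12 + (XE - X2) * Y22 + LA) ≤
      e2 * ((M2 - YE) * (B - X22)) := mul_le_mul_of_nonneg_left hlow he2.le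
  have h11 : e2 * ((M2 - YE) * (B - X22)) = (M2 - YE) * (e2 * (B - X22)) := by ring
  have h12 := mul_nonpos_of_nonneg_of_nonpos (sub_nonneg.2 g2) hBneg
  have h13 := mul_pos (mul_pos he2 hApos) (sub_pos.2 g1)
  have h14 := mul_nonneg he2.le pA
  nlinarith

end Pool.Agent.Work.MP_b5407d_pos_h9.LA
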