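import Pool.Agent.Work.MP_b5407d_pos_helper47.W13
import Pool.Agent.Work.MP_b5407d_pos_helper9.LamPos
import Pool.Agent.Work.MP_b5407d_pos_helper9.LastAlg

/-! # MP_b5407d_gt, case without corner, LAST for `w ≤ 0` (helper9) -/

set_option autoImplicit false

open MeasureTheory Set Filter Topology

namespace Pool.Agent.Work.MP_b5407d_pos_h9.LA

open Pool.LBM Pool.Agent.Work.MP_b5407d_pos_h9.FV Pool.Agent.Work.MP_b5407d_pos_h47

section
variable {v w : ℝ} {a b : ℕ → ℝ} {m p q k : ℕ}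

lemma slp_up (h : Std m 0 a b) (S : Spl m a b p q) : Slp a b q m :=
  fun s hs t ht hst => up_slope h S s hs t ht hst

/-- `y` increases up to the top vertex -/
lemma db_up (h : Std m 0 a b) (S : Spl m a b p q) (hk : k ≤ m) (htop : ∀ j ≤ m, b j ≤ b k)
    {i : ℕ} (hi : i < k) : 0 ≤ b (i + 1) - b i := by
  rcases lt_or_ge i p with h1 | h1
  · exact db_nonneg h S h1
  · rcases lt_or_ge i q with h2 | h2
    · exact (S.vb i h1 h2).le
    · have e : k - 1 + 1 = k := by omega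
      have h3 := slope_up h S (i := i) (j := k - 1) h2 (by omega) (by omega)
      rw [e] at h3
      have h4 := S.up i h2 (by omega)
      have h5 := S.up (k - 1) (by omega) (by omega)
      rw [e] at h5
      have h6 := htop (k - 1) (by omega)
      have h7 : (a (i + 1) - a i) * (b k - b (k - 1)) ≤ 0 :=
        mul_nonpos_of_nonpos_of_nonneg h4.le (sub_nonneg.2 h6)
      by_contra hn
      push Not at hn
      have h8 := mul_pos_of_neg_of_neg hn h5
      linarith

lemma dplb_nonneg (h : Std m 0 a b) (S : Spl m a b p q) (hk : k ≤ m)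
    (htop : ∀ j ≤ m, b j ≤ b k) {t : ℝ} (ht : t ∈ Ico (0 : ℝ) k) : 0 ≤ dpl b t := by
  have h1 := dpl_nat_lt b ht.1 ht.2
  rw [h1.2]
  exact db_up h S hk htop h1.1

lemma dpla_nonneg (S : Spl m a b p q) {t : ℝ} (ht : t ∈ Ico (0 : ℝ) q) : 0 ≤ dpl a t := by
  rcases lt_or_ge t p with h1 | h1
  · exact (lo_pos S t ⟨ht.1, h1⟩).le
  · exact (mid_zero S t ⟨h1, ht.2⟩).ge

lemma slp_low (h : Std m 0 a b) (S : Spl m a b p q) (hk : k ≤ m)
    (htop : ∀ j ≤ m, b j ≤ b k) : Slp a b 0 k := by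
  intro s hs t ht hst
  rcases lt_or_ge t p with h1 | h1
  · exact lo_slope h S s ⟨hs.1, hst.trans_lt h1⟩ t ⟨ht.1, h1⟩ hst
  · rcases lt_or_ge s q with h2 | h2
    · have h3 := dpla_nonneg S ⟨hs.1, h2⟩
      have h4 := dplb_nonneg h S hk htop ht
      have h5 := dplb_nonneg h S hk htop hs
      have h6 := mul_nonneg h3 h4
      have h7 : dpl a t ≤ 0 := by
        rcases lt_or_ge t q with h8 | h8
        · exact (mid_zero S t ⟨h1, h8⟩).le
        · exact (up_neg S t ⟨h8, ht.2.trans_le (Nat.cast_le.2 hk)⟩).le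
      have h8 := mul_nonpos_of_nonneg_of_nonpos h5 h7
      linarith
    · have hkm : (k : ℝ) ≤ m := Nat.cast_le.2 hk
      exact up_slope h S s ⟨h2, hs.2.trans_le hkm⟩ t ⟨h2.trans hst, ht.2.trans_le hkm⟩ hst

lemma Y_mono (h : Std m 0 a b) (S : Spl m a b p q) (hk : k ≤ m)
    (htop : ∀ j ≤ m, b j ≤ b k) {s t : ℝ} (h0 : 0 ≤ s) (hst : s ≤ t) (ht : t ≤ k) :
    pY v w a b m s ≤ pY v w a b m t := by
  have h1 := (YAC (v := v) (w := w) (a := a) (b := b) m).eq s t
  have h2 : 0 ≤ ∫ u in s..t, pe v w a b u * dpl b u :=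
    nonneg_Ioo hst fun u hu => mul_nonneg (pe_pos u).le
      (dplb_nonneg h S hk htop ⟨h0.trans hu.1.le, hu.2.trans_le ht⟩)
  linarith

lemma Y_mono_q (h : Std m 0 a b) (S : Spl m a b p q) {s t : ℝ} (h0 : 0 ≤ s) (hst : s ≤ t)
    (ht : t ≤ q) : pY v w a b m s ≤ pY v w a b m t := by
  have h1 := (YAC (v := v) (w := w) (a := a) (b := b) m).eq s t
  have h2 : 0 ≤ ∫ u in s..t, pe v w a b u * dpl b u :=
    nonneg_Ioo hst fun u hu => by
      refine mul_nonneg (pe_pos u).le ?_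
      rcases lt_or_ge u p with h3 | h3
      · exact lo_b h S u ⟨h0.trans hu.1.le, h3⟩
      · exact (mid_b S u ⟨h3, hu.2.trans_le ht⟩).le
  linarith

lemma X_anti (S : Spl m a b p q) {s t : ℝ} (h0 : (q : ℝ) ≤ s) (hst : s ≤ t) (ht : t ≤ m) :
    pX v w a b t ≤ pX v w a b s := by
  have h1 := (XAC (v := v) (w := w) (a := a) (b := b)).eq s t
  have h2 : 0 ≤ ∫ u in s..t, -(pe v w a b u * dpl a u) :=
    nonneg_Ioo hst fun u hu => by
      have := mul_nonpos_of_nonneg_of_nonpos (pe_pos (v := v) (w := w) (a := a) (b := b) u).le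
        (up_neg S u ⟨h0.trans hu.1.le, hu.2.trans_le ht⟩).le
      linarith
  rw [intervalIntegral.integral_neg] at h2
  linarith

/-- all identities used -/
structure Idn (v w : ℝ) (a b : ℕ → ℝ) (m : ℕ) : Prop where
  L : ∀ P : ℝ, pd v w a b m * pe v w a b P = pJ v w a b m +
    (mE w (b m) * pX v w a b P - pJ v w a b m) / pe v w a b m +
    (mE v (a 1) * pY v w a b m P - pJ v w a b m) / pe v w a b 1 +
    (∫ t in (m : ℝ)..P, lamI v w a b m P t) + ∫ t in P..1, lamI v w a b m P t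
  Xf : ∀ P : ℝ, pe v w a b P * (∫ t in (m : ℝ)..P, (pe v w a b t)⁻¹ * dpl a t) =
    (pX v w a b P - w * pJ v w a b m) / pe v w a b m + w * ∫ t in (m : ℝ)..P, lamI v w a b m P t
  Yf : ∀ P : ℝ, pe v w a b P * (∫ t in (m : ℝ)..P, (pe v w a b t)⁻¹ * dpl b t) =
    (pY v w a b m P - mE w (b m)) / pe v w a b m - v * ∫ t in (m : ℝ)..P, lamI v w a b m P t
  Xf' : ∀ P : ℝ, pe v w a b P * (∫ t in P..1, (pe v w a b t)⁻¹ * dpl a t) =
    -(pX v w a b P - mE v (a 1)) / pe v w a b 1 + w * ∫ t in P..1, lamI v w a b m P t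
  Bf : ∫ t in (m : ℝ)..1, (pe v w a b t)⁻¹ * dpl a t = w * pd v w a b m +
    mE v (a 1) / pe v w a b 1
  sup : ∀ P Q : ℝ, ∫ t in (m : ℝ)..P, lamI v w a b m P t =
    (∫ t in (m : ℝ)..Q, lamI v w a b m Q t) +
    (pX v w a b P - pX v w a b Q) * (∫ t in (m : ℝ)..Q, (pe v w a b t)⁻¹ * dpl b t) -
    (pY v w a b m P - pY v w a b m Q) * (∫ t in (m : ℝ)..Q, (pe v w a b t)⁻¹ * dpl a t) +
    ∫ t in Q..P, lamI v w a b m P t

lemma ei_ii (s t : ℝ) : IntervalIntegrable (fun t => (pe v w a b t)⁻¹ * dpl a t) volume s t :=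
  (Rg.cmul peiAC.cont (plAC a).rg).int s t

lemma pe_m (h : Std m 0 a b) : pe v w a b m = 1 - w * mE w (b m) := by
  rw [e_rel h.a0 m, ef, X_m h, Y_m h]; ring

lemma pe_1 (h : Std m 0 a b) : pe v w a b 1 = 1 - v * mE v (a 1) := by
  rw [e_rel h.a0 m, ef, X_1 h, Y_1 h]; ring

/-- (i) -/
lemma step_i (h : Std m 0 a b) (S : Spl m a b p q) (I : Idn v w a b m)
    (hY : pJ v w a b m ≤ mE v (a 1) * pY v w a b m q) :
    mE w (b m) * (∫ t in (m : ℝ)..q, (pe v w a b t)⁻¹ * dpl a t) ≤ pd v w a b m := by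
  have hL := I.L q
  have hX := I.Xf q
  have e1 := pe_m (v := v) (w := w) h
  have p1 := pe_pos (v := v) (w := w) (a := a) (b := b) (m : ℝ)
  have p2 := pe_pos (v := v) (w := w) (a := a) (b := b) 1
  have p3 := pe_pos (v := v) (w := w) (a := a) (b := b) (q : ℝ)
  have n1 : 0 ≤ ∫ t in (m : ℝ)..q, lamI v w a b m q t :=
    pos_end (Nat.cast_le.2 S.qm.le) (slp_up h S)
  have hq : (1 : ℝ) ≤ q := by exact_mod_cast S.p1.trans S.pq
  have n2 : 0 ≤ ∫ t in (q : ℝ)..1, lamI v w a b m q t := by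
    refine pos_start hq ?_
    intro s hs t ht hst
    rcases lt_or_ge t p with h1 | h1
    · exact lo_slope h S s ⟨by linarith [hs.1], hst.trans_lt h1⟩ t ⟨by linarith [ht.1], h1⟩ hst
    · have h3 := dpla_nonneg S (t := s) ⟨by linarith [hs.1], hs.2⟩
      have h4 := mul_nonneg h3 (mid_b S t ⟨h1, ht.2⟩).le
      rw [mid_zero S t ⟨h1, ht.2⟩, mul_zero]
      exact h4
  set L1 := ∫ t in (m : ℝ)..q, lamI v w a b m q t
  set L2 := ∫ t in (q : ℝ)..1, lamI v w a b m q t
  set X2 := ∫ t in (m : ℝ)..q, (pe v w a b t)⁻¹ * dpl a t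
  set eT := pe v w a b m
  set UL := mE w (b m)
  set J := pJ v w a b m
  have h5 : pe v w a b q * (pd v w a b m - UL * X2) =
      (mE v (a 1) * pY v w a b m q - J) / pe v w a b 1 + eT * L1 + L2 := by
    have h6 : pe v w a b q * (pd v w a b m - UL * X2) =
      pd v w a b m * pe v w a b q - UL * (pe v w a b q * X2) := by ring
    have h7 : (UL * pX v w a b q - J) / eT - UL * ((pX v w a b q - w * J) / eT) =
        -J := by
      have : (UL * pX v w a b q - J) / eT - UL * ((pX v w a b q - w * J) / eT) =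
        -(J * (1 - w * UL)) / eT := by ring
      rw [this, ← e1]; field_simp
    rw [h6, hL, hX, e1]
    rw [e1] at h7
    linear_combination h7
  have h8 : 0 ≤ pe v w a b q * (pd v w a b m - UL * X2) := by
    rw [h5]
    have := div_nonneg (sub_nonneg.2 hY) p2.le
    have := mul_nonneg p1.le n1
    linarith
  by_contra hn
  push Not at hn
  have := mul_neg_of_pos_of_neg p3 (sub_neg.2 hn)
  linarith

/-- **LAST for `w ≤ 0`** from the slice inequalities and the comparison at `P2` -/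
theorem lastA_of (hw : w ≤ 0) (h : Std m 0 a b) (S : Spl m a b p q) (I : Idn v w a b m)
    (hρ : mE v (a 1) * mE w (b m) < pJ v w a b m)
    (hD1 : pJ v w a b m * pd v w a b m ≤ mE w (b m) * pP v w a b m)
    (hD2 : pJ v w a b m * pd v w a b m ≤ mE v (a 1) * pN v w a b m 0)
    (hC : pd v w a b m * (1 + v * w * pJ v w a b m) - v * pP v w a b m - w * pN v w a b m 0 =
      pJ v w a b m)
    (Q1 : mE w (b m) * (∫ t in (m : ℝ)..q, (pe v w a b t)⁻¹ * dpl a t) ≤ pd v w a b m →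
      mE w (b m) * pP v w a b m < pJ v w a b m * pd v w a b m)
    (Q3 : pP v w a b m < pX v w a b q * pd v w a b m)
    (hk : k ≤ m) (htop : ∀ j ≤ m, b j ≤ b k)
    (Q2 : pJ v w a b m < mE v (a 1) * pY v w a b m k)
    (Za : ∀ t2 : ℝ, (q : ℝ) ≤ t2 → t2 ≤ m →
      mE v (a 1) * pY v w a b m t2 = pJ v w a b m → pX v w a b t2 ≤ mE v (a 1) →
      (∀ t : ℝ, 1 ≤ t → t ≤ m → mE v (a 1) ≤ pX v w a b t →
        mE v (a 1) * pY v w a b m t ≤ pJ v w a b m) →
      pd v w a b m * pM v w a b m 0 ≤ pP v w a b m * pN v w a b m 0) :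
    pd v w a b m * pM v w a b m 0 ≤ pP v w a b m * pN v w a b m 0 := by
  have hJ : 0 < pJ v w a b m := MP_b5407d_pos_h13.pJ_pos (MP_b5407d_pos_h13.CP_of_Std h)
  have hD : 0 < pd v w a b m := MP_b5407d_pos_h13.pd_pos (MP_b5407d_pos_h13.CP_of_Std h)
  have hUB := X0_pos v h
  have hUL : 0 < mE w (b m) := by
    rw [← mE_0 w]
    refine mE_mono w ?_
    have := h.left
    rw [h.br] at this
    exact this
  -- `Y_E < M2`
  have hYE : mE v (a 1) * pY v w a b m q < pJ v w a b m := by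
    by_contra hn
    push Not at hn
    have := Q1 (step_i h S I hn)
    linarith
  have hq1 : (1 : ℝ) ≤ q := by exact_mod_cast S.p1.trans S.pq
  have hqm : (q : ℝ) ≤ m := Nat.cast_le.2 S.qm.le
  have hqk : (q : ℝ) ≤ k := by
    by_contra hn
    push Not at hn
    have h1 := Y_mono_q (v := v) (w := w) h S (Nat.cast_nonneg k) hn.le le_rfl
    have h2 := mul_le_mul_of_nonneg_left h1 hUB.le
    linarith
  have hkm : (k : ℝ) ≤ m := Nat.cast_le.2 hk
  -- `V2`
  obtain ⟨t2, ht2, hYt⟩ : ∃ t2 ∈ Icc (q : ℝ) k, mE v (a 1) * pY v w a b m t2 =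
      pJ v w a b m := by
    have hc : ContinuousOn (fun t => mE v (a 1) * pY v w a b m t) (Icc (q : ℝ) k) :=
      (continuous_const.mul (YAC m).cont).continuousOn
    exact intermediate_value_Icc hqk hc ⟨hYE.le, Q2.le⟩
  rcases lt_or_ge (pX v w a b t2) (mE v (a 1)) with hX2 | hX2
  · -- no chain point beyond `P2`
    refine Za t2 ht2.1 (ht2.2.trans hkm) hYt hX2.le ?_
    intro t h1 h2 h3
    rcases le_or_gt t t2 with h4 | h4
    · have h5 := Y_mono (v := v) (w := w) h S hk htop (by linarith : 0 ≤ t) h4 ht2.2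
      have h6 := mul_le_mul_of_nonneg_left h5 hUB.le
      linarith
    · have h5 := X_anti (v := v) (w := w) S ht2.1 h4.le h2
      linarith
  · exfalso
    have hB := I.Bf
    have hsplit : (∫ t in t2..1, (pe v w a b t)⁻¹ * dpl a t) =
        (∫ t in (m : ℝ)..1, (pe v w a b t)⁻¹ * dpl a t) -
        ∫ t in (m : ℝ)..t2, (pe v w a b t)⁻¹ * dpl a t := by
      rw [← intervalIntegral.integral_add_adjacent_intervals (ei_ii (m : ℝ) t2) (ei_ii t2 1)]
      ring
    have hX' := I.Xf' t2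
    rw [hsplit] at hX'
    have hs := I.sup q t2
    have hslow := slp_low h S hk htop
    have hM2 : pY v w a b m t2 * mE v (a 1) = pJ v w a b m := by rw [mul_comm]; exact hYt
    have e2 := e_rel (v := v) (w := w) (b := b) h.a0 m t2
    have eE := e_rel (v := v) (w := w) (b := b) h.a0 m q
    unfold ef at e2 eE
    refine final_alg (v := v) (w := w) (C1 := pP v w a b m / pd v w a b m)
      (C2 := pN v w a b m 0 / pd v w a b m) hw hUB hUL hJ hD (pe_pos (m : ℝ)) (pe_pos 1)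
      (pe_pos t2) (pe_pos (q : ℝ)) (pe_m h) (pe_1 h) hM2 e2 eE ?_ ?_ ?_ hρ (I.L q) hs
      (I.Xf t2) (I.Yf t2) hB hX' ?_ ?_ ?_ ?_ ?_ ?_ hX2 ?_
    · have : pd v w a b m * (1 + v * w * pJ v w a b m - v * (pP v w a b m / pd v w a b m) -
          w * (pN v w a b m 0 / pd v w a b m)) = pd v w a b m * (1 + v * w * pJ v w a b m) -
          v * pP v w a b m - w * pN v w a b m 0 := by field_simp
      rw [this]; exact hC
    · rw [← mul_div_assoc, le_div_iff₀ hD]; exact hD1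
    · rw [← mul_div_assoc, le_div_iff₀ hD]; exact hD2
    · exact pos_end (ht2.2.trans hkm) ((slp_up h S).mono ht2.1 le_rfl)
    · exact pos_end ht2.1 ((slp_up h S).mono le_rfl (ht2.2.trans hkm))
    · exact pos_start hq1 (hslow.mono zero_le_one hqk)
    · exact pos_start (hq1.trans ht2.1) (hslow.mono zero_le_one ht2.2)
    · rw [div_lt_iff₀ hD]; exact Q3
    · by_contra hn
      push Not at hn
      have h1 := mul_lt_mul_of_pos_left hn hUB
      linarith
    · exact X_anti S le_rfl ht2.1 (ht2.2.trans hkm)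

end

end Pool.Agent.Work.MP_b5407d_pos_h9.LA
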