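import Pool.Agent.Work.MP_b5407d_pos_helper9.FirstVar

/-! `Z(z) = d z1 z2 - z1 N - z2 P + M` and the abstract first and second order conditions for
`h = P N / d - M`. -/

set_option autoImplicit false

open MeasureTheory Set Filter Topology

namespace Pool.Agent.Work.MP_b5407d_pos_h9.FV

section defs
variable (v w : ℝ) (x x' y y' : ℝ → ℝ) (L : ℝ)

/-- `X^` -/
noncomputable def Xh (s : ℝ) : ℝ := mE v (x L) + ∫ u in L..s, e v w x y u * x' u

/-- area integral of `e` under the path left of `s` -/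
noncomputable def Jl (s : ℝ) : ℝ := ∫ u in (0 : ℝ)..s, (Real.exp (-(v * x u)) * mE w (y u)) * x' u

/-- `d_D` -/
noncomputable def Zd : ℝ := -∫ s in (0 : ℝ)..L, mE v (x s) / e v w x y s * y' s
/-- `N_D` -/
noncomputable def Zn : ℝ := -∫ s in (0 : ℝ)..L, Jl v w x x' y s / e v w x y s * y' s
/-- `P_D` -/
noncomputable def Zp : ℝ :=
  -∫ s in (0 : ℝ)..L, Xh v w x x' y L s * mE v (x s) / e v w x y s * y' s
/-- `M_D` -/
noncomputable def Zm : ℝ :=
  -∫ s in (0 : ℝ)..L, Xh v w x x' y L s * Jl v w x x' y s / e v w x y s * y' s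

end defs

section
variable {v w : ℝ} {x x' y y' : ℝ → ℝ} {L z1 z2 : ℝ}

lemma mE_cont (v : ℝ) : Continuous (mE v) :=
  continuous_iff_continuousAt.2 fun x => (mE_deriv v x).continuousAt

lemma Xh_cont (hx : AC x x') (hy : AC y y') : Continuous (Xh v w x x' y L) :=
  continuous_const.add ((Rg.cmul (e_AC (v := v) (w := w) hx hy).cont hx.rg).prim L).cont

lemma Jl_AC (hx : AC x x') (hy : AC y y') :
    AC (Jl v w x x' y) (fun s => (Real.exp (-(v * x s)) * mE w (y s)) * x' s) := by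
  have hc : Continuous (fun s => Real.exp (-(v * x s)) * mE w (y s)) :=
    (Real.continuous_exp.comp (hx.cont.const_mul v).neg).mul ((mE_cont w).comp hy.cont)
  exact (Rg.cmul hc hx.rg).prim 0

lemma F_eq (s : ℝ) : F v w x x' y L z1 s = z1 - Xh v w x x' y L s := by
  simp only [F, Xh]; ring

lemma k_eq (hx : AC x x') (hy : AC y y') (hx0 : x 0 = 0) (s : ℝ) :
    k v w x x' y z2 s = z2 * mE v (x s) - Jl v w x x' y s := by
  have h1 := (((hx.comp (mE_deriv v) (by fun_prop)).smul z2).sub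
    (Jl_AC (v := v) (w := w) hx hy)).sub (k_AC (v := v) (w := w) (z2 := z2) hx hy)
  have h2 := h1.eq 0 s
  have h3 : (fun s => z2 * (Real.exp (-(v * x s)) * x' s) -
      (Real.exp (-(v * x s)) * mE w (y s)) * x' s - kap v w x y z2 s * x' s) = fun _ => 0 := by
    funext s; simp only [kap]; ring
  rw [h3, intervalIntegral.integral_zero] at h2
  have h4 : z2 * mE v (x 0) - Jl v w x x' y 0 - k v w x x' y z2 0 = 0 := by
    simp [hx0, mE_zero, Jl, k]
  linarith

theorem Z_eq (hx : AC x x') (hy : AC y y') (hx0 : x 0 = 0) :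
    Z v w x x' y y' L z1 z2 = Zd v w x y y' L * z1 * z2 - z1 * Zn v w x x' y y' L
      - z2 * Zp v w x x' y y' L + Zm v w x x' y y' L := by
  have hei := ei_AC (v := v) (w := w) hx hy
  have hX := Xh_cont (v := v) (w := w) (L := L) hx hy
  have hJ := (Jl_AC (v := v) (w := w) hx hy).cont
  have hm : Continuous (fun s => mE v (x s)) := (mE_cont v).comp hx.cont
  have i1 : IntervalIntegrable (fun s => mE v (x s) / e v w x y s * y' s) volume 0 L := by
    simp only [div_eq_mul_inv]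
    exact (Rg.cmul2 hm hei.cont hy.rg).int 0 L
  have i2 : IntervalIntegrable (fun s => Jl v w x x' y s / e v w x y s * y' s) volume 0 L := by
    simp only [div_eq_mul_inv]
    exact (Rg.cmul2 hJ hei.cont hy.rg).int 0 L
  have i3 : IntervalIntegrable
      (fun s => Xh v w x x' y L s * mE v (x s) / e v w x y s * y' s) volume 0 L := by
    simp only [div_eq_mul_inv]
    exact (Rg.cmul2 (hX.mul hm) hei.cont hy.rg).int 0 L
  have i4 : IntervalIntegrable
      (fun s => Xh v w x x' y L s * Jl v w x x' y s / e v w x y s * y' s) volume 0 L := by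
    simp only [div_eq_mul_inv]
    exact (Rg.cmul2 (hX.mul hJ) hei.cont hy.rg).int 0 L
  have h1 : (∫ s in (0 : ℝ)..L, F v w x x' y L z1 s * k v w x x' y z2 s / e v w x y s * y' s) =
      ∫ s in (0 : ℝ)..L, (z1 * z2 * (mE v (x s) / e v w x y s * y' s)
        - z1 * (Jl v w x x' y s / e v w x y s * y' s)
        - z2 * (Xh v w x x' y L s * mE v (x s) / e v w x y s * y' s)
        + Xh v w x x' y L s * Jl v w x x' y s / e v w x y s * y' s) := by
    refine intervalIntegral.integral_congr fun s _ => ?_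
    simp only [F_eq, k_eq hx hy hx0]
    ring
  rw [Z, h1, intervalIntegral.integral_add (((i1.const_mul _).sub (i2.const_mul _)).sub
      (i3.const_mul _)) i4,
    intervalIntegral.integral_sub ((i1.const_mul _).sub (i2.const_mul _)) (i3.const_mul _),
    intervalIntegral.integral_sub (i1.const_mul _) (i2.const_mul _),
    intervalIntegral.integral_const_mul, intervalIntegral.integral_const_mul,
    intervalIntegral.integral_const_mul, Zd, Zn, Zp, Zm]
  ring

end

/-! ### abstract conditions at a local minimum of `h = P N / d - M` -/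

/-- bilinear form -/
def bil (d P N M z1 z2 : ℝ) : ℝ := d * z1 * z2 - z1 * N - z2 * P + M

section min
variable {d P N M : ℝ → ℝ} {d0 P0 N0 M0 : ℝ}

/-- `h = (P0 - P)(N0 - N)/(d0 - d) - (M0 - M)` -/
noncomputable def hh (d P N M : ℝ → ℝ) (d0 P0 N0 M0 t : ℝ) : ℝ :=
  (P0 - P t) * (N0 - N t) / (d0 - d t) - (M0 - M t)

lemma hh_deriv {d1 P1 N1 M1 t : ℝ} (hd : HasDerivAt d d1 t) (hP : HasDerivAt P P1 t)
    (hN : HasDerivAt N N1 t) (hM : HasDerivAt M M1 t) (hD : d0 - d t ≠ 0) :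
    HasDerivAt (hh d P N M d0 P0 N0 M0)
      (bil d1 P1 N1 M1 ((P0 - P t) / (d0 - d t)) ((N0 - N t) / (d0 - d t))) t := by
  have h := (((hP.const_sub P0).mul (hN.const_sub N0)).div (hd.const_sub d0) hD).sub
    (hM.const_sub M0)
  refine h.congr_deriv ?_
  simp only [bil, Pi.mul_apply]
  field_simp
  ring

/-- FIRST ORDER: at a local minimum of `h`, `Z'(C) = 0`. -/
theorem first_order {d1 P1 N1 M1 t : ℝ} (hd : HasDerivAt d d1 t) (hP : HasDerivAt P P1 t)
    (hN : HasDerivAt N N1 t) (hM : HasDerivAt M M1 t) (hD : d0 - d t ≠ 0)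
    (hmin : IsLocalMin (hh d P N M d0 P0 N0 M0) t) :
    bil d1 P1 N1 M1 ((P0 - P t) / (d0 - d t)) ((N0 - N t) / (d0 - d t)) = 0 :=
  hmin.hasDerivAt_eq_zero (hh_deriv hd hP hN hM hD)

/-- second derivative test, necessary condition -/
lemma second_nonneg {f f1 : ℝ → ℝ} {f2 t : ℝ} (hf : ∀ᶠ s in 𝓝 t, HasDerivAt f (f1 s) s)
    (hf1 : HasDerivAt f1 f2 t) (hmin : IsLocalMin f t) : 0 ≤ f2 := by
  by_contra hneg
  push Not at hneg
  have h0 : f1 t = 0 := hmin.hasDerivAt_eq_zero hf.self_of_nhds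
  have h1 := hf1.isLittleO
  rw [Asymptotics.isLittleO_iff] at h1
  have h2 := h1 (show 0 < -f2 / 2 by linarith)
  have h3 : ∀ᶠ s in 𝓝 t, HasDerivAt f (f1 s) s ∧
      ‖f1 s - f1 t - (s - t) • f2‖ ≤ -f2 / 2 * ‖s - t‖ ∧ f t ≤ f s :=
    hf.and (h2.and hmin)
  obtain ⟨r, hr, hball⟩ := Metric.eventually_nhds_iff_ball.1 h3
  have hs : ∀ s ∈ Ioo t (t + r), f1 s < 0 := by
    intro s hs
    have h4 := (hball s (by rw [Metric.mem_ball, Real.dist_eq, abs_of_pos (by linarith [hs.1])];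
                            linarith [hs.2])).2.1
    rw [h0, sub_zero, smul_eq_mul, Real.norm_eq_abs, Real.norm_eq_abs,
      abs_of_pos (show 0 < s - t by linarith [hs.1])] at h4
    have h5 := (abs_le.1 h4).2
    nlinarith [hs.1]
  have hcont : ∀ s ∈ Icc t (t + r / 2), ContinuousWithinAt f (Icc t (t + r / 2)) s := by
    intro s hs
    refine (hball s ?_).1.continuousAt.continuousWithinAt
    rw [Metric.mem_ball, Real.dist_eq, abs_of_nonneg (by linarith [hs.1])]
    linarith [hs.2]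
  obtain ⟨c, hc, hc2⟩ := exists_hasDerivAt_eq_slope f f1 (show t < t + r / 2 by linarith)
    hcont (fun s hs => (hball s (by
      rw [Metric.mem_ball, Real.dist_eq, abs_of_pos (by linarith [hs.1])]; linarith [hs.2])).1)
  have h6 := hs c ⟨hc.1, by linarith [hc.2]⟩
  have h7 := (hball (t + r / 2) (by
    rw [Metric.mem_ball, Real.dist_eq, abs_of_pos (by linarith)]; linarith)).2.2
  rw [hc2] at h6
  have h8 : t + r / 2 - t = r / 2 := by ring
  rw [h8] at h6
  have h9 : 0 ≤ (f (t + r / 2) - f t) / (r / 2) := div_nonneg (by linarith) (by linarith)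
  linarith

/-- SECOND ORDER: `Z''(C) + 2 D C_x' C_y' ≥ 0`. -/
theorem second_order {d1 P1 N1 M1 : ℝ → ℝ} {d2 P2 N2 M2 t : ℝ}
    (hd : ∀ᶠ s in 𝓝 t, HasDerivAt d (d1 s) s) (hP : ∀ᶠ s in 𝓝 t, HasDerivAt P (P1 s) s)
    (hN : ∀ᶠ s in 𝓝 t, HasDerivAt N (N1 s) s) (hM : ∀ᶠ s in 𝓝 t, HasDerivAt M (M1 s) s)
    (hd1 : HasDerivAt d1 d2 t) (hP1 : HasDerivAt P1 P2 t)
    (hN1 : HasDerivAt N1 N2 t) (hM1 : HasDerivAt M1 M2 t) (hD : d0 - d t ≠ 0)
    (hmin : IsLocalMin (hh d P N M d0 P0 N0 M0) t) :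
    0 ≤ bil d2 P2 N2 M2 ((P0 - P t) / (d0 - d t)) ((N0 - N t) / (d0 - d t)) +
      2 * (d1 t * ((P0 - P t) / (d0 - d t)) - P1 t) * (d1 t * ((N0 - N t) / (d0 - d t)) - N1 t) /
        (d0 - d t) := by
  have hdt := hd.self_of_nhds
  have hPt := hP.self_of_nhds
  have hNt := hN.self_of_nhds
  have hDe : ∀ᶠ s in 𝓝 t, d0 - d s ≠ 0 :=
    (hdt.continuousAt.const_sub d0).eventually_ne hD |>.mono fun s hs => by simpa using hs
  refine second_nonneg (f := hh d P N M d0 P0 N0 M0)
    (f1 := fun s => bil (d1 s) (P1 s) (N1 s) (M1 s) ((P0 - P s) / (d0 - d s))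
      ((N0 - N s) / (d0 - d s))) ?_ ?_ hmin
  · filter_upwards [hd, hP, hN, hM, hDe] with s a1 a2 a3 a4 a5
    exact hh_deriv a1 a2 a3 a4 a5
  · have hC := (hPt.const_sub P0).div (hdt.const_sub d0) hD
    have hE := (hNt.const_sub N0).div (hdt.const_sub d0) hD
    have h := ((((hd1.mul hC).mul hE).sub (hC.mul hN1)).sub (hE.mul hP1)).add hM1
    refine h.congr_deriv ?_
    simp only [bil, Pi.div_apply, Pi.mul_apply]
    field_simp
    ring

end min

end Pool.Agent.Work.MP_b5407d_pos_h9.FV
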