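import Pool.Agent.Work.MP_b5407d_pos_helper9.PathInfra
import Pool.Agent.Work.MP_b5407d_gt.Edge2

/-! Moments of the exponential weight on an edge, and the relation with `PsiE`, `OmE`, `Om1E`. -/

set_option autoImplicit false

open MeasureTheory Set Filter Topology

namespace Pool.Agent.Work.MP_b5407d_pos_h9.FV

open Pool.Agent.MPb5407d

/-- `∫_0^1 e^(-x(2s-1)) (2s-1)^n ds` -/
noncomputable def J (n : ℕ) (x : ℝ) : ℝ :=
  ∫ s in (0 : ℝ)..1, Real.exp (-(x * (2 * s - 1))) * (2 * s - 1) ^ n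

lemma J_deriv (n : ℕ) (x : ℝ) : HasDerivAt (J n) (-J (n + 1) x) x := by
  have h : C1t (fun t s => Real.exp (-(t * (2 * s - 1))))
      (fun t s => -(2 * s - 1) * Real.exp (-(t * (2 * s - 1)))) := by
    have h1 := ((C1t.id.mul (C1t.ofs (c := fun s => 2 * s - 1) (by fun_prop))).neg).comp
      (p := Real.exp) (p' := Real.exp) Real.hasDerivAt_exp Real.continuous_exp
    exact h1.congr fun t s => by ring
  have hg : Rg (fun s : ℝ => (2 * s - 1) ^ n) := Rg.of_cont (by fun_prop)
  have h2 := leib h hg 0 1 x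
  refine h2.congr_deriv ?_
  rw [J, ← intervalIntegral.integral_neg]
  refine intervalIntegral.integral_congr fun u _ => ?_
  ring

lemma J_cont (n : ℕ) : Continuous (J n) :=
  continuous_iff_continuousAt.2 fun x => (J_deriv n x).continuousAt

lemma J_rec_zero (x : ℝ) : x * J 0 x = Real.sinh x := by
  have h : ∀ s ∈ uIcc (0 : ℝ) 1, HasDerivAt (fun s => -(1 / 2) * Real.exp (-(x * (2 * s - 1))))
      (x * (Real.exp (-(x * (2 * s - 1))) * (2 * s - 1) ^ 0)) s := by
    intro s _
    have h1 : HasDerivAt (fun s : ℝ => -(x * (2 * s - 1))) (-(x * (2 * 1))) s :=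
      ((((hasDerivAt_id s).const_mul 2).sub_const 1).const_mul x).neg
    exact (h1.exp.const_mul (-(1 / 2))).congr_deriv (by ring)
  have h2 := intervalIntegral.integral_eq_sub_of_hasDerivAt h
    (Continuous.intervalIntegrable (by fun_prop) _ _)
  rw [intervalIntegral.integral_const_mul] at h2
  rw [J, h2, Real.sinh_eq]
  have e1 : -(x * (2 * (1 : ℝ) - 1)) = -x := by ring
  have e2 : -(x * (2 * (0 : ℝ) - 1)) = x := by ring
  rw [e1, e2]; ring

lemma J_rec (n : ℕ) (x : ℝ) : x * J (n + 1) x = (n + 1) * J n x -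
    (Real.exp (-x) - (-1) ^ (n + 1) * Real.exp x) / 2 := by
  have h : ∀ s ∈ uIcc (0 : ℝ) 1, HasDerivAt
      (fun s => -(1 / 2) * (Real.exp (-(x * (2 * s - 1))) * (2 * s - 1) ^ (n + 1)))
      (x * (Real.exp (-(x * (2 * s - 1))) * (2 * s - 1) ^ (n + 1)) -
        (n + 1) * (Real.exp (-(x * (2 * s - 1))) * (2 * s - 1) ^ n)) s := by
    intro s _
    have h1 : HasDerivAt (fun s : ℝ => -(x * (2 * s - 1))) (-(x * (2 * 1))) s :=
      ((((hasDerivAt_id s).const_mul 2).sub_const 1).const_mul x).neg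
    have h2 : HasDerivAt (fun s : ℝ => (2 * s - 1)) (2 * 1) s :=
      (((hasDerivAt_id s).const_mul 2).sub_const 1)
    have h3 := h2.fun_pow (n + 1)
    refine ((h1.exp.mul h3).const_mul (-(1 / 2))).congr_deriv ?_
    push_cast
    ring
  have h2 := intervalIntegral.integral_eq_sub_of_hasDerivAt h
    (Continuous.intervalIntegrable (by fun_prop) _ _)
  rw [intervalIntegral.integral_sub (Continuous.intervalIntegrable (by fun_prop) _ _)
    (Continuous.intervalIntegrable (by fun_prop) _ _),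
    intervalIntegral.integral_const_mul, intervalIntegral.integral_const_mul] at h2
  have e1 : -(x * (2 * (1 : ℝ) - 1)) = -x := by ring
  have e2 : -(x * (2 * (0 : ℝ) - 1)) = x := by ring
  have e3 : (2 * (1 : ℝ) - 1) = 1 := by norm_num
  have e4 : (2 * (0 : ℝ) - 1) = -1 := by norm_num
  rw [e1, e2, e3, e4, one_pow] at h2
  simp only [J]
  linarith

lemma J1_rec (x : ℝ) : x * J 1 x = J 0 x - Real.cosh x := by
  have h := J_rec 0 x
  rw [Real.cosh_eq]; norm_num at h ⊢; linarith

lemma J2_rec (x : ℝ) : x * J 2 x = 2 * J 1 x + Real.sinh x := by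
  have h := J_rec 1 x
  rw [Real.sinh_eq]; norm_num at h ⊢; linarith

lemma J3_rec (x : ℝ) : x * J 3 x = 3 * J 2 x - Real.cosh x := by
  have h := J_rec 2 x
  rw [Real.cosh_eq]; norm_num at h ⊢; linarith

lemma J4_rec (x : ℝ) : x * J 4 x = 4 * J 3 x + Real.sinh x := by
  have h := J_rec 3 x
  rw [Real.sinh_eq]; norm_num at h ⊢; linarith

lemma J0_zero : J 0 0 = 1 := by
  have := J1_rec 0; rw [Real.cosh_zero] at this; linarith

lemma J2_zero : J 2 0 = 1 / 3 := by
  have := J3_rec 0; rw [Real.cosh_zero] at this; linarith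

lemma J4_zero : J 4 0 = 1 / 5 := by
  have h := J_rec 4 0
  norm_num at h; linarith

lemma J1_zero : J 1 0 = 0 := by
  have := J2_rec 0; rw [Real.sinh_zero] at this; linarith

lemma J3_zero : J 3 0 = 0 := by
  have := J4_rec 0; rw [Real.sinh_zero] at this; linarith

/-- `(x cosh x - sinh x)/x^3` -/
noncomputable def g0 (x : ℝ) : ℝ := (J 0 x - J 2 x) / 2
noncomputable def g1 (x : ℝ) : ℝ := (J 3 x - J 1 x) / 2
noncomputable def g2 (x : ℝ) : ℝ := (J 2 x - J 4 x) / 2

lemma g0_deriv (x : ℝ) : HasDerivAt g0 (g1 x) x :=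
  (((J_deriv 0 x).sub (J_deriv 2 x)).div_const 2).congr_deriv (by simp only [g1]; ring)

lemma g1_deriv (x : ℝ) : HasDerivAt g1 (g2 x) x :=
  (((J_deriv 3 x).sub (J_deriv 1 x)).div_const 2).congr_deriv (by simp only [g2]; ring)

lemma x_g0 (x : ℝ) : x * g0 x = -J 1 x := by
  have h1 := J_rec_zero x
  have h2 := J2_rec x
  simp only [g0]; linarith

lemma x_g1 (x : ℝ) : x * g1 x = J 0 x - 3 * g0 x := by
  have h1 := J1_rec x
  have h2 := J3_rec x
  simp only [g0, g1]; linarith

lemma x_g2 (x : ℝ) : x * g2 x = x * g0 x - 4 * g1 x := by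
  have h1 := J_rec_zero x
  have h2 := J2_rec x
  have h3 := J4_rec x
  simp only [g0, g1, g2]; linarith

lemma J0_pos (x : ℝ) : 0 < J 0 x := by
  refine intervalIntegral.intervalIntegral_pos_of_pos_on
    (Continuous.intervalIntegrable (by fun_prop) _ _) (fun s _ => ?_) one_pos
  positivity

lemma g0_pos (x : ℝ) : 0 < g0 x := by
  have h : J 0 x - J 2 x = ∫ s in (0 : ℝ)..1, Real.exp (-(x * (2 * s - 1))) * (4 * s * (1 - s)) := by
    rw [J, J, ← intervalIntegral.integral_sub (Continuous.intervalIntegrable (by fun_prop) _ _)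
      (Continuous.intervalIntegrable (by fun_prop) _ _)]
    refine intervalIntegral.integral_congr fun s _ => ?_
    ring
  have h2 : 0 < ∫ s in (0 : ℝ)..1, Real.exp (-(x * (2 * s - 1))) * (4 * s * (1 - s)) := by
    refine intervalIntegral.intervalIntegral_pos_of_pos_on
      (Continuous.intervalIntegrable (by fun_prop) _ _) (fun s hs => ?_) one_pos
    have h1 : 0 < 1 - s := by linarith [hs.2]
    have h2 := hs.1
    positivity
  rw [g0, h]; linarith

/-- `PsiE` in terms of the moments. -/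
lemma Psi_g (η : ℝ) : PsiE η * J 0 (η / 2) = g0 (η / 2) / 2 := by
  by_cases h : η = 0
  · subst h
    simp [PsiE, g0, J0_zero, J2_zero]; norm_num
  · have h1 := PsiE_exp h
    have h2 := J_rec_zero (η / 2)
    have h3 := J1_rec (η / 2)
    have h4 := x_g0 (η / 2)
    have hx : η / 2 ≠ 0 := by simpa using h
    have hE : Real.exp (-η) = Real.exp (-(η / 2)) ^ 2 := by
      rw [← Real.exp_nat_mul]; ring_nf
    have hi : Real.exp (η / 2) * Real.exp (-(η / 2)) = 1 := by rw [← Real.exp_add]; simp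
    rw [hE] at h1
    rw [Real.sinh_eq] at h2
    rw [Real.cosh_eq] at h3
    set p := Real.exp (-(η / 2)) with hp
    set q := Real.exp (η / 2) with hq
    have hpp : 0 < p := Real.exp_pos _
    have hqp : 0 < q := Real.exp_pos _
    -- multiply by x^3 * 4 * ... 
    have h5 : η ^ 2 * p * (PsiE η * J 0 (η / 2) - g0 (η / 2) / 2) * η = 0 := by
      have e1 : η * J 0 (η / 2) = q - p := by linarith
      have e2 : η * J 1 (η / 2) = 2 * J 0 (η / 2) - (q + p) := by linarith
      have e3 : η * g0 (η / 2) = -2 * J 1 (η / 2) := by linarith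
      have e4 : PsiE η * (η ^ 2 * (p * (q - p))) = η * (1 + p ^ 2) - 2 * (1 - p ^ 2) := by
        have : p * (q - p) = 1 - p ^ 2 := by linear_combination hi
        rw [this]; exact h1
      have e5 : η ^ 2 * p * (PsiE η * J 0 (η / 2) - g0 (η / 2) / 2) * η =
          PsiE η * (η ^ 2 * (p * (η * J 0 (η / 2)))) - η ^ 2 * p * (η * g0 (η / 2)) / 2 := by ring
      rw [e5, e3, e1, e4]
      have e6 : η ^ 2 * p * (-2 * J 1 (η / 2)) / 2 = -(η * p * (η * J 1 (η / 2))) := by ring
      rw [e6, e2]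
      have e7 : -(η * p * (2 * J 0 (η / 2) - (q + p))) =
          -(2 * p * (η * J 0 (η / 2))) + η * p * (q + p) := by ring
      rw [e7, e1]
      linear_combination (2 - η) * hi
    have h6 : η ^ 2 * p ≠ 0 := by positivity
    rcases mul_eq_zero.1 h5 with h7 | h7
    · rcases mul_eq_zero.1 h7 with h8 | h8
      · exact absurd h8 h6
      · linarith
    · exact absurd h7 h

/-- `Om1E` in terms of `OmE`. -/
lemma Om1E_eq (η : ℝ) : Om1E η = 1 / 2 - 5 * OmE η - η ^ 2 / 2 * OmE η ^ 2 := by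
  by_cases h : η = 0
  · subst h; simp [Om1E, OmE]; norm_num
  · have h1 := sq_OmE h
    have h2 := sq_Om1E h
    have hx : (|η| / 2) ^ 2 = η ^ 2 / 4 := by rw [div_pow, sq_abs]; norm_num
    rw [hx] at h2
    have h3 : vt (|η| / 2) = η ^ 2 * OmE η / 2 + 3 := by linarith
    rw [h3] at h2
    have h4 : η ^ 2 ≠ 0 := by positivity
    apply mul_left_cancel₀ h4
    rw [h2]; ring

/-- `g' = 2 x g ω` -/
lemma g1_Om (η : ℝ) : g1 (η / 2) = η * g0 (η / 2) * OmE η := by
  by_cases h : η = 0
  · subst h; simp [g1, J1_zero, J3_zero]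
  · have hP := Psi_g η
    have h0 := J0_pos (η / 2)
    have hg := g0_pos (η / 2)
    have h1 := LamE_PsiE η h
    have h2 := x_g1 (η / 2)
    have hψ := PsiE_pos η
    unfold LamE at h1
    -- J0 = g/(2ψ)
    have h3 : J 0 (η / 2) = g0 (η / 2) / (2 * PsiE η) := by
      field_simp; linarith
    rw [h3] at h2
    have h4 : η * (g1 (η / 2) - η * g0 (η / 2) * OmE η) = 0 := by
      have e1 : η * g1 (η / 2) = g0 (η / 2) / PsiE η - 6 * g0 (η / 2) := by
        field_simp at h2 ⊢; linarith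
      have e2 : η ^ 2 * OmE η * PsiE η = 1 - 6 * PsiE η := by
        have : (1 - η ^ 2 * (PsiE η - OmE η) / 2) * PsiE η =
          PsiE η - η ^ 2 * PsiE η ^ 2 / 2 + η ^ 2 * OmE η * PsiE η / 2 := by ring
        rw [this] at h1; linarith
      have e3 : η ^ 2 * OmE η = 1 / PsiE η - 6 := by field_simp; linarith
      have e4 : η * (g1 (η / 2) - η * g0 (η / 2) * OmE η) =
        η * g1 (η / 2) - g0 (η / 2) * (η ^ 2 * OmE η) := by ring
      rw [e4, e1, e3]; ring
    rcases mul_eq_zero.1 h4 with h5 | h5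
    · exact absurd h5 h
    · linarith

/-- `g'' = g (1 - 8 ω)` -/
lemma g2_Om (η : ℝ) : g2 (η / 2) = g0 (η / 2) * (1 - 8 * OmE η) := by
  by_cases h : η = 0
  · subst h; simp [g2, g0, J0_zero, J2_zero, J4_zero, OmE]; norm_num
  · have h1 := x_g2 (η / 2)
    rw [g1_Om] at h1
    have hx : η / 2 ≠ 0 := by simpa using h
    apply mul_left_cancel₀ hx
    rw [h1]; ring

end Pool.Agent.Work.MP_b5407d_pos_h9.FV
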