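import Pool.Agent.Work.MP_b5407d_pos_helper9.FirstVar
import Pool.Agent.Work.MP_b5407d_pos_helper9.Moments

/-! The functionals of a near chain with one edge. -/

set_option autoImplicit false

open MeasureTheory Set Filter Topology

namespace Pool.Agent.Work.MP_b5407d_pos_h9.FV

open Pool.Agent.MPb5407d

lemma J_neg (n : ℕ) (x : ℝ) : J n (-x) = (-1) ^ n * J n x := by
  have h := intervalIntegral.integral_comp_sub_left (a := 0) (b := 1)
    (fun s : ℝ => Real.exp (-(-x * (2 * s - 1))) * (2 * s - 1) ^ n) (1 : ℝ)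
  simp only [sub_self, sub_zero] at h
  rw [J, ← h, J, ← intervalIntegral.integral_const_mul]
  refine intervalIntegral.integral_congr fun s _ => ?_
  have e1 : (2 * (1 - s) - 1) = -1 * (2 * s - 1) := by ring
  simp only [e1, mul_pow]
  ring_nf

lemma int_kE (c η : ℝ) : ∫ u in (0 : ℝ)..c, Real.exp (-(η * u)) = c * kE (η * c) := by
  by_cases h : η = 0
  · subst h; simp [kE]
  · rw [mul_kE c η h]
    have h1 : ∀ s ∈ uIcc (0 : ℝ) c, HasDerivAt (fun s => -(Real.exp (-(η * s))) / η)
        (Real.exp (-(η * s))) s := by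
      intro s _
      have h2 : HasDerivAt (fun s : ℝ => -(η * s)) (-(η * 1)) s :=
        ((hasDerivAt_id s).const_mul η).neg
      refine ((h2.exp.neg).div_const η).congr_deriv ?_
      field_simp
    rw [intervalIntegral.integral_eq_sub_of_hasDerivAt h1
      (Continuous.intervalIntegrable (by fun_prop) _ _)]
    simp only [mul_zero, neg_zero, Real.exp_zero]
    ring

section one
variable (v w a b z1 z2 : ℝ)

/-- the edge -/
def ex1 (a : ℝ) : ℝ → ℝ := fun s => a * s
def ey1 (b : ℝ) : ℝ → ℝ := fun s => b * (1 - s)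

lemma ex1_AC : AC (ex1 a) (fun _ => a) :=
  ⟨by unfold ex1; fun_prop, fun s _ => ((hasDerivAt_id s).const_mul a).congr_deriv (mul_one a),
    Rg.of_cont continuous_const⟩

lemma ey1_AC : AC (ey1 b) (fun _ => -b) :=
  ⟨by unfold ey1; fun_prop,
    fun s _ => (((hasDerivAt_id s).const_sub 1).const_mul b).congr_deriv (by ring),
    Rg.of_cont continuous_const⟩

/-- the weight on the edge -/
lemma e_one (s : ℝ) : e v w (ex1 a) (ey1 b) s =
    Real.exp (-((v * a + w * b) / 2)) *
      Real.exp (-((v * a - w * b) / 2 * (2 * s - 1))) := by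
  rw [e, ← Real.exp_add, ex1, ey1]; congr 1; ring

lemma e_ratio (s u : ℝ) : e v w (ex1 a) (ey1 b) u =
    e v w (ex1 a) (ey1 b) s * Real.exp (-((v * a - w * b) * (u - s))) := by
  rw [e, e, ← Real.exp_add]; congr 1; simp only [ex1, ey1]; ring

lemma F_one (s : ℝ) : F v w (ex1 a) (fun _ => a) (ey1 b) 1 z1 s / e v w (ex1 a) (ey1 b) s =
    eP a (v * a - w * b) ((z1 - mE v a) * Real.exp (v * a)) s := by
  have he := (e_pos v w (ex1 a) (ey1 b) s).ne'
  have h1 : (∫ u in (1 : ℝ)..s, e v w (ex1 a) (ey1 b) u * a) =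
      -(e v w (ex1 a) (ey1 b) s * (a * ((1 - s) * kE ((v * a - w * b) * (1 - s))))) := by
    rw [← int_kE, intervalIntegral.integral_symm]
    have h2 := intervalIntegral.integral_comp_sub_right (a := s) (b := 1)
      (fun u : ℝ => Real.exp (-((v * a - w * b) * u))) s
    simp only [sub_self] at h2
    rw [← h2, ← intervalIntegral.integral_const_mul, ← intervalIntegral.integral_const_mul]
    congr 1
    refine intervalIntegral.integral_congr fun u _ => ?_
    rw [e_ratio v w a b s u]; ring
  have h3 : (z1 - mE v a) = (z1 - mE v a) * Real.exp (v * a) *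
      (e v w (ex1 a) (ey1 b) s * Real.exp (-((v * a - w * b) * (1 - s)))) := by
    rw [← e_ratio, mul_assoc, e, ← Real.exp_add]
    have : v * a + (-(v * ex1 a 1) - w * ey1 b 1) = 0 := by simp only [ex1, ey1]; ring
    rw [this]; simp
  rw [F, h1, eP]
  have e4 : ex1 a 1 = a := by simp [ex1]
  rw [e4]
  rw [div_eq_iff he]
  rw [add_mul]
  linear_combination h3

lemma G_one (s : ℝ) : G v w (ex1 a) (ey1 b) (fun _ => -b) z2 s / e v w (ex1 a) (ey1 b) s =
    eR b (v * a - w * b) ((z2 - mE w b) * Real.exp (w * b)) s := by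
  have he := (e_pos v w (ex1 a) (ey1 b) s).ne'
  have h1 : (∫ u in (0 : ℝ)..s, e v w (ex1 a) (ey1 b) u * -b) =
      -(e v w (ex1 a) (ey1 b) s * (b * (s * kE (-(v * a - w * b) * s)))) := by
    rw [← int_kE]
    have h2 := intervalIntegral.integral_comp_sub_left (a := 0) (b := s)
      (fun u : ℝ => Real.exp (-(-(v * a - w * b) * u))) s
    simp only [sub_self, sub_zero] at h2
    rw [← h2, ← intervalIntegral.integral_const_mul, ← intervalIntegral.integral_const_mul,
      ← intervalIntegral.integral_neg]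
    refine intervalIntegral.integral_congr fun u _ => ?_
    rw [e_ratio v w a b s u]
    have : -((v * a - w * b) * (u - s)) = -(-(v * a - w * b) * (s - u)) := by ring
    rw [this]; ring
  have h3 : (z2 - mE w b) = (z2 - mE w b) * Real.exp (w * b) *
      (e v w (ex1 a) (ey1 b) s * Real.exp ((v * a - w * b) * s)) := by
    have h4 := e_ratio v w a b s 0
    have h5 : (v * a - w * b) * s = -((v * a - w * b) * (0 - s)) := by ring
    rw [h5, ← h4, mul_assoc, e, ← Real.exp_add]
    have : w * b + (-(v * ex1 a 0) - w * ey1 b 0) = 0 := by simp only [ex1, ey1]; ring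
    rw [this]; simp
  rw [G, h1, eR]
  have e4 : ey1 b 0 = b := by simp [ey1]
  have e5 : -(v * a - w * b) * s = -((v * a - w * b) * s) := by ring
  rw [e4, e5, div_eq_iff he, add_mul]
  linear_combination h3

lemma phi_one' (s : ℝ) : phi v w (ex1 a) (fun _ => a) (ey1 b) (fun _ => -b) 1 z1 z2 s =
    ePhi a b (v * a - w * b) ((z1 - mE v a) * Real.exp (v * a))
      ((z2 - mE w b) * Real.exp (w * b)) 0 0 s := by
  have he := (e_pos v w (ex1 a) (ey1 b) s).ne'
  rw [phi, ePhi]
  simp only [F_one, G_one]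
  rw [← F_one, ← G_one, intervalIntegral.integral_symm s 1, intervalIntegral.integral_mul_const,
    intervalIntegral.integral_mul_const]
  field_simp
  ring

end one

/-! ### the two moments of `φ` -/

section mom
variable {a b : ℝ} (η p r : ℝ)

lemma mom_ne (K L : ℝ) {η : ℝ} (h : η ≠ 0) (n : ℕ) :
    (∫ s in (0 : ℝ)..1, Real.exp (-(η / 2 * (2 * s - 1))) *
      ((K + (L * (1 - Real.exp (η * (2 * s - 1))) + η * (2 * s - 1)) / η ^ 2) * (2 * s - 1) ^ n)) =
    K * J n (η / 2) + (L * (J n (η / 2) - (-1) ^ n * J n (η / 2)) + η * J (n + 1) (η / 2)) /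
      η ^ 2 := by
  rw [← J_neg]
  have h1 : (∫ s in (0 : ℝ)..1, Real.exp (-(η / 2 * (2 * s - 1))) *
      ((K + (L * (1 - Real.exp (η * (2 * s - 1))) + η * (2 * s - 1)) / η ^ 2) * (2 * s - 1) ^ n)) =
      ∫ s in (0 : ℝ)..1, ((K + L / η ^ 2) *
        (Real.exp (-(η / 2 * (2 * s - 1))) * (2 * s - 1) ^ n)
        - L / η ^ 2 * (Real.exp (-(-(η / 2) * (2 * s - 1))) * (2 * s - 1) ^ n)
        + 1 / η * (Real.exp (-(η / 2 * (2 * s - 1))) * (2 * s - 1) ^ (n + 1))) := by
    refine intervalIntegral.integral_congr fun s _ => ?_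
    have e1 : Real.exp (-(-(η / 2) * (2 * s - 1))) =
        Real.exp (-(η / 2 * (2 * s - 1))) * Real.exp (η * (2 * s - 1)) := by
      rw [← Real.exp_add]; congr 1; ring
    simp only [e1]
    field_simp
    ring
  rw [h1, intervalIntegral.integral_add (Continuous.intervalIntegrable (by fun_prop) _ _)
    (Continuous.intervalIntegrable (by fun_prop) _ _),
    intervalIntegral.integral_sub (Continuous.intervalIntegrable (by fun_prop) _ _)
    (Continuous.intervalIntegrable (by fun_prop) _ _), intervalIntegral.integral_const_mul,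
    intervalIntegral.integral_const_mul, intervalIntegral.integral_const_mul]
  simp only [J]
  field_simp
  ring

/-- zeroth moment of `φ/(ab)` -/
lemma mom0 (ha : a ≠ 0) (hb : b ≠ 0) :
    (∫ s in (0 : ℝ)..1, Real.exp (-(η / 2 * (2 * s - 1))) * ePhi a b η p r 0 0 s) =
      a * b * (p / a * (r / b) * J 0 (η / 2) - g0 (η / 2) / 2) := by
  by_cases h : η = 0
  · subst h
    have h1 : ∀ s, ePhi a b 0 p r 0 0 s = a * b * ((p / a * (r / b))
      + (p / a - r / b) * (2 * s - 1) - (2 * s - 1) ^ 2 / 2) := fun s => by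
      rw [ePhi_zero ha hb]; ring
    have h2 : (∫ s in (0 : ℝ)..1, Real.exp (-((0 : ℝ) / 2 * (2 * s - 1))) *
        ePhi a b 0 p r 0 0 s) = ∫ s in (0 : ℝ)..1, (a * b * (p / a * (r / b)) *
          (Real.exp (-((0 : ℝ) * (2 * s - 1))) * (2 * s - 1) ^ 0) +
          a * b * (p / a - r / b) * (Real.exp (-((0 : ℝ) * (2 * s - 1))) * (2 * s - 1) ^ 1)
          - a * b / 2 * (Real.exp (-((0 : ℝ) * (2 * s - 1))) * (2 * s - 1) ^ 2)) := by
      refine intervalIntegral.integral_congr fun s _ => ?_
      simp only [h1, zero_div]; ring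
    rw [h2, intervalIntegral.integral_sub (Continuous.intervalIntegrable (by fun_prop) _ _)
      (Continuous.intervalIntegrable (by fun_prop) _ _), intervalIntegral.integral_add
      (Continuous.intervalIntegrable (by fun_prop) _ _)
      (Continuous.intervalIntegrable (by fun_prop) _ _), intervalIntegral.integral_const_mul,
      intervalIntegral.integral_const_mul, intervalIntegral.integral_const_mul]
    have h3 := J0_zero
    have h4 := J1_zero
    have h5 := J2_zero
    rw [zero_div, g0, h3, h5]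
    rw [J] at h3 h4 h5
    rw [h3, h4, h5]
    ring
  · have h1 : ∀ s, Real.exp (-(η / 2 * (2 * s - 1))) * ePhi a b η p r 0 0 s =
        a * b * (Real.exp (-(η / 2 * (2 * s - 1))) *
      ((p / a * (r / b) + ((1 - η * (p / a)) * (1 + η * (r / b)) *
        (1 - Real.exp (η * (2 * s - 1))) + η * (2 * s - 1)) / η ^ 2) * (2 * s - 1) ^ 0)) :=
      fun s => by rw [ePhi_ne ha hb h]; ring
    simp only [h1]
    rw [intervalIntegral.integral_const_mul, mom_ne _ _ h]
    have h2 := x_g0 (η / 2)
    have h3 : J 1 (η / 2) = -(η / 2 * g0 (η / 2)) := by linarith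
    rw [zero_add, h3]
    field_simp
    ring

/-- first moment of `φ/(ab)` -/
lemma mom1 (ha : a ≠ 0) (hb : b ≠ 0) :
    (∫ s in (0 : ℝ)..1, Real.exp (-(η / 2 * (2 * s - 1))) * (ePhi a b η p r 0 0 s * (2 * s - 1))) =
      a * b * (-(p / a * (r / b) * (η / 2) * g0 (η / 2)) -
        (r / b - p / a - η * (p / a * (r / b))) * g0 (η / 2) + g1 (η / 2) / 2) := by
  by_cases h : η = 0
  · subst h
    have h1 : ∀ s, ePhi a b 0 p r 0 0 s = a * b * ((p / a * (r / b))
      + (p / a - r / b) * (2 * s - 1) - (2 * s - 1) ^ 2 / 2) := fun s => by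
      rw [ePhi_zero ha hb]; ring
    have h2 : (∫ s in (0 : ℝ)..1, Real.exp (-((0 : ℝ) / 2 * (2 * s - 1))) *
        (ePhi a b 0 p r 0 0 s * (2 * s - 1))) = ∫ s in (0 : ℝ)..1, (a * b * (p / a * (r / b)) *
          (Real.exp (-((0 : ℝ) * (2 * s - 1))) * (2 * s - 1) ^ 1) +
          a * b * (p / a - r / b) * (Real.exp (-((0 : ℝ) * (2 * s - 1))) * (2 * s - 1) ^ 2)
          - a * b / 2 * (Real.exp (-((0 : ℝ) * (2 * s - 1))) * (2 * s - 1) ^ 3)) := by
      refine intervalIntegral.integral_congr fun s _ => ?_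
      simp only [h1, zero_div]; ring
    rw [h2, intervalIntegral.integral_sub (Continuous.intervalIntegrable (by fun_prop) _ _)
      (Continuous.intervalIntegrable (by fun_prop) _ _), intervalIntegral.integral_add
      (Continuous.intervalIntegrable (by fun_prop) _ _)
      (Continuous.intervalIntegrable (by fun_prop) _ _), intervalIntegral.integral_const_mul,
      intervalIntegral.integral_const_mul, intervalIntegral.integral_const_mul]
    have h3 := J0_zero
    have h4 := J1_zero
    have h5 := J2_zero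
    have h6 := J3_zero
    rw [zero_div, g0, g1, h3, h4, h5, h6]
    rw [J] at h4 h5 h6
    rw [h4, h5, h6]
    ring
  · have h1 : ∀ s, Real.exp (-(η / 2 * (2 * s - 1))) * (ePhi a b η p r 0 0 s * (2 * s - 1)) =
        a * b * (Real.exp (-(η / 2 * (2 * s - 1))) *
      ((p / a * (r / b) + ((1 - η * (p / a)) * (1 + η * (r / b)) *
        (1 - Real.exp (η * (2 * s - 1))) + η * (2 * s - 1)) / η ^ 2) * (2 * s - 1) ^ 1)) :=
      fun s => by rw [ePhi_ne ha hb h]; ring
    simp only [h1]
    rw [intervalIntegral.integral_const_mul, mom_ne _ _ h]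
    have h2 := x_g0 (η / 2)
    have h3 : J 1 (η / 2) = -(η / 2 * g0 (η / 2)) := by linarith
    have h4 := x_g1 (η / 2)
    have h5 : J 2 (η / 2) = g0 (η / 2) + η / 2 * g1 (η / 2) := by
      have : g0 (η / 2) = (J 0 (η / 2) - J 2 (η / 2)) / 2 := rfl
      linarith
    have h6 : (1 : ℕ) + 1 = 2 := rfl
    rw [h6, h3, h5]
    field_simp
    ring

end mom

end Pool.Agent.Work.MP_b5407d_pos_h9.FV
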