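import Pool.Agent.Work.MP_b5407d_lbm_helper20.PV
import Pool.Agent.Work.MP_b5407d_pos_helper9.OneEdge
import Pool.Agent.Work.MP_b5407d_pos_helper9.Decomp
import Pool.Agent.Work.MP_b5407d_gt.Chain2

/-! From a local minimum over near chains with `m` edges to `NearChain`. -/

set_option autoImplicit false

open MeasureTheory Set Filter Topology

namespace Pool.Agent.Work.MP_b5407d_pos_h9.FV

open Pool.Agent.MPb5407d
open Pool.LBM (pl dpl)

lemma pl_AC (a : ℕ → ℝ) : AC (pl a) (dpl a) := by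
  refine ⟨Pool.LBM.PV.pl_cont a, fun s hs => Pool.LBM.PV.pl_deriv a hs,
    ⟨Pool.LBM.PV.dpl_int a, fun s hs => ?_⟩⟩
  have h : ContinuousAt (fun _ : ℝ => dpl a s) s := continuousAt_const
  refine h.congr ?_
  filter_upwards [Pool.LBM.PV.floor_ev (t := s) hs] with u hu
  simp only [Pool.LBM.dpl, hu]

lemma pl_edge (a : ℕ → ℝ) (i : ℕ) {t : ℝ} (ht : t ∈ Icc (0 : ℝ) 1) :
    pl a (i + t) = a i + t * (a (i + 1) - a i) := by
  rw [Pool.LBM.PV.pl_Icc a i (s := i + t) ⟨by linarith [ht.1], by linarith [ht.2]⟩]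
  ring

lemma pl_lin (a al : ℕ → ℝ) (t : ℝ) : pl (fun k => a k + t * al k) =
    fun s => pl a s + t * pl al s := by
  funext s; simp only [Pool.LBM.pl]; ring

lemma dpl_lin (a al : ℕ → ℝ) (t : ℝ) : dpl (fun k => a k + t * al k) =
    fun s => dpl a s + t * dpl al s := by
  funext s; simp only [Pool.LBM.dpl]; ring

lemma dpl_edge (a : ℕ → ℝ) (i : ℕ) {t : ℝ} (ht : t ∈ Ico (0 : ℝ) 1) :
    dpl a (i + t) = a (i + 1) - a i := by
  have h : ⌊(i : ℝ) + t⌋₊ = i :=
    Nat.floor_eq_on_Ico i _ ⟨by linarith [ht.1], by linarith [ht.2]⟩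
  simp only [Pool.LBM.dpl, h]

lemma edge_int (f : ℝ → ℝ) (a : ℕ → ℝ) (i : ℕ) {s1 s2 : ℝ} (h1 : s1 ∈ Icc (0 : ℝ) 1)
    (h2 : s2 ∈ Icc (0 : ℝ) 1) :
    (∫ u in ((i : ℝ) + s1)..((i : ℝ) + s2), f u * dpl a u) =
      (a (i + 1) - a i) * ∫ u in s1..s2, f (i + u) := by
  rw [← intervalIntegral.integral_comp_add_left (fun u => f u * dpl a u) (i : ℝ),
    ← intervalIntegral.integral_const_mul]
  refine intervalIntegral.integral_congr_ae ?_
  have hne : ∀ᵐ u : ℝ, u ≠ 1 := by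
    rw [ae_iff]; simp
  filter_upwards [hne] with u hu huI
  have hu2 : u ∈ Icc (0 : ℝ) 1 := by
    have := uIoc_subset_uIcc huI
    exact (ordConnected_Icc.uIcc_subset h1 h2) this
  rw [dpl_edge a i ⟨hu2.1, lt_of_le_of_ne hu2.2 hu⟩]
  ring

section chain
variable (v w : ℝ) (X Y : ℕ → ℝ) (m : ℕ) (z1 z2 : ℝ)

/-- weight at a point of the chain -/
noncomputable def ce (s : ℝ) : ℝ := e v w (pl X) (pl Y) s
noncomputable def cF (s : ℝ) : ℝ := F v w (pl X) (dpl X) (pl Y) m z1 s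
noncomputable def cG (s : ℝ) : ℝ := G v w (pl X) (pl Y) (dpl Y) z2 s
noncomputable def cphi (s : ℝ) : ℝ := phi v w (pl X) (dpl X) (pl Y) (dpl Y) m z1 z2 s

/-- `p` at the vertices -/
noncomputable def cp (i : ℕ) : ℝ := cF v w X Y m z1 i / ce v w X Y i
/-- `r` at the vertices -/
noncomputable def cr' (i : ℕ) : ℝ := cG v w X Y z2 i / ce v w X Y i
/-- `A` at the vertices -/
noncomputable def cA (i : ℕ) : ℝ :=
  ∫ u in (0 : ℝ)..i, cG v w X Y z2 u / ce v w X Y u * dpl X u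
/-- `B` at the vertices -/
noncomputable def cB (i : ℕ) : ℝ :=
  ∫ u in (m : ℝ)..i, cF v w X Y m z1 u / ce v w X Y u * dpl Y u

end chain

section
variable {v w : ℝ} {X Y : ℕ → ℝ} {m : ℕ} {z1 z2 : ℝ}

lemma ce_ratio (i : ℕ) {s u : ℝ} (hs : s ∈ Icc (0 : ℝ) 1) (hu : u ∈ Icc (0 : ℝ) 1) :
    ce v w X Y (i + u) = ce v w X Y (i + s) *
      Real.exp (-((v * (X (i + 1) - X i) - w * (Y i - Y (i + 1))) * (u - s))) := by
  rw [ce, ce, e, e, ← Real.exp_add, pl_edge X i hs, pl_edge X i hu, pl_edge Y i hs, pl_edge Y i hu]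
  congr 1; ring

lemma ce_pos (s : ℝ) : 0 < ce v w X Y s := e_pos _ _ _ _ _

lemma int_kE_right (η s : ℝ) :
    (∫ u in s..(1 : ℝ), Real.exp (-(η * (u - s)))) = (1 - s) * kE (η * (1 - s)) := by
  rw [← int_kE]
  have h2 := intervalIntegral.integral_comp_sub_right (a := s) (b := 1)
      (fun u : ℝ => Real.exp (-(η * u))) s
  simp only [sub_self] at h2
  exact h2

lemma int_kE_left (η s : ℝ) :
    (∫ u in (0 : ℝ)..s, Real.exp (-(η * (u - s)))) = s * kE (-(η * s)) := by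
  have h3 : -(η * s) = -η * s := by ring
  rw [h3, ← int_kE]
  have h2 := intervalIntegral.integral_comp_sub_left (a := 0) (b := s)
      (fun u : ℝ => Real.exp (-(-η * u))) s
  simp only [sub_self, sub_zero] at h2
  rw [← h2]
  refine intervalIntegral.integral_congr fun u _ => ?_
  congr 1; ring

lemma cF_edge (i : ℕ) {s : ℝ} (hs : s ∈ Icc (0 : ℝ) 1) :
    cF v w X Y m z1 (i + s) / ce v w X Y (i + s) =
      eP (X (i + 1) - X i) (v * (X (i + 1) - X i) - w * (Y i - Y (i + 1)))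
        (cp v w X Y m z1 (i + 1)) s := by
  have h1 : (1 : ℝ) ∈ Icc (0 : ℝ) 1 := ⟨zero_le_one, le_rfl⟩
  have hF := (F_AC (v := v) (w := w) (L := m) (z1 := z1) (pl_AC X) (pl_AC Y)).eq (i + s) (i + 1)
  have h2 : (∫ u in ((i : ℝ) + s)..((i : ℝ) + 1), -(e v w (pl X) (pl Y) u * dpl X u)) =
      -((X (i + 1) - X i) * (ce v w X Y (i + s) * ((1 - s) *
        kE ((v * (X (i + 1) - X i) - w * (Y i - Y (i + 1))) * (1 - s))))) := by
    have h20 : (∫ u in s..(1 : ℝ), ce v w X Y (i + u)) = ce v w X Y (i + s) *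
        ∫ u in s..(1 : ℝ), Real.exp (-((v * (X (i + 1) - X i) - w * (Y i - Y (i + 1))) * (u - s))) := by
      rw [← intervalIntegral.integral_const_mul]
      refine intervalIntegral.integral_congr fun u hu => ?_
      exact ce_ratio i hs ((ordConnected_Icc.uIcc_subset hs h1) hu)
    rw [intervalIntegral.integral_neg, edge_int _ X i hs h1, ← int_kE_right, ← h20]
    rfl
  rw [h2] at hF
  have h3 := ce_ratio (v := v) (w := w) (X := X) (Y := Y) i hs h1
  have hp := ce_pos (v := v) (w := w) (X := X) (Y := Y) (i + s)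
  have hp1 := ce_pos (v := v) (w := w) (X := X) (Y := Y) (i + 1)
  have hcast : ((i + 1 : ℕ) : ℝ) = (i : ℝ) + 1 := by push_cast; ring
  have h4 : cp v w X Y m z1 (i + 1) * ce v w X Y (i + 1) = cF v w X Y m z1 (i + 1) := by
    rw [cp, hcast]; field_simp
  rw [div_eq_iff hp.ne', eP, add_mul]
  have h5 : cF v w X Y m z1 (i + s) = cF v w X Y m z1 (i + 1) +
      (X (i + 1) - X i) * (ce v w X Y (i + s) * ((1 - s) *
        kE ((v * (X (i + 1) - X i) - w * (Y i - Y (i + 1))) * (1 - s)))) := by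
    simp only [cF]; linarith
  rw [h5, ← h4, h3]
  ring

lemma cG_edge (i : ℕ) {s : ℝ} (hs : s ∈ Icc (0 : ℝ) 1) :
    cG v w X Y z2 (i + s) / ce v w X Y (i + s) =
      eR (Y i - Y (i + 1)) (v * (X (i + 1) - X i) - w * (Y i - Y (i + 1)))
        (cr' v w X Y z2 i) s := by
  have h1 : (0 : ℝ) ∈ Icc (0 : ℝ) 1 := ⟨le_rfl, zero_le_one⟩
  have hG := (G_AC (v := v) (w := w) (z2 := z2) (pl_AC X) (pl_AC Y)).eq (i + 0) (i + s)
  have h2 : (∫ u in ((i : ℝ) + 0)..((i : ℝ) + s), -(e v w (pl X) (pl Y) u * dpl Y u)) =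
      (Y i - Y (i + 1)) * (ce v w X Y (i + s) * (s *
        kE (-((v * (X (i + 1) - X i) - w * (Y i - Y (i + 1))) * s)))) := by
    have h20 : (∫ u in (0 : ℝ)..s, ce v w X Y (i + u)) = ce v w X Y (i + s) *
        ∫ u in (0 : ℝ)..s, Real.exp (-((v * (X (i + 1) - X i) - w * (Y i - Y (i + 1))) * (u - s))) := by
      rw [← intervalIntegral.integral_const_mul]
      refine intervalIntegral.integral_congr fun u hu => ?_
      exact ce_ratio i hs ((ordConnected_Icc.uIcc_subset h1 hs) hu)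
    rw [intervalIntegral.integral_neg, edge_int _ Y i h1 hs, ← int_kE_left, ← h20, ← neg_mul,
      neg_sub]
    rfl
  rw [h2, add_zero] at hG
  have h3 := ce_ratio (v := v) (w := w) (X := X) (Y := Y) i hs h1
  rw [add_zero] at h3
  have hp := ce_pos (v := v) (w := w) (X := X) (Y := Y) (i + s)
  have hp1 := ce_pos (v := v) (w := w) (X := X) (Y := Y) i
  have h4 : cr' v w X Y z2 i * ce v w X Y i = cG v w X Y z2 i := by
    rw [cr']; field_simp
  rw [div_eq_iff hp.ne', eR, add_mul]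
  have h5 : cG v w X Y z2 (i + s) = cG v w X Y z2 i +
      (Y i - Y (i + 1)) * (ce v w X Y (i + s) * (s *
        kE (-((v * (X (i + 1) - X i) - w * (Y i - Y (i + 1))) * s)))) := by
    simp only [cG]; linarith
  rw [h5, ← h4, h3]
  have h6 : -((v * (X (i + 1) - X i) - w * (Y i - Y (i + 1))) * (0 - s)) =
    (v * (X (i + 1) - X i) - w * (Y i - Y (i + 1))) * s := by ring
  rw [h6]
  ring

lemma cA_cont_int (a b : ℝ) : IntervalIntegrable
    (fun u => cG v w X Y z2 u / ce v w X Y u * dpl X u) volume a b := by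
  have hG := (G_AC (v := v) (w := w) (z2 := z2) (pl_AC X) (pl_AC Y)).cont
  have hei := (ei_AC (v := v) (w := w) (pl_AC X) (pl_AC Y)).cont
  simp only [div_eq_mul_inv]
  exact (Rg.cmul2 hG hei (pl_AC X).rg).int a b

lemma cB_cont_int (a b : ℝ) : IntervalIntegrable
    (fun u => cF v w X Y m z1 u / ce v w X Y u * dpl Y u) volume a b := by
  have hF := (F_AC (v := v) (w := w) (L := m) (z1 := z1) (pl_AC X) (pl_AC Y)).cont
  have hei := (ei_AC (v := v) (w := w) (pl_AC X) (pl_AC Y)).cont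
  simp only [div_eq_mul_inv]
  exact (Rg.cmul2 hF hei (pl_AC Y).rg).int a b

lemma cA_edge (i : ℕ) {s : ℝ} (hs : s ∈ Icc (0 : ℝ) 1) :
    (∫ u in (0 : ℝ)..(i + s), cG v w X Y z2 u / ce v w X Y u * dpl X u) =
      cA v w X Y z2 i + (X (i + 1) - X i) * ∫ u in (0 : ℝ)..s,
        eR (Y i - Y (i + 1)) (v * (X (i + 1) - X i) - w * (Y i - Y (i + 1)))
          (cr' v w X Y z2 i) u := by
  have h1 : (0 : ℝ) ∈ Icc (0 : ℝ) 1 := ⟨le_rfl, zero_le_one⟩
  rw [← intervalIntegral.integral_add_adjacent_intervals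
    (cA_cont_int (v := v) (w := w) (X := X) (Y := Y) (z2 := z2) 0 (i : ℝ)) (cA_cont_int _ _), cA]
  congr 1
  have h2 := edge_int (fun u => cG v w X Y z2 u / ce v w X Y u) X i h1 hs
  rw [add_zero] at h2
  rw [h2]
  congr 1
  refine intervalIntegral.integral_congr fun u hu => ?_
  exact cG_edge i ((ordConnected_Icc.uIcc_subset h1 hs) hu)

lemma cB_edge (i : ℕ) {s : ℝ} (hs : s ∈ Icc (0 : ℝ) 1) :
    (∫ u in (m : ℝ)..(i + s), cF v w X Y m z1 u / ce v w X Y u * dpl Y u) =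
      cB v w X Y m z1 (i + 1) + (Y i - Y (i + 1)) * ∫ u in s..(1 : ℝ),
        eP (X (i + 1) - X i) (v * (X (i + 1) - X i) - w * (Y i - Y (i + 1)))
          (cp v w X Y m z1 (i + 1)) u := by
  have h1 : (1 : ℝ) ∈ Icc (0 : ℝ) 1 := ⟨zero_le_one, le_rfl⟩
  have hcast : ((i + 1 : ℕ) : ℝ) = (i : ℝ) + 1 := by push_cast; ring
  have h0 := intervalIntegral.integral_add_adjacent_intervals
    (cB_cont_int (v := v) (w := w) (X := X) (Y := Y) (m := m) (z1 := z1) (m : ℝ) ((i : ℝ) + s))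
    (cB_cont_int _ ((i : ℝ) + 1))
  have h2 := edge_int (fun u => cF v w X Y m z1 u / ce v w X Y u) Y i hs h1
  have h3 : (∫ u in s..(1 : ℝ), cF v w X Y m z1 (i + u) / ce v w X Y (i + u)) =
      ∫ u in s..(1 : ℝ),
        eP (X (i + 1) - X i) (v * (X (i + 1) - X i) - w * (Y i - Y (i + 1)))
          (cp v w X Y m z1 (i + 1)) u := by
    refine intervalIntegral.integral_congr fun u hu => ?_
    exact cF_edge i ((ordConnected_Icc.uIcc_subset hs h1) hu)
  rw [h3] at h2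
  rw [cB, hcast, ← h0, h2]
  ring

lemma cphi_edge (i : ℕ) {s : ℝ} (hs : s ∈ Icc (0 : ℝ) 1) :
    cphi v w X Y m z1 z2 (i + s) = ePhi (X (i + 1) - X i) (Y i - Y (i + 1))
      (v * (X (i + 1) - X i) - w * (Y i - Y (i + 1))) (cp v w X Y m z1 (i + 1))
      (cr' v w X Y z2 i) (cA v w X Y z2 i) (cB v w X Y m z1 (i + 1)) s := by
  have hp := ce_pos (v := v) (w := w) (X := X) (Y := Y) (i + s)
  rw [ePhi, ← cF_edge i hs, ← cG_edge i hs, ← cA_edge i hs, ← cB_edge i hs]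
  simp only [cphi, phi, cF, cG, ce]
  have : (e v w (pl X) (pl Y) (↑i + s)) ≠ 0 := hp.ne'
  field_simp

end

end Pool.Agent.Work.MP_b5407d_pos_h9.FV
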