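import Pool.Agent.Work.MP_b5407d_pos_helper9.OneEdge
import Pool.Agent.Work.MP_b5407d_pos_helper9.Decomp

/-! Section 4: near chains with one edge, first and second order conditions. -/

set_option autoImplicit false

open MeasureTheory Set Filter Topology

namespace Pool.Agent.Work.MP_b5407d_pos_h9.FV

open Pool.Agent.MPb5407d

/-- value of `p = (z - m_v(a)) e^(v a)` at the end of the edge -/
noncomputable def pp (v a z : ℝ) : ℝ := (z - mE v a) * Real.exp (v * a)

/-- the functional for one edge -/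
noncomputable def ZZ (v w a b z1 z2 : ℝ) : ℝ :=
  Z v w (ex1 a) (fun _ => a) (ey1 b) (fun _ => -b) 1 z1 z2

noncomputable def zd (v w a b : ℝ) : ℝ := Zd v w (ex1 a) (ey1 b) (fun _ => -b) 1
noncomputable def zn (v w a b : ℝ) : ℝ := Zn v w (ex1 a) (fun _ => a) (ey1 b) (fun _ => -b) 1
noncomputable def zp (v w a b : ℝ) : ℝ := Zp v w (ex1 a) (fun _ => a) (ey1 b) (fun _ => -b) 1
noncomputable def zm (v w a b : ℝ) : ℝ := Zm v w (ex1 a) (fun _ => a) (ey1 b) (fun _ => -b) 1

lemma ZZ_eq (v w a b z1 z2 : ℝ) :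
    ZZ v w a b z1 z2 = bil (zd v w a b) (zp v w a b) (zn v w a b) (zm v w a b) z1 z2 := by
  rw [ZZ, Z_eq (ex1_AC a) (ey1_AC b) (by simp [ex1]), bil, zd, zp, zn, zm]

/-- zeroth moment -/
noncomputable def Q0 (u y x : ℝ) : ℝ := u * y * J 0 x - g0 x / 2
/-- first moment -/
noncomputable def Q1 (u y x : ℝ) : ℝ := (u * y * x - y + u) * g0 x + g1 x / 2

lemma int_affine {v w a b z1 z2 : ℝ} (ha : a ≠ 0) (hb : b ≠ 0) (c d : ℝ) :
    (∫ s in (0 : ℝ)..1, e v w (ex1 a) (ey1 b) s *
      phi v w (ex1 a) (fun _ => a) (ey1 b) (fun _ => -b) 1 z1 z2 s * (c + d * (2 * s - 1))) =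
    Real.exp (-((v * a + w * b) / 2)) * (a * b) *
      (c * Q0 (pp v a z1 / a) (pp w b z2 / b) ((v * a - w * b) / 2) +
        d * Q1 (pp v a z1 / a) (pp w b z2 / b) ((v * a - w * b) / 2)) := by
  have h0 := mom0 (v * a - w * b) (pp v a z1) (pp w b z2) ha hb
  have h1 := mom1 (v * a - w * b) (pp v a z1) (pp w b z2) ha hb
  have hcont : Continuous (fun s => ePhi a b (v * a - w * b) (pp v a z1) (pp w b z2) 0 0 s) := by
    have h2 := phi_cont (v := v) (w := w) (L := 1) (z1 := z1) (z2 := z2) (ex1_AC a) (ey1_AC b)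
    refine h2.congr fun s => ?_
    rw [phi_one']; rfl
  have h3 : (∫ s in (0 : ℝ)..1, e v w (ex1 a) (ey1 b) s *
      phi v w (ex1 a) (fun _ => a) (ey1 b) (fun _ => -b) 1 z1 z2 s * (c + d * (2 * s - 1))) =
      ∫ s in (0 : ℝ)..1, (Real.exp (-((v * a + w * b) / 2)) * c *
        (Real.exp (-((v * a - w * b) / 2 * (2 * s - 1))) *
          ePhi a b (v * a - w * b) (pp v a z1) (pp w b z2) 0 0 s) +
        Real.exp (-((v * a + w * b) / 2)) * d *
        (Real.exp (-((v * a - w * b) / 2 * (2 * s - 1))) *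
          (ePhi a b (v * a - w * b) (pp v a z1) (pp w b z2) 0 0 s * (2 * s - 1)))) := by
    refine intervalIntegral.integral_congr fun s _ => ?_
    simp only [phi_one', e_one, pp]
    ring
  rw [h3, intervalIntegral.integral_add (Continuous.intervalIntegrable (by fun_prop) _ _)
    (Continuous.intervalIntegrable (by fun_prop) _ _), intervalIntegral.integral_const_mul,
    intervalIntegral.integral_const_mul, h0, h1, Q0, Q1]
  ring

/-- derivative of the functional along a linear family of edges -/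
noncomputable def dZ (v w a b al be z1 z2 : ℝ) : ℝ :=
  Real.exp (-((v * a + w * b) / 2)) * (a * b) *
      ((be * a + al * b) / 2 * Q0 (pp v a z1 / a) (pp w b z2 / b) ((v * a - w * b) / 2) +
        (al * b - be * a) / 2 * Q1 (pp v a z1 / a) (pp w b z2 / b) ((v * a - w * b) / 2))

lemma ZZ_deriv {v w a b al be z1 z2 t : ℝ} (ha : a + t * al ≠ 0) (hb : b + t * be ≠ 0) :
    HasDerivAt (fun t => ZZ v w (a + t * al) (b + t * be) z1 z2)
      (dZ v w (a + t * al) (b + t * be) al be z1 z2) t := by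
  have h := firstVar_at (v := v) (w := w) (L := 1) (z1 := z1) (z2 := z2) (ex1_AC a) (ey1_AC b)
    (ex1_AC al) (ey1_AC be) (by simp [ex1]) (by simp [ey1]) (by simp [ex1]) (by simp [ey1]) t
  have e1 : ∀ t, (fun s => ex1 a s + t * ex1 al s) = ex1 (a + t * al) := fun t => by
    funext s; simp only [ex1]; ring
  have e2 : ∀ t, (fun s => ey1 b s + t * ey1 be s) = ey1 (b + t * be) := fun t => by
    funext s; simp only [ey1]; ring
  have e3 : ∀ t, (fun _ : ℝ => -b + t * -be) = fun _ : ℝ => -(b + t * be) := fun t => by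
    funext s; ring
  simp only [e1, e2, e3] at h
  refine h.congr_deriv ?_
  rw [dZ, ← int_affine ha hb]
  refine intervalIntegral.integral_congr fun s _ => ?_
  simp only [nu, ex1, ey1]
  ring

/-! ### derivative of the derivative along `(a(1+t), b(1-t))` at `t = 0` -/

lemma pp_deriv (v z a : ℝ) : HasDerivAt (fun a => pp v a z) (-1 + v * pp v a z) a := by
  have h1 : HasDerivAt (fun a => Real.exp (v * a)) (Real.exp (v * a) * (v * 1)) a :=
    ((hasDerivAt_id a).const_mul v).exp
  have h2 := ((mE_deriv v a).const_sub z).mul h1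
  refine h2.congr_deriv ?_
  have h3 : Real.exp (-(v * a)) * Real.exp (v * a) = 1 := by rw [← Real.exp_add]; simp
  simp only [pp]
  linear_combination -h3

/-- the second derivative -/
noncomputable def ddZ (v w a b z1 z2 : ℝ) : ℝ :=
  let u := pp v a z1 / a
  let y := pp w b z2 / b
  let x := (v * a - w * b) / 2
  let M := (v * a + w * b) / 2
  let u' := -1 + v * a * u - u
  let y' := 1 - w * b * y + y
  Real.exp (-M) * (a * b) ^ 2 *
    (((u' * y * x + u * y' * x + u * y * M - y' + u') * g0 x + (u * y * x - y + u) * (g1 x * M)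
      + g2 x * M / 2) - Q0 u y x - x * Q1 u y x)

lemma dZ_deriv {v w a b z1 z2 : ℝ} (ha : a ≠ 0) (hb : b ≠ 0) :
    HasDerivAt (fun t => dZ v w (a + t * a) (b + t * -b) a (-b) z1 z2)
      (ddZ v w a b z1 z2) 0 := by
  have hA : HasDerivAt (fun t => a + t * a) a 0 := by
    simpa using ((hasDerivAt_id (0 : ℝ)).mul_const a).const_add a
  have hB : HasDerivAt (fun t => b + t * -b) (-b) 0 := by
    simpa using ((hasDerivAt_id (0 : ℝ)).mul_const (-b)).const_add b
  have hM : HasDerivAt (fun t => (v * (a + t * a) + w * (b + t * -b)) / 2)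
      ((v * a - w * b) / 2) 0 :=
    (((hA.const_mul v).add (hB.const_mul w)).div_const 2).congr_deriv (by ring)
  have hX : HasDerivAt (fun t => (v * (a + t * a) - w * (b + t * -b)) / 2)
      ((v * a + w * b) / 2) 0 :=
    (((hA.const_mul v).sub (hB.const_mul w)).div_const 2).congr_deriv (by ring)
  have a0 : a + 0 * a = a := by ring
  have b0 : b + 0 * -b = b := by ring
  have ha' : a + 0 * a ≠ 0 := by rwa [a0]
  have hb' : b + 0 * -b ≠ 0 := by rwa [b0]
  have hu : HasDerivAt (fun t => pp v (a + t * a) z1 / (a + t * a))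
      (-1 + v * a * (pp v a z1 / a) - pp v a z1 / a) 0 := by
    have h1 := HasDerivAt.comp (h₂ := fun a => pp v a z1) (0 : ℝ) (pp_deriv v z1 (a + 0 * a)) hA
    refine (h1.div hA ha').congr_deriv ?_
    simp only [Function.comp, a0]
    field_simp
  have hy : HasDerivAt (fun t => pp w (b + t * -b) z2 / (b + t * -b))
      (1 - w * b * (pp w b z2 / b) + pp w b z2 / b) 0 := by
    have h1 := HasDerivAt.comp (h₂ := fun b => pp w b z2) (0 : ℝ) (pp_deriv w z2 (b + 0 * -b)) hB
    refine (h1.div hB hb').congr_deriv ?_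
    simp only [Function.comp, b0]
    field_simp
    ring
  have hg0 := HasDerivAt.comp (h₂ := g0) (0 : ℝ) (g0_deriv _) hX
  have hg1 := HasDerivAt.comp (h₂ := g1) (0 : ℝ) (g1_deriv _) hX
  have hJ0 := HasDerivAt.comp (h₂ := J 0) (0 : ℝ) (J_deriv 0 _) hX
  have hQ1 : HasDerivAt (fun t => Q1 (pp v (a + t * a) z1 / (a + t * a))
      (pp w (b + t * -b) z2 / (b + t * -b)) ((v * (a + t * a) - w * (b + t * -b)) / 2)) _ 0 :=
    ((((hu.mul hy).mul hX).sub hy).add hu |>.mul hg0).add (hg1.div_const 2)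
  have hQ0 : HasDerivAt (fun t => Q0 (pp v (a + t * a) z1 / (a + t * a))
      (pp w (b + t * -b) z2 / (b + t * -b)) ((v * (a + t * a) - w * (b + t * -b)) / 2)) _ 0 :=
    ((hu.mul hy).mul hJ0).sub (hg0.div_const 2)
  have hc1 : HasDerivAt (fun t => (-b * (a + t * a) + a * (b + t * -b)) / 2) (-(a * b)) 0 :=
    (((hA.const_mul (-b)).add (hB.const_mul a)).div_const 2).congr_deriv (by ring)
  have hc2 : HasDerivAt (fun t => (a * (b + t * -b) - -b * (a + t * a)) / 2) 0 0 :=
    (((hB.const_mul a).sub (hA.const_mul (-b))).div_const 2).congr_deriv (by ring)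
  have hAll := (hM.neg.exp.mul (hA.mul hB)).mul ((hc1.mul hQ0).add (hc2.mul hQ1))
  refine hAll.congr_deriv ?_
  simp only [Pi.mul_apply, Pi.sub_apply, Pi.add_apply, Pi.neg_apply, Function.comp, a0, b0, ddZ,
    Q0, Q1]
  ring

/-- value of the second derivative at a stationary point -/
lemma ddZ_stat {v w a b z1 z2 : ℝ} (hq : pp v a z1 / a * (pp w b z2 / b) = PsiE (v * a - w * b))
    (hdiff : pp w b z2 / b - pp v a z1 / a =
      (v * a - w * b) * (PsiE (v * a - w * b) + OmE (v * a - w * b)) / 2) :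
    ddZ v w a b z1 z2 = Real.exp (-((v * a + w * b) / 2)) * (a * b) ^ 2 *
      (g0 ((v * a - w * b) / 2) / 2 * Tf (v * a - w * b) ((v * a + w * b) / 2)
        (pp v a z1 / a + pp w b z2 / b)) := by
  have hP := Psi_g (v * a - w * b)
  have hg1 := g1_Om (v * a - w * b)
  have hg2 := g2_Om (v * a - w * b)
  have hO := Om1E_eq (v * a - w * b)
  simp only [ddZ, Q0, Q1, Tf]
  set u := pp v a z1 / a with hu
  set y := pp w b z2 / b with hy
  set η := v * a - w * b with hη
  set M := (v * a + w * b) / 2 with hM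
  have hva : v * a = M + η / 2 := by rw [hM, hη]; ring
  have hwb : w * b = M - η / 2 := by rw [hM, hη]; ring
  have hy2 : y = u + η * (PsiE η + OmE η) / 2 := by linarith
  rw [hg1, hg2, hva, hwb, hO]
  rw [← hq] at hP hy2 ⊢
  congr 1
  have e1 : u * y * J 0 (η / 2) = g0 (η / 2) / 2 := hP
  rw [e1]
  generalize g0 (η / 2) = g
  generalize OmE η = o at *
  linear_combination (g * (-(η / 2) - η * o * M)) * hy2

/-- coefficient of `z2` in `Z'` along `(a(1+t), b(1-t))`, at `t = 0` -/
lemma dZ_z2 (v w a b z1 : ℝ) (hb : b ≠ 0) :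
    dZ v w a b a (-b) z1 1 - dZ v w a b a (-b) z1 0 =
      Real.exp (-((v * a + w * b) / 2)) * (a * b) ^ 2 *
        (-(1 - (v * a - w * b) * (pp v a z1 / a) / 2) * g0 ((v * a - w * b) / 2)
          * (Real.exp (w * b) / b)) := by
  simp only [dZ, Q0, Q1, pp]
  field_simp
  ring

/-- coefficient of `z1` -/
lemma dZ_z1 (v w a b z2 : ℝ) (ha : a ≠ 0) :
    dZ v w a b a (-b) 1 z2 - dZ v w a b a (-b) 0 z2 =
      Real.exp (-((v * a + w * b) / 2)) * (a * b) ^ 2 *
        ((1 + (v * a - w * b) * (pp w b z2 / b) / 2) * g0 ((v * a - w * b) / 2)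
          * (Real.exp (v * a) / a)) := by
  simp only [dZ, Q0, Q1, pp]
  field_simp
  ring

/-- derivative of the four coefficient functions, from the derivative of `Z` for four values of
`z` -/
lemma coeff_deriv {d P N M : ℝ → ℝ} {D : ℝ → ℝ → ℝ} {t : ℝ}
    (h : ∀ z1 z2, HasDerivAt (fun t => bil (d t) (P t) (N t) (M t) z1 z2) (D z1 z2) t) :
    HasDerivAt d (D 1 1 - D 1 0 - D 0 1 + D 0 0) t ∧ HasDerivAt P (D 0 0 - D 0 1) t ∧
      HasDerivAt N (D 0 0 - D 1 0) t ∧ HasDerivAt M (D 0 0) t := by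
  have h00 := h 0 0
  have h01 := h 0 1
  have h10 := h 1 0
  have h11 := h 1 1
  refine ⟨?_, ?_, ?_, ?_⟩
  · refine (((h11.sub h10).sub h01).add h00).congr_of_eventuallyEq (Eventually.of_forall fun s => ?_)
    simp only [bil, Pi.add_apply, Pi.sub_apply]; ring
  · refine (h00.sub h01).congr_of_eventuallyEq (Eventually.of_forall fun s => ?_)
    simp only [bil, Pi.sub_apply]; ring
  · refine (h00.sub h10).congr_of_eventuallyEq (Eventually.of_forall fun s => ?_)
    simp only [bil, Pi.sub_apply]; ring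
  · refine h00.congr_of_eventuallyEq (Eventually.of_forall fun s => ?_)
    simp only [bil]; ring

/-- `dZ` is bilinear in `z` -/
lemma dZ_bil (v w a b al be z1 z2 : ℝ) :
    dZ v w a b al be z1 z2 =
      bil (dZ v w a b al be 1 1 - dZ v w a b al be 1 0 - dZ v w a b al be 0 1 +
        dZ v w a b al be 0 0) (dZ v w a b al be 0 0 - dZ v w a b al be 0 1)
        (dZ v w a b al be 0 0 - dZ v w a b al be 1 0) (dZ v w a b al be 0 0) z1 z2 := by
  simp only [dZ, bil, Q0, Q1, pp]
  ring

lemma ddZ_bil (v w a b z1 z2 : ℝ) :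
    ddZ v w a b z1 z2 =
      bil (ddZ v w a b 1 1 - ddZ v w a b 1 0 - ddZ v w a b 0 1 +
        ddZ v w a b 0 0) (ddZ v w a b 0 0 - ddZ v w a b 0 1)
        (ddZ v w a b 0 0 - ddZ v w a b 1 0) (ddZ v w a b 0 0) z1 z2 := by
  simp only [ddZ, bil, Q0, Q1, pp]
  ring

/-- the function to minimise -/
noncomputable def hone (v w d0 P0 N0 M0 a b : ℝ) : ℝ :=
  (P0 - zp v w a b) * (N0 - zn v w a b) / (d0 - zd v w a b) - (M0 - zm v w a b)

/-- SECTION 4, first order: at a local minimum over the chains with one edge -/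
theorem one_edge_first {v w a b d0 P0 N0 M0 : ℝ} (ha : 0 < a) (hb : 0 < b)
    (hD : d0 - zd v w a b ≠ 0)
    (hmin : ∀ al be : ℝ,
      IsLocalMin (fun t => hone v w d0 P0 N0 M0 (a + t * al) (b + t * be)) 0) :
    Q0 (pp v a ((P0 - zp v w a b) / (d0 - zd v w a b)) / a)
        (pp w b ((N0 - zn v w a b) / (d0 - zd v w a b)) / b) ((v * a - w * b) / 2) = 0 ∧
    Q1 (pp v a ((P0 - zp v w a b) / (d0 - zd v w a b)) / a)
        (pp w b ((N0 - zn v w a b) / (d0 - zd v w a b)) / b) ((v * a - w * b) / 2) = 0 := by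
  set Cx := (P0 - zp v w a b) / (d0 - zd v w a b) with hCx
  set Cy := (N0 - zn v w a b) / (d0 - zd v w a b) with hCy
  have key : ∀ al be : ℝ, dZ v w a b al be Cx Cy = 0 := by
    intro al be
    have h1 : ∀ z1 z2, HasDerivAt (fun t => bil (zd v w (a + t * al) (b + t * be))
        (zp v w (a + t * al) (b + t * be)) (zn v w (a + t * al) (b + t * be))
        (zm v w (a + t * al) (b + t * be)) z1 z2) (dZ v w a b al be z1 z2) 0 := by
      intro z1 z2
      have h2 := ZZ_deriv (v := v) (w := w) (a := a) (b := b) (al := al) (be := be)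
        (z1 := z1) (z2 := z2) (t := 0) (by simpa using ha.ne') (by simpa using hb.ne')
      simp only [zero_mul, add_zero, ZZ_eq] at h2
      exact h2
    obtain ⟨c1, c2, c3, c4⟩ := coeff_deriv (d := fun t => zd v w (a + t * al) (b + t * be))
      (P := fun t => zp v w (a + t * al) (b + t * be))
      (N := fun t => zn v w (a + t * al) (b + t * be))
      (M := fun t => zm v w (a + t * al) (b + t * be)) h1
    have h3 := first_order (d0 := d0) (P0 := P0) (N0 := N0) (M0 := M0) c1 c2 c3 c4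
      (by simpa using hD) (hmin al be)
    simp only [zero_mul, add_zero] at h3
    rw [← hCx, ← hCy, ← dZ_bil] at h3
    exact h3
  have k1 := key a 0
  have k2 := key 0 b
  simp only [dZ] at k1 k2
  have hpos : Real.exp (-((v * a + w * b) / 2)) * (a * b) ≠ 0 := by positivity
  have k1' := (mul_eq_zero.1 k1).resolve_left hpos
  have k2' := (mul_eq_zero.1 k2).resolve_left hpos
  have hab : a * b ≠ 0 := by positivity
  constructor
  · apply (mul_eq_zero.1 (?_ : a * b * _ = 0)).resolve_left hab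
    linear_combination k1' + k2'
  · apply (mul_eq_zero.1 (?_ : a * b * _ = 0)).resolve_left hab
    linear_combination k1' - k2'

/-- SECTION 4: first and second order conditions at a local minimum over the chains with one
edge. -/
theorem one_edge_min {v w a b d0 P0 N0 M0 : ℝ} (ha : 0 < a) (hb : 0 < b)
    (hD : 0 < d0 - zd v w a b)
    (hmin : ∀ al be : ℝ,
      IsLocalMin (fun t => hone v w d0 P0 N0 M0 (a + t * al) (b + t * be)) 0)
    {Cx Cy u y η M : ℝ} (hCx : Cx = (P0 - zp v w a b) / (d0 - zd v w a b))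
    (hCy : Cy = (N0 - zn v w a b) / (d0 - zd v w a b))
    (hu : u = pp v a Cx / a) (hy : y = pp w b Cy / b) (hη : η = v * a - w * b)
    (hM : M = (v * a + w * b) / 2) :
    u * y = PsiE η ∧ y - u = η * (PsiE η + OmE η) / 2 ∧ 0 ≤ Tf η M (u + y) := by
  obtain ⟨q0, q1⟩ := one_edge_first ha hb hD.ne' hmin
  rw [← hCx, ← hCy, ← hu, ← hy, ← hη] at q0 q1
  have hJ := J0_pos (η / 2)
  have hg := g0_pos (η / 2)
  have hP := Psi_g η
  have hg1 := g1_Om η
  have r1 : u * y = PsiE η := by
    have : (u * y - PsiE η) * J 0 (η / 2) = 0 := by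
      rw [Q0] at q0; linear_combination q0 - hP
    linarith [(mul_eq_zero.1 this).resolve_right hJ.ne']
  have r2 : y - u = η * (PsiE η + OmE η) / 2 := by
    have : (y - u - η * (PsiE η + OmE η) / 2) * g0 (η / 2) = 0 := by
      rw [Q1, hg1, r1] at q1; linear_combination -q1
    linarith [(mul_eq_zero.1 this).resolve_right hg.ne']
  refine ⟨r1, r2, ?_⟩
  -- second order
  have hev : ∀ᶠ t in 𝓝 (0 : ℝ), a + t * a ≠ 0 ∧ b + t * -b ≠ 0 := by
    have h1 : ∀ᶠ t in 𝓝 (0 : ℝ), t ∈ Ioo (-1 : ℝ) 1 := Ioo_mem_nhds (by norm_num) (by norm_num)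
    filter_upwards [h1] with t ht
    constructor
    · have : 0 < a + t * a := by nlinarith [ht.1]
      exact this.ne'
    · have : 0 < b + t * -b := by nlinarith [ht.2]
      exact this.ne'
  have h1 : ∀ᶠ t in 𝓝 (0 : ℝ), ∀ z1 z2, HasDerivAt (fun t => bil (zd v w (a + t * a) (b + t * -b))
        (zp v w (a + t * a) (b + t * -b)) (zn v w (a + t * a) (b + t * -b))
        (zm v w (a + t * a) (b + t * -b)) z1 z2)
        (dZ v w (a + t * a) (b + t * -b) a (-b) z1 z2) t := by
    filter_upwards [hev] with t ht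
    intro z1 z2
    have h2 := ZZ_deriv (v := v) (w := w) (a := a) (b := b) (al := a) (be := -b)
      (z1 := z1) (z2 := z2) (t := t) ht.1 ht.2
    simp only [ZZ_eq] at h2
    exact h2
  have hco := h1.mono fun t ht => coeff_deriv (d := fun t => zd v w (a + t * a) (b + t * -b))
      (P := fun t => zp v w (a + t * a) (b + t * -b))
      (N := fun t => zn v w (a + t * a) (b + t * -b))
      (M := fun t => zm v w (a + t * a) (b + t * -b)) ht
  have hdd := fun z1 z2 => dZ_deriv (v := v) (w := w) (z1 := z1) (z2 := z2) ha.ne' hb.ne'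
  have h2 := second_order (d0 := d0) (P0 := P0) (N0 := N0) (M0 := M0)
    (hco.mono fun t ht => ht.1) (hco.mono fun t ht => ht.2.1)
    (hco.mono fun t ht => ht.2.2.1) (hco.mono fun t ht => ht.2.2.2)
    ((((hdd 1 1).sub (hdd 1 0)).sub (hdd 0 1)).add (hdd 0 0))
    ((hdd 0 0).sub (hdd 0 1)) ((hdd 0 0).sub (hdd 1 0)) (hdd 0 0)
    (by simpa using hD.ne') (hmin a (-b))
  simp only [zero_mul, add_zero] at h2
  rw [← hCx, ← hCy, ← ddZ_bil] at h2
  have c1 := dZ_bil v w a b a (-b) Cx 1
  have c0 := dZ_bil v w a b a (-b) Cx 0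
  have c3 := dZ_bil v w a b a (-b) 1 Cy
  have c4 := dZ_bil v w a b a (-b) 0 Cy
  have d1 := dZ_z2 v w a b Cx hb.ne'
  have d2 := dZ_z1 v w a b Cy ha.ne'
  rw [← hu, ← hη, ← hM] at d1
  rw [← hy, ← hη, ← hM] at d2
  -- signs
  have hψ := PsiE_pos η
  have hω := OmE_pos η
  have hL := LamE_pos η
  have hprod : (1 - η * u) * (1 + η * y) = LamE η := by
    unfold LamE
    linear_combination η * r2 - η ^ 2 * r1
  have hsum : 0 < (1 - η * u) + (1 + η * y) := by
    have : (1 - η * u) + (1 + η * y) = 2 + η ^ 2 * (PsiE η + OmE η) / 2 := by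
      linear_combination η * r2
    rw [this]; positivity
  have hp1 : 0 < 1 - η * u := by
    by_contra hc
    push Not at hc
    have h5 : 0 < 1 + η * y := by linarith
    nlinarith
  have hp2 : 0 < 1 + η * y := by
    by_contra hc
    push Not at hc
    nlinarith
  set Dd := dZ v w a b a (-b) 1 1 - dZ v w a b a (-b) 1 0 - dZ v w a b a (-b) 0 1 +
    dZ v w a b a (-b) 0 0 with hDd
  set DP := dZ v w a b a (-b) 0 0 - dZ v w a b a (-b) 0 1 with hDP
  set DN := dZ v w a b a (-b) 0 0 - dZ v w a b a (-b) 1 0 with hDN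
  have s1 : Dd * Cx - DP = Real.exp (-M) * (a * b) ^ 2 *
        (-(1 - η * u / 2) * g0 (η / 2) * (Real.exp (w * b) / b)) := by
    rw [← d1, c1, c0, bil, bil]; ring
  have s2 : Dd * Cy - DN = Real.exp (-M) * (a * b) ^ 2 *
        ((1 + η * y / 2) * g0 (η / 2) * (Real.exp (v * a) / a)) := by
    rw [← d2, c3, c4, bil, bil]; ring
  have t1 : Dd * Cx - DP < 0 := by
    rw [s1]
    have : 0 < (1 - η * u / 2) := by linarith
    have : 0 < Real.exp (-M) * (a * b) ^ 2 *
      ((1 - η * u / 2) * g0 (η / 2) * (Real.exp (w * b) / b)) := by positivity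
    linarith
  have t2 : 0 < Dd * Cy - DN := by
    rw [s2]
    have : 0 < (1 + η * y / 2) := by linarith
    positivity
  have t3 : 2 * (Dd * Cx - DP) * (Dd * Cy - DN) / (d0 - zd v w a b) ≤ 0 := by
    apply div_nonpos_of_nonpos_of_nonneg _ hD.le
    nlinarith
  have t4 : 0 ≤ ddZ v w a b Cx Cy := by linarith
  have hst := ddZ_stat (v := v) (w := w) (a := a) (b := b) (z1 := Cx) (z2 := Cy)
    (by rw [← hu, ← hy, ← hη]; exact r1) (by rw [← hu, ← hy, ← hη]; exact r2)
  rw [← hu, ← hy, ← hη, ← hM] at hst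
  rw [hst] at t4
  have t5 : 0 < Real.exp (-M) * (a * b) ^ 2 * (g0 (η / 2) / 2) := by positivity
  by_contra hneg
  push Not at hneg
  have : Real.exp (-M) * (a * b) ^ 2 * (g0 (η / 2) / 2 * Tf η M (u + y)) =
    (Real.exp (-M) * (a * b) ^ 2 * (g0 (η / 2) / 2)) * Tf η M (u + y) := by ring
  rw [this] at t4
  nlinarith

end Pool.Agent.Work.MP_b5407d_pos_h9.FV
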