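import Pool.Agent.Work.MP_b5407d_pos_helper9.Bridge
import Pool.Agent.Work.MP_b5407d_pos_helper9.SecondVar

/-! First order conditions for near chains with `m` edges. -/

set_option autoImplicit false

open MeasureTheory Set Filter Topology

namespace Pool.Agent.Work.MP_b5407d_pos_h9.FV

open Pool.Agent.MPb5407d
open Pool.LBM (pl dpl)

section
variable (v w : ℝ) (X Y : ℕ → ℝ) (m : ℕ) (z1 z2 : ℝ)

/-- the functional for a chain -/
noncomputable def cZ : ℝ := Z v w (pl X) (dpl X) (pl Y) (dpl Y) m z1 z2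
noncomputable def cd : ℝ := Zd v w (pl X) (pl Y) (dpl Y) m
noncomputable def cn : ℝ := Zn v w (pl X) (dpl X) (pl Y) (dpl Y) m
noncomputable def cpp : ℝ := Zp v w (pl X) (dpl X) (pl Y) (dpl Y) m
noncomputable def cm : ℝ := Zm v w (pl X) (dpl X) (pl Y) (dpl Y) m

/-- the function to minimise -/
noncomputable def chh (d0 P0 N0 M0 : ℝ) : ℝ :=
  (P0 - cpp v w X Y m) * (N0 - cn v w X Y m) / (d0 - cd v w X Y m) - (M0 - cm v w X Y m)

/-- moments on the edge `k` -/
noncomputable def S0 (k : ℕ) : ℝ := ∫ t in (0 : ℝ)..1,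
  ce v w X Y (k + t) * cphi v w X Y m z1 z2 (k + t) * (1 - t)
noncomputable def S1 (k : ℕ) : ℝ := ∫ t in (0 : ℝ)..1,
  ce v w X Y (k + t) * cphi v w X Y m z1 z2 (k + t) * t

end

section
variable {v w : ℝ} {X Y : ℕ → ℝ} {m : ℕ} {z1 z2 : ℝ}

lemma cZ_eq (hX : X 0 = 0) : cZ v w X Y m z1 z2 =
    bil (cd v w X Y m) (cpp v w X Y m) (cn v w X Y m) (cm v w X Y m) z1 z2 := by
  have h0 : pl X 0 = 0 := by
    have := Pool.LBM.PV.pl_nat X 0
    rw [Nat.cast_zero] at this
    rw [this, hX]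
  rw [cZ, Z_eq (pl_AC X) (pl_AC Y) h0, bil, cd, cpp, cn, cm]

lemma ecphi_cont : Continuous (fun s => ce v w X Y s * cphi v w X Y m z1 z2 s) :=
  (e_AC (v := v) (w := w) (pl_AC X) (pl_AC Y)).cont.mul
    (phi_cont (v := v) (w := w) (L := m) (z1 := z1) (z2 := z2) (pl_AC X) (pl_AC Y))

lemma var_piece (al be : ℕ → ℝ) (k : ℕ) :
    (∫ s in (k : ℝ)..((k : ℝ) + 1), ce v w X Y s * cphi v w X Y m z1 z2 s *
      nu (dpl X) (dpl Y) (pl al) (pl be) s) =
    (be k * (X (k + 1) - X k) + al k * (Y k - Y (k + 1))) * S0 v w X Y m z1 z2 k +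
      (be (k + 1) * (X (k + 1) - X k) + al (k + 1) * (Y k - Y (k + 1))) *
        S1 v w X Y m z1 z2 k := by
  have h0 : (0 : ℝ) ∈ Icc (0 : ℝ) 1 := ⟨le_rfl, zero_le_one⟩
  have h1 : (1 : ℝ) ∈ Icc (0 : ℝ) 1 := ⟨zero_le_one, le_rfl⟩
  have hc := ecphi_cont (v := v) (w := w) (X := X) (Y := Y) (m := m) (z1 := z1) (z2 := z2)
  have e1 := edge_int (fun s => ce v w X Y s * cphi v w X Y m z1 z2 s * pl be s) X k h0 h1
  have e2 := edge_int (fun s => ce v w X Y s * cphi v w X Y m z1 z2 s * pl al s) Y k h0 h1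
  rw [add_zero] at e1 e2
  have i1 : IntervalIntegrable (fun s => ce v w X Y s * cphi v w X Y m z1 z2 s * pl be s * dpl X s)
      volume k (k + 1) := (Rg.cmul (hc.mul (pl_AC be).cont) (pl_AC X).rg).int _ _
  have i2 : IntervalIntegrable (fun s => ce v w X Y s * cphi v w X Y m z1 z2 s * pl al s * dpl Y s)
      volume k (k + 1) := (Rg.cmul (hc.mul (pl_AC al).cont) (pl_AC Y).rg).int _ _
  have h2 : (∫ s in (k : ℝ)..((k : ℝ) + 1), ce v w X Y s * cphi v w X Y m z1 z2 s *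
      nu (dpl X) (dpl Y) (pl al) (pl be) s) =
      (∫ s in (k : ℝ)..((k : ℝ) + 1), ce v w X Y s * cphi v w X Y m z1 z2 s * pl be s * dpl X s) -
      ∫ s in (k : ℝ)..((k : ℝ) + 1), ce v w X Y s * cphi v w X Y m z1 z2 s * pl al s * dpl Y s := by
    rw [← intervalIntegral.integral_sub i1 i2]
    refine intervalIntegral.integral_congr fun s _ => ?_
    simp only [nu]; ring
  have hck : Continuous (fun t : ℝ => ce v w X Y (k + t) * cphi v w X Y m z1 z2 (k + t)) :=
    hc.comp (continuous_const.add continuous_id)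
  have h3 : ∀ q : ℕ → ℝ, (∫ t in (0 : ℝ)..1, ce v w X Y (k + t) * cphi v w X Y m z1 z2 (k + t) *
      pl q (k + t)) = q k * S0 v w X Y m z1 z2 k + q (k + 1) * S1 v w X Y m z1 z2 k := by
    intro q
    have k1 : Continuous (fun t : ℝ => q k * (ce v w X Y (k + t) *
        cphi v w X Y m z1 z2 (k + t) * (1 - t))) :=
      continuous_const.mul (hck.mul (by fun_prop : Continuous (fun t : ℝ => 1 - t)))
    have k2 : Continuous (fun t : ℝ => q (k + 1) * (ce v w X Y (k + t) *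
        cphi v w X Y m z1 z2 (k + t) * t)) :=
      continuous_const.mul (hck.mul continuous_id)
    rw [S0, S1, ← intervalIntegral.integral_const_mul, ← intervalIntegral.integral_const_mul,
      ← intervalIntegral.integral_add (k1.intervalIntegrable _ _) (k2.intervalIntegrable _ _)]
    refine intervalIntegral.integral_congr fun t ht => ?_
    have ht2 : t ∈ Icc (0 : ℝ) 1 := by rwa [uIcc_of_le zero_le_one] at ht
    simp only [pl_edge q k ht2]
    ring
  rw [h2, e1, e2, h3, h3]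
  ring

lemma var_sum (al be : ℕ → ℝ) :
    (∫ s in (0 : ℝ)..m, ce v w X Y s * cphi v w X Y m z1 z2 s *
      nu (dpl X) (dpl Y) (pl al) (pl be) s) = ∑ k ∈ Finset.range m,
    ((be k * (X (k + 1) - X k) + al k * (Y k - Y (k + 1))) * S0 v w X Y m z1 z2 k +
      (be (k + 1) * (X (k + 1) - X k) + al (k + 1) * (Y k - Y (k + 1))) *
        S1 v w X Y m z1 z2 k) := by
  have hc := ecphi_cont (v := v) (w := w) (X := X) (Y := Y) (m := m) (z1 := z1) (z2 := z2)
  have hnu : Rg (nu (dpl X) (dpl Y) (pl al) (pl be)) :=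
    (Rg.cmul (pl_AC be).cont (pl_AC X).rg).sub (Rg.cmul (pl_AC al).cont (pl_AC Y).rg)
  have h := intervalIntegral.sum_integral_adjacent_intervals (μ := volume)
    (f := fun s => ce v w X Y s * cphi v w X Y m z1 z2 s *
      nu (dpl X) (dpl Y) (pl al) (pl be) s) (a := fun k : ℕ => (k : ℝ)) (n := m)
    (fun k _ => (Rg.cmul hc hnu).int _ _)
  rw [Nat.cast_zero] at h
  rw [← h]
  refine Finset.sum_congr rfl fun k _ => ?_
  rw [← var_piece]
  push_cast
  rfl

/-- FIRST VARIATION for chains. -/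
theorem cZ_deriv {al be : ℕ → ℝ} (hX : X 0 = 0) (hY : Y m = 0) (hal : al 0 = 0)
    (hbe : be m = 0) :
    HasDerivAt (fun t : ℝ => cZ v w (fun k => X k + t * al k) (fun k => Y k + t * be k) m z1 z2)
      (∑ k ∈ Finset.range m,
    ((be k * (X (k + 1) - X k) + al k * (Y k - Y (k + 1))) * S0 v w X Y m z1 z2 k +
      (be (k + 1) * (X (k + 1) - X k) + al (k + 1) * (Y k - Y (k + 1))) *
        S1 v w X Y m z1 z2 k)) 0 := by
  have hp : ∀ (q : ℕ → ℝ), pl q 0 = q 0 := fun q => by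
    have := Pool.LBM.PV.pl_nat q 0
    rwa [Nat.cast_zero] at this
  have h := firstVar (v := v) (w := w) (L := m) (z1 := z1) (z2 := z2) (pl_AC X) (pl_AC Y)
    (pl_AC al) (pl_AC be) (by rw [hp, hX]) (by rw [Pool.LBM.PV.pl_nat, hY])
    (by rw [hp, hal]) (by rw [Pool.LBM.PV.pl_nat, hbe])
  rw [← var_sum]
  simp only [cZ, pl_lin, dpl_lin]
  exact h

lemma bil_of_deriv {d P N M : ℝ → ℝ} {D : ℝ → ℝ → ℝ} {t : ℝ}
    (h : ∀ z1 z2, HasDerivAt (fun t => bil (d t) (P t) (N t) (M t) z1 z2) (D z1 z2) t)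
    (z1 z2 : ℝ) :
    D z1 z2 = bil (D 1 1 - D 1 0 - D 0 1 + D 0 0) (D 0 0 - D 0 1) (D 0 0 - D 1 0) (D 0 0) z1 z2 := by
  obtain ⟨c1, c2, c3, c4⟩ := coeff_deriv h
  have h2 : HasDerivAt (fun t => bil (d t) (P t) (N t) (M t) z1 z2)
      (bil (D 1 1 - D 1 0 - D 0 1 + D 0 0) (D 0 0 - D 0 1) (D 0 0 - D 1 0) (D 0 0) z1 z2) t := by
    have := ((((c1.mul_const z1).mul_const z2).sub (c3.const_mul z1)).sub (c2.const_mul z2)).add c4
    exact this
  exact (h z1 z2).unique h2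

/-- at a local minimum all the moments vanish -/
theorem sum_zero {d0 P0 N0 M0 : ℝ} {al be : ℕ → ℝ} (hX : X 0 = 0) (hY : Y m = 0)
    (hal : al 0 = 0) (hbe : be m = 0) (hD : d0 - cd v w X Y m ≠ 0)
    (hmin : IsLocalMin (fun t : ℝ =>
      chh v w (fun k => X k + t * al k) (fun k => Y k + t * be k) m d0 P0 N0 M0) 0)
    (h1 : z1 = (P0 - cpp v w X Y m) / (d0 - cd v w X Y m))
    (h2 : z2 = (N0 - cn v w X Y m) / (d0 - cd v w X Y m)) :
    ∑ k ∈ Finset.range m,
    ((be k * (X (k + 1) - X k) + al k * (Y k - Y (k + 1))) * S0 v w X Y m z1 z2 k +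
      (be (k + 1) * (X (k + 1) - X k) + al (k + 1) * (Y k - Y (k + 1))) *
        S1 v w X Y m z1 z2 k) = 0 := by
  have h3 : ∀ z1 z2, HasDerivAt (fun t : ℝ =>
      bil (cd v w (fun k => X k + t * al k) (fun k => Y k + t * be k) m)
        (cpp v w (fun k => X k + t * al k) (fun k => Y k + t * be k) m)
        (cn v w (fun k => X k + t * al k) (fun k => Y k + t * be k) m)
        (cm v w (fun k => X k + t * al k) (fun k => Y k + t * be k) m) z1 z2)
      (∑ k ∈ Finset.range m,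
    ((be k * (X (k + 1) - X k) + al k * (Y k - Y (k + 1))) * S0 v w X Y m z1 z2 k +
      (be (k + 1) * (X (k + 1) - X k) + al (k + 1) * (Y k - Y (k + 1))) *
        S1 v w X Y m z1 z2 k)) 0 := by
    intro z1 z2
    have h4 := cZ_deriv (v := v) (w := w) (z1 := z1) (z2 := z2) hX hY hal hbe
    refine h4.congr_of_eventuallyEq (Eventually.of_forall fun t => ?_)
    exact (cZ_eq (by simp [hX, hal])).symm
  obtain ⟨c1, c2, c3, c4⟩ := coeff_deriv (d := fun t : ℝ =>
    cd v w (fun k => X k + t * al k) (fun k => Y k + t * be k) m)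
    (P := fun t : ℝ => cpp v w (fun k => X k + t * al k) (fun k => Y k + t * be k) m)
    (N := fun t : ℝ => cn v w (fun k => X k + t * al k) (fun k => Y k + t * be k) m)
    (M := fun t : ℝ => cm v w (fun k => X k + t * al k) (fun k => Y k + t * be k) m)
    (D := fun z1 z2 => ∑ k ∈ Finset.range m,
    ((be k * (X (k + 1) - X k) + al k * (Y k - Y (k + 1))) * S0 v w X Y m z1 z2 k +
      (be (k + 1) * (X (k + 1) - X k) + al (k + 1) * (Y k - Y (k + 1))) *
        S1 v w X Y m z1 z2 k)) h3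
  have h5 := first_order (d0 := d0) (P0 := P0) (N0 := N0) (M0 := M0) c1 c2 c3 c4
    (by simpa using hD) hmin
  simp only [zero_mul, add_zero] at h5
  rw [← h1, ← h2] at h5
  have h6 := bil_of_deriv (D := fun z1 z2 => ∑ k ∈ Finset.range m,
    ((be k * (X (k + 1) - X k) + al k * (Y k - Y (k + 1))) * S0 v w X Y m z1 z2 k +
      (be (k + 1) * (X (k + 1) - X k) + al (k + 1) * (Y k - Y (k + 1))) *
        S1 v w X Y m z1 z2 k)) h3 z1 z2
  exact h6.trans h5

end

end Pool.Agent.Work.MP_b5407d_pos_h9.FV
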