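import Mathlib

set_option autoImplicit false

/-! Divided differences of the exponential function (for MP_b5407d_gt, tilted kites). -/

namespace Pool.Agent.Work.MP_b5407d_pos_h9

open MeasureTheory intervalIntegral

/-- `E x = (e^x - 1)/x`, extended by `E 0 = 1`. -/
noncomputable def E (x : ℝ) : ℝ := ∫ t in (0:ℝ)..1, Real.exp (x * t)

/-- The second divided difference `exp[0,a,b]`, that is, the mean of `exp` of a linear function
over a triangle with values `0, a, b` at its vertices, divided by two. -/
noncomputable def T (a b : ℝ) : ℝ :=
  ∫ u in (0:ℝ)..1, ∫ t in (0:ℝ)..1, u * Real.exp (u * ((1 - t) * a + t * b))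

theorem mul_E (x : ℝ) : x * E x = Real.exp x - 1 := by
  have h : ∫ t in (0:ℝ)..1, x * Real.exp (x * t) = Real.exp (x * 1) - Real.exp (x * 0) := by
    apply integral_eq_sub_of_hasDerivAt (f := fun t => Real.exp (x * t))
    · intro t _
      have h1 : HasDerivAt (fun t : ℝ => x * t) x t := by
        simpa using (hasDerivAt_id t).const_mul x
      have h2 := h1.exp
      simpa [mul_comm] using h2
    · exact (by fun_prop : Continuous fun t : ℝ => x * Real.exp (x * t)).intervalIntegrable _ _
  rw [E, ← intervalIntegral.integral_const_mul, h]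
  simp

theorem E_pos (x : ℝ) : 0 < E x := by
  rw [E]
  apply intervalIntegral_pos_of_pos_on
  · exact (by fun_prop : Continuous fun t : ℝ => Real.exp (x * t)).intervalIntegrable _ _
  · intro t _; exact Real.exp_pos _
  · norm_num

theorem E_zero : E 0 = 1 := by simp [E]

theorem E_of_ne {x : ℝ} (h : x ≠ 0) : E x = (Real.exp x - 1) / x := by
  rw [← mul_E]; field_simp

theorem continuous_E : Continuous E := by
  unfold E
  apply continuous_parametric_intervalIntegral_of_continuous
  · fun_prop
  · fun_prop

theorem continuous_T_right (a : ℝ) : Continuous (fun b => T a b) := by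
  unfold T
  apply continuous_parametric_intervalIntegral_of_continuous
  · have : Continuous fun p : ℝ × ℝ => ∫ t in (0:ℝ)..1,
        p.2 * Real.exp (p.2 * ((1 - t) * a + t * p.1)) := by
      apply continuous_parametric_intervalIntegral_of_continuous
      · fun_prop
      · fun_prop
    exact this
  · fun_prop

/-- `e^{-x} E x = E (-x)`. -/
theorem E_neg (x : ℝ) : E (-x) = Real.exp (-x) * E x := by
  by_cases h : x = 0
  · subst h; simp
  · rw [E_of_ne h, E_of_ne (neg_ne_zero.mpr h), Real.exp_neg]
    have := Real.exp_pos x
    field_simp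
    ring

theorem sub_mul_T (a b : ℝ) : (b - a) * T a b = E b - E a := by
  rw [T, ← intervalIntegral.integral_const_mul]
  have h1 : ∀ u : ℝ, (b - a) * ∫ t in (0:ℝ)..1, u * Real.exp (u * ((1 - t) * a + t * b))
      = Real.exp (b * u) - Real.exp (a * u) := by
    intro u
    rw [← intervalIntegral.integral_const_mul]
    have h2 : ∫ t in (0:ℝ)..1, (b - a) * (u * Real.exp (u * ((1 - t) * a + t * b)))
        = Real.exp (u * ((1 - 1) * a + 1 * b)) - Real.exp (u * ((1 - 0) * a + 0 * b)) := by
      apply integral_eq_sub_of_hasDerivAt (f := fun t => Real.exp (u * ((1 - t) * a + t * b)))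
      · intro t _
        have h3 : HasDerivAt (fun t : ℝ => u * ((1 - t) * a + t * b)) (u * (b - a)) t := by
          have h4 : HasDerivAt (fun t : ℝ => (1 - t) * a + t * b) ((-1) * a + 1 * b) t :=
            (((hasDerivAt_id t).const_sub 1).mul_const a).add ((hasDerivAt_id t).mul_const b)
          have h5 := h4.const_mul u
          have h6 : u * (-1 * a + 1 * b) = u * (b - a) := by ring
          rw [h6] at h5
          exact h5
        have h7 := h3.exp
        have h8 : Real.exp (u * ((1 - t) * a + t * b)) * (u * (b - a))
            = (b - a) * (u * Real.exp (u * ((1 - t) * a + t * b))) := by ring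
        rw [h8] at h7
        exact h7
      · exact (by fun_prop : Continuous fun t : ℝ =>
          (b - a) * (u * Real.exp (u * ((1 - t) * a + t * b)))).intervalIntegrable _ _
    rw [h2]
    congr 1
    · congr 1; ring
    · congr 1; ring
  simp_rw [h1]
  rw [intervalIntegral.integral_sub]
  · rfl
  · exact (by fun_prop : Continuous fun u : ℝ => Real.exp (b * u)).intervalIntegrable _ _
  · exact (by fun_prop : Continuous fun u : ℝ => Real.exp (a * u)).intervalIntegrable _ _

theorem T_of_ne {a b : ℝ} (h : a ≠ b) : T a b = (E b - E a) / (b - a) := by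
  rw [← sub_mul_T]
  have : b - a ≠ 0 := sub_ne_zero.mpr (Ne.symm h)
  field_simp

/-- `a T(a,b) = e^a E(b-a) - E b`. -/
theorem mul_T (a b : ℝ) : a * T a b = Real.exp a * E (b - a) - E b := by
  have hc1 : Continuous fun b => a * T a b := continuous_const.mul (continuous_T_right a)
  have hc2 : Continuous fun b => Real.exp a * E (b - a) - E b := by
    have := continuous_E
    fun_prop
  have hd : Dense {b : ℝ | b ≠ a} := by
    have := dense_compl_singleton a
    exact this
  have := Continuous.ext_on hd hc1 hc2 (by
    intro b hb
    have hne : b - a ≠ 0 := sub_ne_zero.mpr hb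
    have h1 := sub_mul_T a b
    have h2 := mul_E a
    have h3 := mul_E b
    have h4 := mul_E (b - a)
    have h5 : Real.exp a * Real.exp (b - a) = Real.exp b := by
      rw [← Real.exp_add]; congr 1; ring
    apply mul_left_cancel₀ hne
    show (b - a) * (a * T a b) = (b - a) * (Real.exp a * E (b - a) - E b)
    linear_combination a * h1 - h2 - Real.exp a * h4 + h3 - h5 )
  exact congrFun this b

end Pool.Agent.Work.MP_b5407d_pos_h9
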