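import Mathlib

set_option autoImplicit false

/-! Certificates for `∑ p_k(x) e^{k x} ≥ 0` on `x ≥ 0` (integer coefficients):
differentiate `n` times (values at `0` nonnegative), then a domination argument with Taylor
polynomials of degree `m` of the exponential. Everything is decided by the kernel. -/

namespace Pool.Agent.Work.MP_b5407d_pos_h9.EP

open Real

/-- value of the polynomial with coefficient list `p` (constant term first) -/
noncomputable def evalP : List ℤ → ℝ → ℝ
  | [], _ => 0
  | a :: p, x => (a : ℝ) + x * evalP p x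

def addP : List ℤ → List ℤ → List ℤ
  | [], q => q
  | p, [] => p
  | a :: p, b :: q => (a + b) :: addP p q

def smulP (c : ℤ) (p : List ℤ) : List ℤ := p.map (fun a => c * a)

def mulP : List ℤ → List ℤ → List ℤ
  | [], _ => []
  | a :: p, q => addP (smulP a q) (0 :: mulP p q)

/-- derivative of a polynomial -/
def derP : List ℤ → List ℤ
  | [] => []
  | _ :: p => addP p (0 :: derP p)

/-- `∑_{i ≤ m} (m!/i!) D^i x^i`, in Horner form -/
def taylor : ℕ → ℕ → List ℤ
  | 0, _ => [1]
  | m + 1, D => addP (smulP (m + 1 : ℕ) (taylor m D)) (List.replicate (m + 1) 0 ++ [((D ^ (m + 1) : ℕ) : ℤ)])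

def nonnegP (p : List ℤ) : Bool := p.all (fun a => decide (0 ≤ a))

/-- exponential polynomial: list of `(k, p_k)` -/
noncomputable def evalE : List (ℕ × List ℤ) → ℝ → ℝ
  | [], _ => 0
  | (k, p) :: f, x => evalP p x * exp (k * x) + evalE f x

noncomputable def evalT : List (ℕ × List ℤ) → ℝ → ℝ → ℝ
  | [], _, _ => 0
  | (k, p) :: f, x, t => evalP p x * t ^ k + evalT f x t

def smulE (c : ℤ) (f : List (ℕ × List ℤ)) : List (ℕ × List ℤ) := f.map (fun kp => (kp.1, smulP c kp.2))

def derE (f : List (ℕ × List ℤ)) : List (ℕ × List ℤ) :=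
  f.map (fun kp => (kp.1, addP (smulP kp.1 kp.2) (derP kp.2)))

def at0 : List (ℕ × List ℤ) → ℤ
  | [] => 0
  | (_, p) :: f => p.headD 0 + at0 f

/-- domination check for `c(x) e^{kx} + rest ≥ 0`, exponents of `rest` descending -/
def dom (m : ℕ) : ℕ → ℕ → List ℤ → List (ℕ × List ℤ) → Bool
  | _, _, c, [] => nonnegP c
  | 0, _, _, _ :: _ => false
  | fuel + 1, k, c, (k2, p) :: rest =>
      nonnegP c && decide (k2 ≤ k) &&
        dom m fuel k2 (addP (mulP c (taylor m (k - k2))) (smulP (m.factorial : ℕ) p))
          (smulE (m.factorial : ℕ) rest)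

def domE (m : ℕ) : List (ℕ × List ℤ) → Bool
  | [] => true
  | (k, c) :: rest => dom m rest.length k c rest

def cert (m : ℕ) : ℕ → List (ℕ × List ℤ) → Bool
  | 0, f => domE m f
  | n + 1, f => decide (0 ≤ at0 f) && cert m n (derE f)

theorem evalP_addP : ∀ (p q : List ℤ) (x : ℝ), evalP (addP p q) x = evalP p x + evalP q x
  | [], q, x => by simp [addP, evalP]
  | a :: p, [], x => by simp [addP, evalP]
  | a :: p, b :: q, x => by
      simp only [addP, evalP, evalP_addP p q x]
      push_cast; ring

theorem evalP_smulP (c : ℤ) : ∀ (p : List ℤ) (x : ℝ), evalP (smulP c p) x = c * evalP p x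
  | [], x => by simp [smulP, evalP]
  | a :: p, x => by
      have := evalP_smulP c p x
      simp only [smulP] at this
      simp only [smulP, List.map_cons, evalP, this]
      push_cast; ring

theorem evalP_mulP : ∀ (p q : List ℤ) (x : ℝ), evalP (mulP p q) x = evalP p x * evalP q x
  | [], q, x => by simp [mulP, evalP]
  | a :: p, q, x => by
      simp only [mulP, evalP_addP, evalP_smulP, evalP, evalP_mulP p q x]
      push_cast; ring

theorem hasDerivAt_evalP : ∀ (p : List ℤ) (x : ℝ), HasDerivAt (evalP p) (evalP (derP p) x) x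
  | [], x => by
      have : evalP ([] : List ℤ) = fun _ => (0:ℝ) := by funext y; rfl
      rw [this]
      simpa [derP, evalP] using hasDerivAt_const x (0:ℝ)
  | a :: p, x => by
      have h : evalP (a :: p) = fun y => (a:ℝ) + y * evalP p y := by funext y; rfl
      rw [h]
      have h1 := ((hasDerivAt_id x).mul (hasDerivAt_evalP p x)).const_add (a:ℝ)
      have h2 : evalP (derP (a :: p)) x = 1 * evalP p x + id x * evalP (derP p) x := by
        simp only [derP, evalP_addP, evalP, id]
        push_cast; ring
      rw [h2]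
      exact h1

theorem evalE_smulE (c : ℤ) : ∀ (f : List (ℕ × List ℤ)) (x : ℝ), evalE (smulE c f) x = c * evalE f x
  | [], x => by simp [smulE, evalE]
  | (k, p) :: f, x => by
      have := evalE_smulE c f x
      simp only [smulE] at this
      simp only [smulE, List.map_cons, evalE, this, evalP_smulP]
      ring

theorem hasDerivAt_evalE : ∀ (f : List (ℕ × List ℤ)) (x : ℝ),
    HasDerivAt (evalE f) (evalE (derE f) x) x
  | [], x => by
      have : evalE ([] : List (ℕ × List ℤ)) = fun _ => (0:ℝ) := by funext y; rfl
      rw [this]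
      simpa [derE, evalE] using hasDerivAt_const x (0:ℝ)
  | (k, p) :: f, x => by
      have h : evalE ((k, p) :: f) = fun y => evalP p y * exp (k * y) + evalE f y := by funext y; rfl
      rw [h]
      have h0 : HasDerivAt (fun y : ℝ => (k:ℝ) * y) (k:ℝ) x := by
        simpa using (hasDerivAt_id x).const_mul (k:ℝ)
      have h1 := ((hasDerivAt_evalP p x).mul h0.exp).add (hasDerivAt_evalE f x)
      have h2 : evalE (derE ((k, p) :: f)) x
          = (evalP (derP p) x * exp (k * x) + evalP p x * (exp (k * x) * k)) + evalE (derE f) x := by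
        simp only [derE, List.map_cons, evalE, evalP_addP, evalP_smulP]
        push_cast; ring
      rw [h2]
      exact h1

theorem evalE_zero : ∀ f : List (ℕ × List ℤ), evalE f 0 = at0 f
  | [] => by simp [evalE, at0]
  | (k, p) :: f => by
      have hp : evalP p 0 = (p.headD 0 : ℤ) := by
        cases p with
        | nil => simp [evalP]
        | cons a p => simp [evalP]
      simp only [evalE, at0, evalE_zero f, hp]
      simp

theorem evalP_nonneg : ∀ (p : List ℤ), nonnegP p = true → ∀ x : ℝ, 0 ≤ x → 0 ≤ evalP p x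
  | [], _, x, _ => by simp [evalP]
  | a :: p, h, x, hx => by
      simp only [nonnegP, List.all_cons, Bool.and_eq_true, decide_eq_true_eq] at h
      have := evalP_nonneg p h.2 x hx
      simp only [evalP]
      have h1 : (0:ℝ) ≤ (a:ℝ) := by exact_mod_cast h.1
      have h2 := mul_nonneg hx this
      linarith

theorem evalP_replicate (n : ℕ) (c : ℤ) (x : ℝ) :
    evalP (List.replicate n 0 ++ [c]) x = c * x ^ n := by
  induction n with
  | zero => simp [evalP]
  | succ n ih =>
      rw [List.replicate_succ, List.cons_append, evalP, ih]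
      push_cast; ring

theorem evalP_taylor (D : ℕ) (x : ℝ) : ∀ m : ℕ,
    evalP (taylor m D) x = (m.factorial : ℝ) * ∑ i ∈ Finset.range (m + 1), (D * x) ^ i / (i.factorial : ℝ)
  | 0 => by simp [taylor, evalP]
  | m + 1 => by
      rw [taylor, evalP_addP, evalP_smulP, evalP_taylor D x m, evalP_replicate,
        Finset.sum_range_succ _ (m + 1), mul_add]
      have h : ((m + 1).factorial : ℝ) = (m + 1 : ℝ) * (m.factorial : ℝ) := by
        rw [Nat.factorial_succ]; push_cast; ring
      have h' : (m.factorial : ℝ) ≠ 0 := by positivity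
      have h'' : ((m + 1).factorial : ℝ) ≠ 0 := by positivity
      have h3 : ((m + 1).factorial : ℝ) * ((D * x) ^ (m + 1) / ((m + 1).factorial : ℝ))
          = (D * x) ^ (m + 1) := by field_simp
      rw [h3, h]
      push_cast
      ring

theorem taylor_le (D m : ℕ) (x : ℝ) (hx : 0 ≤ x) :
    evalP (taylor m D) x ≤ (m.factorial : ℝ) * exp (D * x) := by
  rw [evalP_taylor]
  have := Real.sum_le_exp_of_nonneg (x := D * x) (by positivity) (m + 1)
  exact mul_le_mul_of_nonneg_left this (by positivity)

theorem dom_sound (m : ℕ) : ∀ (fuel k : ℕ) (c : List ℤ) (rest : List (ℕ × List ℤ)),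
    dom m fuel k c rest = true → ∀ x : ℝ, 0 ≤ x → 0 ≤ evalP c x * exp (k * x) + evalE rest x
  | _, k, c, [], h, x, hx => by
      simp only [evalE, add_zero]
      have : nonnegP c = true := by
        cases ‹ℕ› <;> simpa [dom] using h
      exact mul_nonneg (evalP_nonneg c this x hx) (exp_pos _).le
  | 0, k, c, _ :: _, h, x, hx => by simp [dom] at h
  | fuel + 1, k, c, (k2, p) :: rest, h, x, hx => by
      simp only [dom, Bool.and_eq_true, decide_eq_true_eq] at h
      obtain ⟨⟨h1, h2⟩, h3⟩ := h
      have ih := dom_sound m fuel k2 _ _ h3 x hx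
      rw [evalP_addP, evalP_mulP, evalP_smulP, evalE_smulE] at ih
      have hT := taylor_le (k - k2) m x hx
      have hc := evalP_nonneg c h1 x hx
      have hk : exp ((k:ℝ) * x) = exp (((k - k2 : ℕ) : ℝ) * x) * exp ((k2:ℝ) * x) := by
        rw [← exp_add]; congr 1
        rw [Nat.cast_sub h2]; ring
      have hf : (0:ℝ) < (m.factorial : ℝ) := by positivity
      simp only [evalE]
      have e2 := exp_pos ((k2:ℝ) * x)
      have key : evalP c x * evalP (taylor m (k - k2)) x * exp ((k2:ℝ) * x)
          ≤ (m.factorial : ℝ) * (evalP c x * exp ((k:ℝ) * x)) := by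
        rw [hk]
        have := mul_le_mul_of_nonneg_left hT hc
        nlinarith [mul_le_mul_of_nonneg_right this e2.le]
      have : 0 ≤ (m.factorial : ℝ) * (evalP c x * exp (k * x)
          + (evalP p x * exp (k2 * x) + evalE rest x)) := by
        push_cast at ih
        nlinarith [ih, key]
      exact nonneg_of_mul_nonneg_right this hf

theorem domE_sound (m : ℕ) (f : List (ℕ × List ℤ)) (h : domE m f = true) (x : ℝ) (hx : 0 ≤ x) :
    0 ≤ evalE f x := by
  cases f with
  | nil => simp [evalE]
  | cons kp rest =>
      obtain ⟨k, c⟩ := kp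
      exact dom_sound m _ k c rest h x hx

theorem cert_sound (m : ℕ) : ∀ (n : ℕ) (f : List (ℕ × List ℤ)), cert m n f = true →
    ∀ x : ℝ, 0 ≤ x → 0 ≤ evalE f x
  | 0, f, h, x, hx => domE_sound m f h x hx
  | n + 1, f, h, x, hx => by
      simp only [cert, Bool.and_eq_true, decide_eq_true_eq] at h
      have ih := cert_sound m n (derE f) h.2
      have h0 : 0 ≤ evalE f 0 := by rw [evalE_zero]; exact_mod_cast h.1
      have hmono : MonotoneOn (evalE f) (Set.Ici 0) := by
        apply monotoneOn_of_deriv_nonneg (convex_Ici 0)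
        · exact fun y _ => (hasDerivAt_evalE f y).continuousAt.continuousWithinAt
        · exact fun y _ => (hasDerivAt_evalE f y).differentiableAt.differentiableWithinAt
        · intro y hy
          rw [interior_Ici] at hy
          rw [(hasDerivAt_evalE f y).deriv]
          exact ih y (le_of_lt hy)
      exact h0.trans (hmono (Set.mem_Ici.mpr le_rfl) (Set.mem_Ici.mpr hx) hx)

theorem evalE_eq_evalT : ∀ (f : List (ℕ × List ℤ)) (x : ℝ), evalE f x = evalT f x (exp x)
  | [], x => rfl
  | (k, p) :: f, x => by
      rw [evalE, evalT, evalE_eq_evalT f x, exp_nat_mul]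

/-- the form used in applications -/
theorem cert_evalT (m n : ℕ) (f : List (ℕ × List ℤ)) (h : cert m n f = true) (x : ℝ) (hx : 0 ≤ x) :
    0 ≤ evalT f x (exp x) := by
  rw [← evalE_eq_evalT]; exact cert_sound m n f h x hx

/-- strict positivity of a polynomial at `x > 0` -/
def posP (p : List ℤ) : Bool := nonnegP p && p.any (fun a => decide (0 < a))

theorem evalP_pos : ∀ (p : List ℤ), posP p = true → ∀ x : ℝ, 0 < x → 0 < evalP p x
  | [], h, x, _ => by simp [posP] at h
  | a :: p, h, x, hx => by
      simp only [posP, nonnegP, List.all_cons, List.any_cons, Bool.and_eq_true, Bool.or_eq_true,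
        decide_eq_true_eq] at h
      obtain ⟨⟨h1, h2⟩, h3⟩ := h
      have hn := evalP_nonneg p (by simpa [nonnegP] using h2) x hx.le
      simp only [evalP]
      rcases h3 with h3 | h3
      · have : (0:ℝ) < (a:ℝ) := by exact_mod_cast h3
        have := mul_nonneg hx.le hn
        linarith
      · have hp : posP p = true := by
          simp only [posP, nonnegP, Bool.and_eq_true]
          exact ⟨by simpa using h2, by simpa using h3⟩
        have h4 := evalP_pos p hp x hx
        have h5 : (0:ℝ) ≤ (a:ℝ) := by exact_mod_cast h1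
        have := mul_pos hx h4
        linarith

/-- strict domination check -/
def domS (m : ℕ) : ℕ → ℕ → List ℤ → List (ℕ × List ℤ) → Bool
  | _, _, c, [] => posP c
  | 0, _, _, _ :: _ => false
  | fuel + 1, k, c, (k2, p) :: rest =>
      nonnegP c && decide (k2 ≤ k) &&
        domS m fuel k2 (addP (mulP c (taylor m (k - k2))) (smulP (m.factorial : ℕ) p))
          (smulE (m.factorial : ℕ) rest)

theorem domS_sound (m : ℕ) : ∀ (fuel k : ℕ) (c : List ℤ) (rest : List (ℕ × List ℤ)),
    domS m fuel k c rest = true → ∀ x : ℝ, 0 < x → 0 < evalP c x * exp (k * x) + evalE rest x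
  | _, k, c, [], h, x, hx => by
      simp only [evalE, add_zero]
      have : posP c = true := by
        cases ‹ℕ› <;> simpa [domS] using h
      exact mul_pos (evalP_pos c this x hx) (exp_pos _)
  | 0, k, c, _ :: _, h, x, hx => by simp [domS] at h
  | fuel + 1, k, c, (k2, p) :: rest, h, x, hx => by
      simp only [domS, Bool.and_eq_true, decide_eq_true_eq] at h
      obtain ⟨⟨h1, h2⟩, h3⟩ := h
      have ih := domS_sound m fuel k2 _ _ h3 x hx
      rw [evalP_addP, evalP_mulP, evalP_smulP, evalE_smulE] at ih
      have hT := taylor_le (k - k2) m x hx.le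
      have hc := evalP_nonneg c h1 x hx.le
      have hk : exp ((k:ℝ) * x) = exp (((k - k2 : ℕ) : ℝ) * x) * exp ((k2:ℝ) * x) := by
        rw [← exp_add]; congr 1
        rw [Nat.cast_sub h2]; ring
      have hf : (0:ℝ) < (m.factorial : ℝ) := by positivity
      simp only [evalE]
      have e2 := exp_pos ((k2:ℝ) * x)
      have key : evalP c x * evalP (taylor m (k - k2)) x * exp ((k2:ℝ) * x)
          ≤ (m.factorial : ℝ) * (evalP c x * exp ((k:ℝ) * x)) := by
        rw [hk]
        have := mul_le_mul_of_nonneg_left hT hc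
        nlinarith [mul_le_mul_of_nonneg_right this e2.le]
      have : 0 < (m.factorial : ℝ) * (evalP c x * exp (k * x)
          + (evalP p x * exp (k2 * x) + evalE rest x)) := by
        push_cast at ih
        nlinarith [ih, key]
      exact (mul_pos_iff_of_pos_left hf).mp this

def domES (m : ℕ) : List (ℕ × List ℤ) → Bool
  | [] => false
  | (k, c) :: rest => domS m rest.length k c rest

def certS (m : ℕ) : ℕ → List (ℕ × List ℤ) → Bool
  | 0, f => domES m f
  | n + 1, f => decide (0 ≤ at0 f) && certS m n (derE f)

theorem certS_sound (m : ℕ) : ∀ (n : ℕ) (f : List (ℕ × List ℤ)), certS m n f = true →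
    ∀ x : ℝ, 0 < x → 0 < evalE f x
  | 0, [], h, x, _ => by simp [certS, domES] at h
  | 0, (k, c) :: rest, h, x, hx => domS_sound m _ k c rest h x hx
  | n + 1, f, h, x, hx => by
      simp only [certS, Bool.and_eq_true, decide_eq_true_eq] at h
      have ih := certS_sound m n (derE f) h.2
      have h0 : 0 ≤ evalE f 0 := by rw [evalE_zero]; exact_mod_cast h.1
      have hmono : StrictMonoOn (evalE f) (Set.Ici 0) := by
        apply strictMonoOn_of_deriv_pos (convex_Ici 0)
        · exact fun y _ => (hasDerivAt_evalE f y).continuousAt.continuousWithinAt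
        · intro y hy
          rw [interior_Ici] at hy
          rw [(hasDerivAt_evalE f y).deriv]
          exact ih y hy
      exact lt_of_le_of_lt h0 (hmono (Set.mem_Ici.mpr le_rfl) (Set.mem_Ici.mpr hx.le) hx)

theorem certS_evalT (m n : ℕ) (f : List (ℕ × List ℤ)) (h : certS m n f = true) (x : ℝ) (hx : 0 < x) :
    0 < evalT f x (exp x) := by
  rw [← evalE_eq_evalT]; exact certS_sound m n f h x hx

end Pool.Agent.Work.MP_b5407d_pos_h9.EP
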