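import Pool.Agent.Work.MP_b5407d_pos_helper9.PathInfra

/-! First variation of the corner functional `Z_D(z)` along piecewise smooth near chains. -/

set_option autoImplicit false

open MeasureTheory Set Filter Topology

namespace Pool.Agent.Work.MP_b5407d_pos_h9.FV

/-- `∫_0^x e^(-v s) ds` -/
noncomputable def mE (v x : ℝ) : ℝ := ∫ s in (0 : ℝ)..x, Real.exp (-(v * s))

lemma mE_deriv (v x : ℝ) : HasDerivAt (mE v) (Real.exp (-(v * x))) x := by
  have hc : Continuous (fun s : ℝ => Real.exp (-(v * s))) := by fun_prop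
  exact intervalIntegral.integral_hasDerivAt_right (hc.intervalIntegrable _ _)
    hc.aestronglyMeasurable.stronglyMeasurableAtFilter hc.continuousAt

lemma mE_zero (v : ℝ) : mE v 0 = 0 := by simp [mE]

lemma mE_eq (v x : ℝ) : v * mE v x = 1 - Real.exp (-(v * x)) := by
  have h : ∀ s ∈ uIcc 0 x, HasDerivAt (fun s => -Real.exp (-(v * s))) (v * Real.exp (-(v * s))) s := by
    intro s _
    have h1 : HasDerivAt (fun s : ℝ => -(v * s)) (-(v * 1)) s := ((hasDerivAt_id s).const_mul v).neg
    exact h1.exp.neg.congr_deriv (by ring)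
  have h3 := intervalIntegral.integral_eq_sub_of_hasDerivAt h
    ((by fun_prop : Continuous (fun s : ℝ => v * Real.exp (-(v * s)))).intervalIntegrable _ _)
  rw [intervalIntegral.integral_const_mul] at h3
  rw [mE, h3]
  simp only [mul_zero, neg_zero, Real.exp_zero]
  ring

section defs
variable (v w : ℝ) (x x' y y' : ℝ → ℝ) (L z1 z2 : ℝ)

/-- the weight `e` along the path -/
noncomputable def e (s : ℝ) : ℝ := Real.exp (-(v * x s) - w * y s)

/-- `F = z1 - X^` -/
noncomputable def F (s : ℝ) : ℝ := z1 - mE v (x L) - ∫ u in L..s, e v w x y u * x' u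

/-- `G = z2 - Y^` -/
noncomputable def G (s : ℝ) : ℝ := z2 - mE w (y 0) - ∫ u in (0 : ℝ)..s, e v w x y u * y' u

/-- `k = z2 m_v(x) - Jl` -/
noncomputable def k (s : ℝ) : ℝ :=
  ∫ u in (0 : ℝ)..s, (Real.exp (-(v * x u)) * (z2 - mE w (y u))) * x' u

/-- the functional `Z_D(z)` -/
noncomputable def Z : ℝ :=
  -∫ s in (0 : ℝ)..L, F v w x x' y L z1 s * k v w x x' y z2 s / e v w x y s * y' s

/-- the density `φ` -/
noncomputable def phi (s : ℝ) : ℝ :=
  F v w x x' y L z1 s * G v w x y y' z2 s / e v w x y s ^ 2
    - (∫ u in (0 : ℝ)..s, G v w x y y' z2 u / e v w x y u * x' u)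
    - ∫ u in L..s, F v w x x' y L z1 u / e v w x y u * y' u

end defs

lemma e_pos (v w : ℝ) (x y : ℝ → ℝ) (s : ℝ) : 0 < e v w x y s := Real.exp_pos _

section base
variable {v w : ℝ} {x x' y y' : ℝ → ℝ} {L z1 z2 : ℝ}

lemma e_AC (hx : AC x x') (hy : AC y y') :
    AC (e v w x y) (fun s => -(v * x' s + w * y' s) * e v w x y s) := by
  have h := (((hx.smul v).neg.sub (hy.smul w))).comp (p := Real.exp) (p' := Real.exp)
    Real.hasDerivAt_exp Real.continuous_exp
  exact h.congr fun s => by simp only [e]; ring

lemma ei_AC (hx : AC x x') (hy : AC y y') :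
    AC (fun s => (e v w x y s)⁻¹) (fun s => (v * x' s + w * y' s) * (e v w x y s)⁻¹) := by
  have h := (((hx.smul v).add (hy.smul w))).comp (p := Real.exp) (p' := Real.exp)
    Real.hasDerivAt_exp Real.continuous_exp
  have he : ∀ s, (e v w x y s)⁻¹ = Real.exp (v * x s + w * y s) := fun s => by
    rw [e, ← Real.exp_neg]; congr 1; ring
  refine (h.congrf fun s => (he s).symm).congr fun s => ?_
  rw [he]; ring

lemma F_AC (hx : AC x x') (hy : AC y y') :
    AC (F v w x x' y L z1) (fun s => -(e v w x y s * x' s)) := by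
  have h := (AC.const (z1 - mE v (x L))).sub
    ((Rg.cmul (e_AC (v := v) (w := w) hx hy).cont hx.rg).prim L)
  exact h.congr fun s => by ring

lemma G_AC (hx : AC x x') (hy : AC y y') :
    AC (G v w x y y' z2) (fun s => -(e v w x y s * y' s)) := by
  have h := (AC.const (z2 - mE w (y 0))).sub
    ((Rg.cmul (e_AC (v := v) (w := w) hx hy).cont hy.rg).prim 0)
  exact h.congr fun s => by ring

/-- `κ = e^(-v x) (z2 - m_w(y))` -/
noncomputable def kap (v w : ℝ) (x y : ℝ → ℝ) (z2 : ℝ) (s : ℝ) : ℝ :=
  Real.exp (-(v * x s)) * (z2 - mE w (y s))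

lemma kap_AC (hx : AC x x') (hy : AC y y') :
    AC (kap v w x y z2) (fun s => -v * x' s * kap v w x y z2 s - e v w x y s * y' s) := by
  have h1 := ((hx.smul v).neg).comp (p := Real.exp) (p' := Real.exp)
    Real.hasDerivAt_exp Real.continuous_exp
  have h2 := (AC.const z2).sub (hy.comp (p := mE w) (p' := fun y => Real.exp (-(w * y)))
    (mE_deriv w) (by fun_prop))
  have h := h1.mul h2
  refine h.congr fun s => ?_
  have he : e v w x y s = Real.exp (-(v * x s)) * Real.exp (-(w * y s)) := by
    rw [e, ← Real.exp_add]; congr 1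
  rw [he, kap]; ring

lemma k_AC (hx : AC x x') (hy : AC y y') :
    AC (k v w x x' y z2) (fun s => kap v w x y z2 s * x' s) :=
  (Rg.cmul (kap_AC (v := v) (w := w) (z2 := z2) hx hy).cont hx.rg).prim 0

/-- `κ + v k = G` -/
lemma kap_add (hx : AC x x') (hy : AC y y') (hx0 : x 0 = 0) (s : ℝ) :
    kap v w x y z2 s + v * k v w x x' y z2 s = G v w x y y' z2 s := by
  have h1 := ((kap_AC (v := v) (w := w) (z2 := z2) hx hy).add
    ((k_AC (v := v) (w := w) (z2 := z2) hx hy).smul v)).sub
    (G_AC (v := v) (w := w) (z2 := z2) hx hy)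
  have h2 := h1.eq 0 s
  have h3 : (fun s => -v * x' s * kap v w x y z2 s - e v w x y s * y' s +
      v * (kap v w x y z2 s * x' s) - -(e v w x y s * y' s)) = fun _ => 0 := by
    funext s; ring
  rw [h3, intervalIntegral.integral_zero] at h2
  have h4 : kap v w x y z2 0 + v * k v w x x' y z2 0 - G v w x y y' z2 0 = 0 := by
    simp [kap, k, G, hx0]
  linarith

/-- `-k/e + w ∫ k y'/e = -∫ (G/e) x'` -/
lemma k_rel (hx : AC x x') (hy : AC y y') (hx0 : x 0 = 0) (s : ℝ) :
    -(k v w x x' y z2 s * (e v w x y s)⁻¹)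
      + w * (∫ u in (0 : ℝ)..s, k v w x x' y z2 u * (e v w x y u)⁻¹ * y' u) =
    -∫ u in (0 : ℝ)..s, G v w x y y' z2 u * (e v w x y u)⁻¹ * x' u := by
  have hk := k_AC (v := v) (w := w) (z2 := z2) hx hy
  have hG := G_AC (v := v) (w := w) (z2 := z2) hx hy
  have hei := ei_AC (v := v) (w := w) hx hy
  have h1 := (hk.mul hei)
  have h2 := (Rg.cmul2 hk.cont hei.cont hy.rg).prim 0
  have h3 := (Rg.cmul2 hG.cont hei.cont hx.rg).prim 0
  have h4 := (h1.neg.add (h2.smul w)).add h3
  have h5 := h4.eq 0 s
  have h6 : (fun s => -(kap v w x y z2 s * x' s * (e v w x y s)⁻¹ +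
      k v w x x' y z2 s * ((v * x' s + w * y' s) * (e v w x y s)⁻¹)) +
      w * (k v w x x' y z2 s * (e v w x y s)⁻¹ * y' s) +
      G v w x y y' z2 s * (e v w x y s)⁻¹ * x' s) = fun _ => 0 := by
    funext s
    rw [← kap_add (v := v) (w := w) (z2 := z2) hx hy hx0 s]; ring
  rw [h6, intervalIntegral.integral_zero] at h5
  simp only [intervalIntegral.integral_same] at h5
  have h7 : k v w x x' y z2 0 = 0 := by simp [k]
  rw [h7] at h5
  linarith

lemma phi_cont (hx : AC x x') (hy : AC y y') : Continuous (phi v w x x' y y' L z1 z2) := by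
  have hei := ei_AC (v := v) (w := w) hx hy
  have hF := F_AC (v := v) (w := w) (L := L) (z1 := z1) hx hy
  have hG := G_AC (v := v) (w := w) (z2 := z2) hx hy
  have h1 := (Rg.cmul2 hG.cont hei.cont hx.rg).prim 0
  have h2 := (Rg.cmul2 hF.cont hei.cont hy.rg).prim L
  have h3 := (((hF.cont.mul hG.cont).mul (hei.cont.pow 2)).sub h1.cont).sub h2.cont
  refine h3.congr fun s => ?_
  simp only [phi, div_eq_mul_inv, Pi.mul_apply, Pi.sub_apply, Pi.pow_apply, inv_pow]

end base

/-! ### derivative with respect to the parameter -/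

section var
variable {v w : ℝ} {x x' y y' a a' b b' : ℝ → ℝ} {L z1 z2 : ℝ}

lemma x_C1 (hx : Continuous x) (ha : Continuous a) :
    C1t (fun t s => x s + t * a s) (fun _ s => a s) :=
  ((C1t.ofs hx).add (C1t.id.mul (C1t.ofs ha))).congr fun t s => by ring

lemma e_C1 (hx : Continuous x) (hy : Continuous y) (ha : Continuous a) (hb : Continuous b) :
    C1t (fun t s => e v w (fun s => x s + t * a s) (fun s => y s + t * b s) s)
      (fun t s => -(v * a s + w * b s) *
        e v w (fun s => x s + t * a s) (fun s => y s + t * b s) s) := by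
  have h1 := (C1t.ofs (continuous_const (y := v))).mul (x_C1 hx ha)
  have h2 := (C1t.ofs (continuous_const (y := w))).mul (x_C1 hy hb)
  have h := (h1.neg.sub h2).comp (p := Real.exp) (p' := Real.exp)
    Real.hasDerivAt_exp Real.continuous_exp
  exact h.congr fun t s => by simp only [e]; ring

lemma ei_C1 (hx : Continuous x) (hy : Continuous y) (ha : Continuous a) (hb : Continuous b) :
    C1t (fun t s => (e v w (fun s => x s + t * a s) (fun s => y s + t * b s) s)⁻¹)
      (fun t s => (v * a s + w * b s) *
        (e v w (fun s => x s + t * a s) (fun s => y s + t * b s) s)⁻¹) := by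
  have h1 := (C1t.ofs (continuous_const (y := v))).mul (x_C1 hx ha)
  have h2 := (C1t.ofs (continuous_const (y := w))).mul (x_C1 hy hb)
  have h := (h1.add h2).comp (p := Real.exp) (p' := Real.exp)
    Real.hasDerivAt_exp Real.continuous_exp
  have he : ∀ t s, (e v w (fun s => x s + t * a s) (fun s => y s + t * b s) s)⁻¹ =
      Real.exp (v * (x s + t * a s) + w * (y s + t * b s)) := fun t s => by
    rw [e, ← Real.exp_neg]; congr 1; ring
  refine (h.congrf fun t s => (he t s).symm).congr fun t s => ?_
  rw [he]; ring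

/-- `ν = b x' - a y'` -/
noncomputable def nu (x' y' a b : ℝ → ℝ) (s : ℝ) : ℝ := b s * x' s - a s * y' s

lemma F_C1 (hx : AC x x') (hy : AC y y') (ha : AC a a') (hb : AC b b') :
    C1t (fun t s => F v w (fun s => x s + t * a s) (fun s => x' s + t * a' s)
        (fun s => y s + t * b s) L z1 s)
      (fun t s => -(Real.exp (-(v * (x L + t * a L))) * a L) -
        ∫ u in L..s, ((-(v * a u + w * b u) *
            e v w (fun s => x s + t * a s) (fun s => y s + t * b s) u) * x' u +
          (e v w (fun s => x s + t * a s) (fun s => y s + t * b s) u +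
            t * (-(v * a u + w * b u) *
              e v w (fun s => x s + t * a s) (fun s => y s + t * b s) u)) * a' u)) := by
  have he := e_C1 (v := v) (w := w) hx.cont hy.cont ha.cont hb.cont
  have h1 := he.prim2 hx.rg (C1t.id.mul he) ha.rg L
  have h0 : ∀ t, HasDerivAt (fun t => x L + t * a L) (a L) t := fun t => by
    have := (hasDerivAt_id t).mul_const (a L)
    simpa using this.const_add (x L)
  have h2 : C1t (fun t _ => mE v (x L + t * a L))
      (fun t _ => Real.exp (-(v * (x L + t * a L))) * a L) :=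
    (C1t.oft h0 continuous_const).comp (p := mE v) (p' := fun y => Real.exp (-(v * y)))
      (mE_deriv v) (by fun_prop)
  have h3 := ((C1t.ofs (continuous_const (y := z1))).sub h2).sub h1
  refine (h3.congrf fun t s => ?_).congr fun t s => ?_
  · simp only [F]
    congr 1
    refine intervalIntegral.integral_congr fun u _ => ?_
    ring
  · simp only [zero_sub]
    congr 1
    refine intervalIntegral.integral_congr fun u _ => ?_
    ring

lemma kap_C1 (hx : Continuous x) (hy : Continuous y) (ha : Continuous a) (hb : Continuous b) :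
    C1t (fun t s => kap v w (fun s => x s + t * a s) (fun s => y s + t * b s) z2 s)
      (fun t s => -v * a s * kap v w (fun s => x s + t * a s) (fun s => y s + t * b s) z2 s -
        e v w (fun s => x s + t * a s) (fun s => y s + t * b s) s * b s) := by
  have h1 := (((C1t.ofs (continuous_const (y := v))).mul (x_C1 hx ha)).neg).comp
    (p := Real.exp) (p' := Real.exp) Real.hasDerivAt_exp Real.continuous_exp
  have h2 := (C1t.ofs (continuous_const (y := z2))).sub ((x_C1 hy hb).comp (p := mE w)
    (p' := fun y => Real.exp (-(w * y))) (mE_deriv w) (by fun_prop))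
  refine (h1.mul h2).congr fun t s => ?_
  have he : e v w (fun s => x s + t * a s) (fun s => y s + t * b s) s =
      Real.exp (-(v * (x s + t * a s))) * Real.exp (-(w * (y s + t * b s))) := by
    rw [e, ← Real.exp_add]; congr 1
  rw [he, kap]; ring

lemma k_C1 (hx : AC x x') (hy : AC y y') (ha : AC a a') (hb : AC b b') :
    C1t (fun t s => k v w (fun s => x s + t * a s) (fun s => x' s + t * a' s)
        (fun s => y s + t * b s) z2 s)
      (fun t s => ∫ u in (0 : ℝ)..s,
        ((-v * a u * kap v w (fun s => x s + t * a s) (fun s => y s + t * b s) z2 u -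
            e v w (fun s => x s + t * a s) (fun s => y s + t * b s) u * b u) * x' u +
          (kap v w (fun s => x s + t * a s) (fun s => y s + t * b s) z2 u +
            t * (-v * a u * kap v w (fun s => x s + t * a s) (fun s => y s + t * b s) z2 u -
            e v w (fun s => x s + t * a s) (fun s => y s + t * b s) u * b u)) * a' u)) := by
  have he := kap_C1 (v := v) (w := w) (z2 := z2) hx.cont hy.cont ha.cont hb.cont
  have h1 := he.prim2 hx.rg (C1t.id.mul he) ha.rg 0
  refine (h1.congrf fun t s => ?_).congr fun t s => ?_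
  · simp only [k]
    refine intervalIntegral.integral_congr fun u _ => ?_
    simp only [kap]; ring
  · refine intervalIntegral.integral_congr fun u _ => ?_
    ring

/-- derivative of `F` in the parameter at `t = 0` -/
lemma F_dot (hx : AC x x') (hy : AC y y') (ha : AC a a') (hb : AC b b') (hyL : y L = 0) (s : ℝ) :
    -(Real.exp (-(v * (x L + 0 * a L))) * a L) -
        ∫ u in L..s, ((-(v * a u + w * b u) *
            e v w (fun s => x s + 0 * a s) (fun s => y s + 0 * b s) u) * x' u +
          (e v w (fun s => x s + 0 * a s) (fun s => y s + 0 * b s) u +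
            0 * (-(v * a u + w * b u) *
              e v w (fun s => x s + 0 * a s) (fun s => y s + 0 * b s) u)) * a' u) =
    -(e v w x y s * a s) + w * ∫ u in L..s, e v w x y u * nu x' y' a b u := by
  simp only [zero_mul, add_zero]
  have he := e_AC (v := v) (w := w) hx hy
  have hnu : Rg (nu x' y' a b) := (Rg.cmul hb.cont hx.rg).sub (Rg.cmul ha.cont hy.rg)
  have h1 := (he.mul ha).sub (((Rg.cmul he.cont hnu).prim L).smul w)
  have h2 := h1.eq L s
  simp only [intervalIntegral.integral_same] at h2
  have h3 : e v w x y L = Real.exp (-(v * x L)) := by simp [e, hyL]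
  have h4 : (∫ u in L..s, (-(v * a u + w * b u) * e v w x y u * x' u + e v w x y u * a' u)) =
      ∫ u in L..s, (-(v * x' u + w * y' u) * e v w x y u * a u + e v w x y u * a' u -
        w * (e v w x y u * nu x' y' a b u)) := by
    refine intervalIntegral.integral_congr fun u _ => ?_
    simp only [nu]; ring
  have h5 : (fun s => x s) = x := rfl
  have h6 : (fun s => y s) = y := rfl
  rw [h5, h6, h4, h2, ← h3]
  ring

/-- derivative of `k` in the parameter at `t = 0` -/
lemma k_dot (hx : AC x x') (hy : AC y y') (ha : AC a a') (hb : AC b b') (ha0 : a 0 = 0) (s : ℝ) :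
    (∫ u in (0 : ℝ)..s,
        ((-v * a u * kap v w (fun s => x s + 0 * a s) (fun s => y s + 0 * b s) z2 u -
            e v w (fun s => x s + 0 * a s) (fun s => y s + 0 * b s) u * b u) * x' u +
          (kap v w (fun s => x s + 0 * a s) (fun s => y s + 0 * b s) z2 u +
            0 * (-v * a u * kap v w (fun s => x s + 0 * a s) (fun s => y s + 0 * b s) z2 u -
            e v w (fun s => x s + 0 * a s) (fun s => y s + 0 * b s) u * b u)) * a' u)) =
    kap v w x y z2 s * a s - ∫ u in (0 : ℝ)..s, e v w x y u * nu x' y' a b u := by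
  simp only [zero_mul, add_zero]
  have he := e_AC (v := v) (w := w) hx hy
  have hk := kap_AC (v := v) (w := w) (z2 := z2) hx hy
  have hnu : Rg (nu x' y' a b) := (Rg.cmul hb.cont hx.rg).sub (Rg.cmul ha.cont hy.rg)
  have h1 := (hk.mul ha).sub ((Rg.cmul he.cont hnu).prim 0)
  have h2 := h1.eq 0 s
  simp only [intervalIntegral.integral_same, ha0] at h2
  have h4 : (∫ u in (0 : ℝ)..s, ((-v * a u * kap v w x y z2 u - e v w x y u * b u) * x' u +
      kap v w x y z2 u * a' u)) =
      ∫ u in (0 : ℝ)..s, ((-v * x' u * kap v w x y z2 u - e v w x y u * y' u) * a u +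
        kap v w x y z2 u * a' u - e v w x y u * nu x' y' a b u) := by
    refine intervalIntegral.integral_congr fun u _ => ?_
    simp only [nu]; ring
  have h5 : (fun s => x s) = x := rfl
  have h6 : (fun s => y s) = y := rfl
  rw [h5, h6, h4, h2]
  ring

/-- FIRST VARIATION. -/
theorem firstVar (hx : AC x x') (hy : AC y y') (ha : AC a a') (hb : AC b b')
    (hx0 : x 0 = 0) (hyL : y L = 0) (ha0 : a 0 = 0) (hbL : b L = 0) :
    HasDerivAt (fun t => Z v w (fun s => x s + t * a s) (fun s => x' s + t * a' s)
        (fun s => y s + t * b s) (fun s => y' s + t * b' s) L z1 z2)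
      (∫ s in (0 : ℝ)..L, e v w x y s * phi v w x x' y y' L z1 z2 s * nu x' y' a b s) 0 := by
  have hF := F_C1 (v := v) (w := w) (L := L) (z1 := z1) hx hy ha hb
  have hk := k_C1 (v := v) (w := w) (z2 := z2) hx hy ha hb
  have hei := ei_C1 (v := v) (w := w) hx.cont hy.cont ha.cont hb.cont
  have hH := (hF.mul hk).mul hei
  have h1 := (hH.prim2 hy.rg (C1t.id.mul hH) hb.rg 0).neg
  have h2 := h1.der 0 L
  have h3 : (fun t => Z v w (fun s => x s + t * a s) (fun s => x' s + t * a' s)
        (fun s => y s + t * b s) (fun s => y' s + t * b' s) L z1 z2) = fun t =>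
      -∫ u in (0 : ℝ)..L,
        (F v w (fun s => x s + t * a s) (fun s => x' s + t * a' s) (fun s => y s + t * b s) L z1 u *
            k v w (fun s => x s + t * a s) (fun s => x' s + t * a' s) (fun s => y s + t * b s) z2 u *
            (e v w (fun s => x s + t * a s) (fun s => y s + t * b s) u)⁻¹ * y' u +
          t * (F v w (fun s => x s + t * a s) (fun s => x' s + t * a' s) (fun s => y s + t * b s) L
                z1 u *
            k v w (fun s => x s + t * a s) (fun s => x' s + t * a' s) (fun s => y s + t * b s) z2 u *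
            (e v w (fun s => x s + t * a s) (fun s => y s + t * b s) u)⁻¹) * b' u) := by
    funext t
    rw [Z]
    congr 1
    refine intervalIntegral.integral_congr fun u _ => ?_
    ring
  rw [h3]
  refine h2.congr_deriv ?_
  clear h1 h2 h3 hH hei hF hk
  -- the total derivative
  have he := e_AC (v := v) (w := w) hx hy
  have hei := ei_AC (v := v) (w := w) hx hy
  have hF := F_AC (v := v) (w := w) (L := L) (z1 := z1) hx hy
  have hG := G_AC (v := v) (w := w) (z2 := z2) hx hy
  have hk := k_AC (v := v) (w := w) (z2 := z2) hx hy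
  have hnu : Rg (nu x' y' a b) := (Rg.cmul hb.cont hx.rg).sub (Rg.cmul ha.cont hy.rg)
  have hH := (Rg.cmul2 hk.cont hei.cont hy.rg).prim 0
  have hI := (Rg.cmul he.cont hnu).prim L
  have hB := (Rg.cmul2 hF.cont hei.cont hy.rg).prim L
  have hN := (Rg.cmul he.cont hnu).prim 0
  have hP := (((hI.mul hH).smul (-w)).add (hB.mul hN)).sub (((hF.mul hk).mul hei).mul hb)
  have hPe := hP.eq 0 L
  have hk0 : k v w x x' y z2 0 = 0 := by simp [k]
  simp only [intervalIntegral.integral_same, hbL, hk0] at hPe
  have hFd := fun s => F_dot (v := v) (w := w) hx hy ha hb hyL s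
  have hkd := fun s => k_dot (v := v) (w := w) (z2 := z2) hx hy ha hb ha0 s
  simp only [hFd, hkd]
  simp only [zero_mul, add_zero, one_mul]
  have h5 : (fun s => x s) = x := rfl
  have h6 : (fun s => y s) = y := rfl
  have h7 : (fun s => x' s) = x' := rfl
  rw [h5, h6, h7]
  rw [← sub_eq_zero, ← intervalIntegral.integral_neg]
  rw [← intervalIntegral.integral_sub]
  · refine Eq.trans ?_ (hPe.trans (by ring))
    refine intervalIntegral.integral_congr fun s _ => ?_
    have hr := k_rel (v := v) (w := w) (z2 := z2) hx hy hx0 s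
    have hkG := kap_add (v := v) (w := w) (z2 := z2) hx hy hx0 s
    have hes : e v w x y s ≠ 0 := (e_pos v w x y s).ne'
    have hA : (∫ u in (0 : ℝ)..s, G v w x y y' z2 u / e v w x y u * x' u) =
        k v w x x' y z2 s * (e v w x y s)⁻¹ -
          w * ∫ u in (0 : ℝ)..s, k v w x x' y z2 u * (e v w x y u)⁻¹ * y' u := by
      simp only [div_eq_mul_inv]
      linarith
    have hBB : (∫ u in L..s, F v w x x' y L z1 u / e v w x y u * y' u) =
        ∫ u in L..s, F v w x x' y L z1 u * (e v w x y u)⁻¹ * y' u := by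
      simp only [div_eq_mul_inv]
    rw [phi, hA, hBB, ← hkG]
    have hnu' : nu x' y' a b s = b s * x' s - a s * y' s := rfl
    rw [hnu']
    generalize (∫ u in (0 : ℝ)..s, k v w x x' y z2 u * (e v w x y u)⁻¹ * y' u) = H
    generalize (∫ u in L..s, e v w x y u * nu x' y' a b u) = I
    generalize (∫ u in (0 : ℝ)..s, e v w x y u * nu x' y' a b u) = N
    generalize (∫ u in L..s, F v w x x' y L z1 u * (e v w x y u)⁻¹ * y' u) = B
    field_simp
    ring
  · have r1 := Rg.cmul (((((he.cont.mul ha.cont).neg.add (hI.cont.const_mul w)).mul hk.cont).add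
      (hF.cont.mul ((((kap_AC (v := v) (w := w) (z2 := z2) hx hy).cont).mul ha.cont).sub
        hN.cont))).mul hei.cont |>.add ((hF.cont.mul hk.cont).mul
        (((ha.cont.const_mul v).add (hb.cont.const_mul w)).mul hei.cont))) hy.rg
    have r2 := Rg.cmul ((hF.cont.mul hk.cont).mul hei.cont) hb.rg
    exact (r1.add r2).neg.int 0 L
  · exact (Rg.cmul (he.cont.mul (phi_cont hx hy)) hnu).int 0 L

/-- FIRST VARIATION at an arbitrary parameter. -/
theorem firstVar_at (hx : AC x x') (hy : AC y y') (ha : AC a a') (hb : AC b b')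
    (hx0 : x 0 = 0) (hyL : y L = 0) (ha0 : a 0 = 0) (hbL : b L = 0) (t0 : ℝ) :
    HasDerivAt (fun t => Z v w (fun s => x s + t * a s) (fun s => x' s + t * a' s)
        (fun s => y s + t * b s) (fun s => y' s + t * b' s) L z1 z2)
      (∫ s in (0 : ℝ)..L, e v w (fun s => x s + t0 * a s) (fun s => y s + t0 * b s) s *
        phi v w (fun s => x s + t0 * a s) (fun s => x' s + t0 * a' s)
          (fun s => y s + t0 * b s) (fun s => y' s + t0 * b' s) L z1 z2 s *
        nu (fun s => x' s + t0 * a' s) (fun s => y' s + t0 * b' s) a b s) t0 := by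
  have hX : AC (fun s => x s + t0 * a s) (fun s => x' s + t0 * a' s) := hx.add (ha.smul t0)
  have hY : AC (fun s => y s + t0 * b s) (fun s => y' s + t0 * b' s) := hy.add (hb.smul t0)
  have h := firstVar (v := v) (w := w) (L := L) (z1 := z1) (z2 := z2) hX hY ha hb
    (by simp [hx0, ha0]) (by simp [hyL, hbL]) ha0 hbL
  have hsub : HasDerivAt (fun t : ℝ => t - t0) 1 t0 := (hasDerivAt_id t0).sub_const t0
  have h' := HasDerivAt.comp (h₂ := fun t => Z v w (fun s => x s + t0 * a s + t * a s)
      (fun s => x' s + t0 * a' s + t * a' s) (fun s => y s + t0 * b s + t * b s)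
      (fun s => y' s + t0 * b' s + t * b' s) L z1 z2) t0 (by rw [sub_self]; exact h) hsub
  rw [mul_one] at h'
  refine h'.congr_of_eventuallyEq (Eventually.of_forall fun t => ?_)
  simp only [Function.comp]
  have e1 : ∀ (p q : ℝ → ℝ), (fun s => p s + t0 * q s + (t - t0) * q s) = fun s => p s + t * q s :=
    fun p q => by funext s; ring
  rw [e1 x a, e1 x' a', e1 y b, e1 y' b']

end var

end Pool.Agent.Work.MP_b5407d_pos_h9.FV
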