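import Pool.Agent.Work.MP_b5407d_pos_helper9.ExpDiv

set_option autoImplicit false

/-! Hyperbolic inequalities for the tilt lemma. -/

namespace Pool.Agent.Work.MP_b5407d_pos_h9

open Real

/-- `t cosh t / sinh t` is increasing on `(0, ∞)`. -/
theorem coth_mono : MonotoneOn (fun t : ℝ => t * cosh t / sinh t) (Set.Ioi 0) := by
  have hs : ∀ x ∈ Set.Ioi (0:ℝ), sinh x ≠ 0 := fun x hx => (sinh_pos_iff.mpr hx).ne'
  apply monotoneOn_of_deriv_nonneg (convex_Ioi 0)
  · exact ContinuousOn.div (by fun_prop) (by fun_prop) hs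
  · rw [interior_Ioi]
    exact DifferentiableOn.div (by fun_prop) (by fun_prop) hs
  · intro x hx
    rw [interior_Ioi] at hx
    have hx0 : 0 < x := hx
    have hd : HasDerivAt (fun t : ℝ => t * cosh t / sinh t)
        (((1 * cosh x + x * sinh x) * sinh x - x * cosh x * cosh x) / (sinh x) ^ 2) x :=
      ((hasDerivAt_id x).mul (hasDerivAt_cosh x)).div (hasDerivAt_sinh x) (hs x hx)
    rw [hd.deriv]
    apply div_nonneg _ (sq_nonneg _)
    have h1 := cosh_sq_sub_sinh_sq x
    have h2 : x ≤ sinh x := (self_le_sinh_iff).mpr hx0.le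
    have h3 : 1 ≤ cosh x := one_le_cosh x
    have h4 : 0 ≤ sinh x := (sinh_pos_iff.mpr hx0).le
    nlinarith [mul_nonneg h4 (sub_nonneg.mpr h3)]

theorem tanh_ratio {m q : ℝ} (h0 : 0 ≤ m) (h1 : m ≤ q) :
    m * sinh q * cosh m ≤ q * cosh q * sinh m := by
  rcases h0.eq_or_lt with h | h
  · subst h; simp
  · have hq : 0 < q := lt_of_lt_of_le h h1
    have hm := coth_mono (Set.mem_Ioi.mpr h) (Set.mem_Ioi.mpr hq) h1
    have s1 := sinh_pos_iff.mpr h
    have s2 := sinh_pos_iff.mpr hq
    simp only at hm
    rw [div_le_div_iff₀ s1 s2] at hm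
    nlinarith [hm]

/-- `sinh t / t` is increasing. -/
theorem sinh_ratio {m q : ℝ} (h0 : 0 ≤ m) (h1 : m ≤ q) : q * sinh m ≤ m * sinh q := by
  have hmono : MonotoneOn (fun x : ℝ => m * sinh x - x * sinh m) (Set.Ici m) := by
    apply monotoneOn_of_deriv_nonneg (convex_Ici m)
    · fun_prop
    · fun_prop
    · intro x hx
      rw [interior_Ici] at hx
      have hx' : m < x := hx
      have hd : HasDerivAt (fun x : ℝ => m * sinh x - x * sinh m) (m * cosh x - 1 * sinh m) x :=
        ((hasDerivAt_sinh x).const_mul m).sub ((hasDerivAt_id x).mul_const _)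
      rw [hd.deriv]
      have h2 : sinh m ≤ m * cosh m := by
        rcases h0.eq_or_lt with h | h
        · subst h; simp
        · -- (sinh m)/m ≤ cosh m from `sinh' ≤ cosh m` on [0,m]
          have hmo : MonotoneOn (fun x : ℝ => x * cosh x - sinh x) (Set.Ici 0) := by
            apply monotoneOn_of_deriv_nonneg (convex_Ici 0)
            · fun_prop
            · fun_prop
            · intro y hy
              rw [interior_Ici] at hy
              have hy0 : 0 < y := hy
              have hd2 : HasDerivAt (fun x : ℝ => x * cosh x - sinh x)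
                  ((1 * cosh y + y * sinh y) - cosh y) y :=
                ((hasDerivAt_id y).mul (hasDerivAt_cosh y)).sub (hasDerivAt_sinh y)
              rw [hd2.deriv]
              have := (sinh_pos_iff.mpr hy0).le
              nlinarith [mul_nonneg hy0.le this]
          have := hmo (Set.mem_Ici.mpr le_rfl) (Set.mem_Ici.mpr h0) h0
          simp at this
          linarith
      have h3 : cosh m ≤ cosh x := by
        rw [cosh_le_cosh, abs_of_nonneg h0, abs_of_nonneg (h0.trans hx'.le)]
        exact hx'.le
      nlinarith [mul_le_mul_of_nonneg_left h3 h0]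
  have := hmono (Set.mem_Ici.mpr le_rfl) (Set.mem_Ici.mpr h1) h1
  simp only at this
  nlinarith [this]

/-- convexity of `cosh √x`. -/
theorem key1 (q m : ℝ) (hq : 0 < q) :
    sinh q * (m ^ 2 - q ^ 2) ≤ 2 * q * (cosh m - cosh q) := by
  wlog hm : 0 ≤ m generalizing m
  · have := this (-m) (by linarith [not_le.mp hm])
    simpa using this
  -- G m = 2 q (cosh m - cosh q) - sinh q (m^2 - q^2)
  have hd : ∀ x : ℝ, HasDerivAt (fun m : ℝ => 2 * q * (cosh m - cosh q) - sinh q * (m ^ 2 - q ^ 2))
      (2 * q * sinh x - sinh q * (2 * x)) x := by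
    intro x
    have h1 : HasDerivAt (fun m : ℝ => cosh m - cosh q) (sinh x) x := (hasDerivAt_cosh x).sub_const _
    have h2 : HasDerivAt (fun m : ℝ => m ^ 2 - q ^ 2) (2 * x) x := by
      simpa using (hasDerivAt_pow 2 x).sub_const (q ^ 2)
    exact (h1.const_mul (2 * q)).sub (h2.const_mul (sinh q))
  rcases le_total m q with h | h
  · have han : AntitoneOn (fun m : ℝ => 2 * q * (cosh m - cosh q) - sinh q * (m ^ 2 - q ^ 2))
        (Set.Icc 0 q) := by
      apply antitoneOn_of_deriv_nonpos (convex_Icc 0 q)
      · fun_prop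
      · fun_prop
      · intro x hx
        rw [interior_Icc] at hx
        rw [(hd x).deriv]
        have := sinh_ratio hx.1.le hx.2.le
        linarith
    have := han (Set.mem_Icc.mpr ⟨hm, h⟩) (Set.mem_Icc.mpr ⟨hq.le, le_rfl⟩) h
    simp only [sub_self, mul_zero] at this
    linarith
  · have hmo : MonotoneOn (fun m : ℝ => 2 * q * (cosh m - cosh q) - sinh q * (m ^ 2 - q ^ 2))
        (Set.Ici q) := by
      apply monotoneOn_of_deriv_nonneg (convex_Ici q)
      · fun_prop
      · fun_prop
      · intro x hx
        rw [interior_Ici] at hx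
        have hx' : q < x := hx
        rw [(hd x).deriv]
        have := sinh_ratio hq.le hx'.le
        linarith
    have := hmo (Set.mem_Ici.mpr le_rfl) (Set.mem_Ici.mpr h) h
    simp only [sub_self, mul_zero] at this
    linarith

/-- convexity of `x/(e^x-1)`, in hyperbolic form. -/
theorem key2 (q m : ℝ) (hq : 0 < q) :
    0 ≤ q + sinh q * cosh q - (q * cosh q + sinh q) * cosh m + m * sinh q * sinh m := by
  wlog hm : 0 ≤ m generalizing m
  · have := this (-m) (by linarith [not_le.mp hm])
    simpa using this
  have hd : ∀ x : ℝ, HasDerivAt (fun m : ℝ => q + sinh q * cosh q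
      - (q * cosh q + sinh q) * cosh m + m * sinh q * sinh m)
      (0 - (q * cosh q + sinh q) * sinh x + ((1 * sinh q) * sinh x + x * sinh q * cosh x)) x := by
    intro x
    have h1 : HasDerivAt (fun m : ℝ => q + sinh q * cosh q - (q * cosh q + sinh q) * cosh m)
        (0 - (q * cosh q + sinh q) * sinh x) x :=
      (hasDerivAt_const x (q + sinh q * cosh q)).sub ((hasDerivAt_cosh x).const_mul _)
    have h2 : HasDerivAt (fun m : ℝ => m * sinh q * sinh m)
        ((1 * sinh q) * sinh x + x * sinh q * cosh x) x :=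
      ((hasDerivAt_id x).mul_const _).mul (hasDerivAt_sinh x)
    exact h1.add h2
  have h0 : q + sinh q * cosh q - (q * cosh q + sinh q) * cosh q + q * sinh q * sinh q = 0 := by
    have := cosh_sq_sub_sinh_sq q
    nlinarith [this]
  rcases le_total m q with h | h
  · have han : AntitoneOn (fun m : ℝ => q + sinh q * cosh q
        - (q * cosh q + sinh q) * cosh m + m * sinh q * sinh m) (Set.Icc 0 q) := by
      apply antitoneOn_of_deriv_nonpos (convex_Icc 0 q)
      · fun_prop
      · fun_prop
      · intro x hx
        rw [interior_Icc] at hx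
        rw [(hd x).deriv]
        have := tanh_ratio hx.1.le hx.2.le
        linarith
    have := han (Set.mem_Icc.mpr ⟨hm, h⟩) (Set.mem_Icc.mpr ⟨hq.le, le_rfl⟩) h
    simp only at this
    linarith
  · have hmo : MonotoneOn (fun m : ℝ => q + sinh q * cosh q
        - (q * cosh q + sinh q) * cosh m + m * sinh q * sinh m) (Set.Ici q) := by
      apply monotoneOn_of_deriv_nonneg (convex_Ici q)
      · fun_prop
      · fun_prop
      · intro x hx
        rw [interior_Ici] at hx
        have hx' : q < x := hx
        rw [(hd x).deriv]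
        have := tanh_ratio hq.le hx'.le
        linarith
    have := hmo (Set.mem_Ici.mpr le_rfl) (Set.mem_Ici.mpr h) h
    simp only at this
    linarith

end Pool.Agent.Work.MP_b5407d_pos_h9
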