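import Pool.Agent.Work.MP_b5407d_pos_helper9.ExpPoly

set_option autoImplicit false

/-! One-variable hyperbolic inequalities (certificates). `A = x cosh x - sinh x`. -/

namespace Pool.Agent.Work.MP_b5407d_pos_h9.EP

open Real

theorem hyp_low (x : ℝ) (hx : 0 < x) : 0 < sinh x ^ 2 + x ^ 2 * sinh x ^ 2 - x ^ 2 * cosh x ^ 2 := by
  have h := certS_evalT 3 1 [(4, [1]), (2, [-2, 0, -4]), (0, [1])] (by decide) x hx
  have hS : sinh x = (exp x - (exp x)⁻¹) / 2 := by rw [sinh_eq, exp_neg]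
  have hC : cosh x = (exp x + (exp x)⁻¹) / 2 := by rw [cosh_eq, exp_neg]
  have ht := exp_pos x
  have key : (sinh x ^ 2 + x ^ 2 * sinh x ^ 2 - x ^ 2 * cosh x ^ 2) * ((4 / 1 : ℝ) * exp x ^ 2)
      = evalT [(4, [1]), (2, [-2, 0, -4]), (0, [1])] x (exp x) := by
    simp only [evalT, evalP, hS, hC]
    push_cast
    field_simp
    ring
  have hpos : (0:ℝ) < (4 / 1 : ℝ) * exp x ^ 2 := by positivity
  rw [← key] at h
  exact (mul_pos_iff_of_pos_right hpos).mp h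

theorem hyp_up (x : ℝ) (hx : 0 ≤ x) : 0 ≤ x ^ 2 + x * sinh x * cosh x - 2 * sinh x ^ 2 := by
  have h := cert_evalT 0 8 [(4, [-2, 1]), (2, [4, 0, 4]), (0, [-2, -1])] (by decide) x hx
  have hS : sinh x = (exp x - (exp x)⁻¹) / 2 := by rw [sinh_eq, exp_neg]
  have hC : cosh x = (exp x + (exp x)⁻¹) / 2 := by rw [cosh_eq, exp_neg]
  have ht := exp_pos x
  have key : (x ^ 2 + x * sinh x * cosh x - 2 * sinh x ^ 2) * ((4 / 1 : ℝ) * exp x ^ 2)
      = evalT [(4, [-2, 1]), (2, [4, 0, 4]), (0, [-2, -1])] x (exp x) := by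
    simp only [evalT, evalP, hS, hC]
    push_cast
    field_simp
    ring
  have hpos : (0:ℝ) < (4 / 1 : ℝ) * exp x ^ 2 := by positivity
  rw [← key] at h
  exact nonneg_of_mul_nonneg_left h hpos

theorem hyp_three (x : ℝ) (hx : 0 ≤ x) : 0 ≤ x ^ 2 * sinh x - 3 * (x * cosh x - sinh x) := by
  have h := cert_evalT 0 3 [(2, [3, -3, 1]), (0, [-3, -3, -1])] (by decide) x hx
  have hS : sinh x = (exp x - (exp x)⁻¹) / 2 := by rw [sinh_eq, exp_neg]
  have hC : cosh x = (exp x + (exp x)⁻¹) / 2 := by rw [cosh_eq, exp_neg]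
  have ht := exp_pos x
  have key : (x ^ 2 * sinh x - 3 * (x * cosh x - sinh x)) * ((2 / 1 : ℝ) * exp x ^ 1)
      = evalT [(2, [3, -3, 1]), (0, [-3, -3, -1])] x (exp x) := by
    simp only [evalT, evalP, hS, hC]
    push_cast
    field_simp
    ring
  have hpos : (0:ℝ) < (2 / 1 : ℝ) * exp x ^ 1 := by positivity
  rw [← key] at h
  exact nonneg_of_mul_nonneg_left h hpos

theorem hyp_c (x : ℝ) (hx : 0 ≤ x) : 0 ≤ (x * cosh x - sinh x) ^ 2 + x ^ 3 * sinh x ^ 2 - 3 * x * (x * cosh x - sinh x) * sinh x - x * (x * cosh x - sinh x) ^ 2 := by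
  have h := cert_evalT 3 3 [(4, [1]), (2, [-2, -4, 2, -4]), (0, [1, 4, 2])] (by decide) x hx
  have hS : sinh x = (exp x - (exp x)⁻¹) / 2 := by rw [sinh_eq, exp_neg]
  have hC : cosh x = (exp x + (exp x)⁻¹) / 2 := by rw [cosh_eq, exp_neg]
  have ht := exp_pos x
  have key : ((x * cosh x - sinh x) ^ 2 + x ^ 3 * sinh x ^ 2 - 3 * x * (x * cosh x - sinh x) * sinh x - x * (x * cosh x - sinh x) ^ 2) * ((4 / 1 : ℝ) * exp x ^ 2)
      = evalT [(4, [1]), (2, [-2, -4, 2, -4]), (0, [1, 4, 2])] x (exp x) := by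
    simp only [evalT, evalP, hS, hC]
    push_cast
    field_simp
    ring
  have hpos : (0:ℝ) < (4 / 1 : ℝ) * exp x ^ 2 := by positivity
  rw [← key] at h
  exact nonneg_of_mul_nonneg_left h hpos

theorem hyp_chi (x : ℝ) (hx : 0 ≤ x) : 0 ≤ 2 / 15 * x ^ 2 * (x * cosh x - sinh x) * sinh x - (x * cosh x - sinh x) ^ 2 - 3 * (x * cosh x - sinh x) * sinh x + x ^ 2 * sinh x ^ 2 := by
  have h := cert_evalT 0 9 [(4, [30, -15, -2, 2]), (2, [-60, 0, -56]), (0, [30, 15, -2, -2])] (by decide) x hx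
  have hS : sinh x = (exp x - (exp x)⁻¹) / 2 := by rw [sinh_eq, exp_neg]
  have hC : cosh x = (exp x + (exp x)⁻¹) / 2 := by rw [cosh_eq, exp_neg]
  have ht := exp_pos x
  have key : (2 / 15 * x ^ 2 * (x * cosh x - sinh x) * sinh x - (x * cosh x - sinh x) ^ 2 - 3 * (x * cosh x - sinh x) * sinh x + x ^ 2 * sinh x ^ 2) * ((60 / 1 : ℝ) * exp x ^ 2)
      = evalT [(4, [30, -15, -2, 2]), (2, [-60, 0, -56]), (0, [30, 15, -2, -2])] x (exp x) := by
    simp only [evalT, evalP, hS, hC]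
    push_cast
    field_simp
    ring
  have hpos : (0:ℝ) < (60 / 1 : ℝ) * exp x ^ 2 := by positivity
  rw [← key] at h
  exact nonneg_of_mul_nonneg_left h hpos

theorem hyp_om (x : ℝ) (hx : 0 ≤ x) : 0 ≤ (3 + x ^ 2 / 5) * (x * cosh x - sinh x) - x ^ 2 * sinh x := by
  have h := cert_evalT 0 4 [(2, [-15, 15, -6, 1]), (0, [15, 15, 6, 1])] (by decide) x hx
  have hS : sinh x = (exp x - (exp x)⁻¹) / 2 := by rw [sinh_eq, exp_neg]
  have hC : cosh x = (exp x + (exp x)⁻¹) / 2 := by rw [cosh_eq, exp_neg]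
  have ht := exp_pos x
  have key : ((3 + x ^ 2 / 5) * (x * cosh x - sinh x) - x ^ 2 * sinh x) * ((10 / 1 : ℝ) * exp x ^ 1)
      = evalT [(2, [-15, 15, -6, 1]), (0, [15, 15, 6, 1])] x (exp x) := by
    simp only [evalT, evalP, hS, hC]
    push_cast
    field_simp
    ring
  have hpos : (0:ℝ) < (10 / 1 : ℝ) * exp x ^ 1 := by positivity
  rw [← key] at h
  exact nonneg_of_mul_nonneg_left h hpos

theorem hyp_d (x : ℝ) (hx : 0 ≤ x) : 0 ≤ x ^ 3 * (sinh x * cosh x - x) - 6 * (x * cosh x - sinh x) ^ 2 := by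
  have h := cert_evalT 1 12 [(4, [-6, 12, -6, 1]), (2, [12, 0, -12, 0, -4]), (0, [-6, -12, -6, -1])] (by decide) x hx
  have hS : sinh x = (exp x - (exp x)⁻¹) / 2 := by rw [sinh_eq, exp_neg]
  have hC : cosh x = (exp x + (exp x)⁻¹) / 2 := by rw [cosh_eq, exp_neg]
  have ht := exp_pos x
  have key : (x ^ 3 * (sinh x * cosh x - x) - 6 * (x * cosh x - sinh x) ^ 2) * ((4 / 1 : ℝ) * exp x ^ 2)
      = evalT [(4, [-6, 12, -6, 1]), (2, [12, 0, -12, 0, -4]), (0, [-6, -12, -6, -1])] x (exp x) := by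
    simp only [evalT, evalP, hS, hC]
    push_cast
    field_simp
    ring
  have hpos : (0:ℝ) < (4 / 1 : ℝ) * exp x ^ 2 := by positivity
  rw [← key] at h
  exact nonneg_of_mul_nonneg_left h hpos

theorem hyp_e (x : ℝ) (hx : 0 ≤ x) : 0 ≤ (x * cosh x - sinh x) ^ 3 + x ^ 2 * (x * cosh x - sinh x) * sinh x ^ 2 + 3 * (x * cosh x - sinh x) ^ 2 * sinh x - x ^ 3 * (sinh x * cosh x - x) * sinh x := by
  have h := cert_evalT 0 14 [(6, [2, -3, -1, 1]), (4, [-6, 3, 3, 3, 4]), (2, [6, 3, -3, 3, -4]), (0, [-2, -3, 1, 1])] (by decide) x hx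
  have hS : sinh x = (exp x - (exp x)⁻¹) / 2 := by rw [sinh_eq, exp_neg]
  have hC : cosh x = (exp x + (exp x)⁻¹) / 2 := by rw [cosh_eq, exp_neg]
  have ht := exp_pos x
  have key : ((x * cosh x - sinh x) ^ 3 + x ^ 2 * (x * cosh x - sinh x) * sinh x ^ 2 + 3 * (x * cosh x - sinh x) ^ 2 * sinh x - x ^ 3 * (sinh x * cosh x - x) * sinh x) * ((8 / 1 : ℝ) * exp x ^ 3)
      = evalT [(6, [2, -3, -1, 1]), (4, [-6, 3, 3, 3, 4]), (2, [6, 3, -3, 3, -4]), (0, [-2, -3, 1, 1])] x (exp x) := by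
    simp only [evalT, evalP, hS, hC]
    push_cast
    field_simp
    ring
  have hpos : (0:ℝ) < (8 / 1 : ℝ) * exp x ^ 3 := by positivity
  rw [← key] at h
  exact nonneg_of_mul_nonneg_left h hpos

theorem hyp_g (x : ℝ) (hx : 0 ≤ x) : 0 ≤ (exp x ^ 2 - 1) / 2 * (x ^ 2 * sinh x ^ 2 - (x * cosh x - sinh x) ^ 2 - 2 * (x * cosh x - sinh x) * sinh x) - x * (x * cosh x - sinh x) * sinh x - (x * cosh x - sinh x) ^ 2 - 2 / 3 * x ^ 2 * (x * cosh x - sinh x) * sinh x := by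
  have h := cert_evalT 3 6 [(6, [3]), (4, [-15, 18, -20, -4]), (2, [21, -12, -8]), (0, [-9, -6, 4, 4])] (by decide) x hx
  have hS : sinh x = (exp x - (exp x)⁻¹) / 2 := by rw [sinh_eq, exp_neg]
  have hC : cosh x = (exp x + (exp x)⁻¹) / 2 := by rw [cosh_eq, exp_neg]
  have ht := exp_pos x
  have key : ((exp x ^ 2 - 1) / 2 * (x ^ 2 * sinh x ^ 2 - (x * cosh x - sinh x) ^ 2 - 2 * (x * cosh x - sinh x) * sinh x) - x * (x * cosh x - sinh x) * sinh x - (x * cosh x - sinh x) ^ 2 - 2 / 3 * x ^ 2 * (x * cosh x - sinh x) * sinh x) * ((24 / 1 : ℝ) * exp x ^ 2)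
      = evalT [(6, [3]), (4, [-15, 18, -20, -4]), (2, [21, -12, -8]), (0, [-9, -6, 4, 4])] x (exp x) := by
    simp only [evalT, evalP, hS, hC]
    push_cast
    field_simp
    ring
  have hpos : (0:ℝ) < (24 / 1 : ℝ) * exp x ^ 2 := by positivity
  rw [← key] at h
  exact nonneg_of_mul_nonneg_left h hpos

theorem hyp_A (x : ℝ) (hx : 0 < x) : 0 < (x * cosh x - sinh x) := by
  have h := certS_evalT 0 2 [(2, [-1, 1]), (0, [1, 1])] (by decide) x hx
  have hS : sinh x = (exp x - (exp x)⁻¹) / 2 := by rw [sinh_eq, exp_neg]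
  have hC : cosh x = (exp x + (exp x)⁻¹) / 2 := by rw [cosh_eq, exp_neg]
  have ht := exp_pos x
  have key : ((x * cosh x - sinh x)) * ((2 / 1 : ℝ) * exp x ^ 1)
      = evalT [(2, [-1, 1]), (0, [1, 1])] x (exp x) := by
    simp only [evalT, evalP, hS, hC]
    push_cast
    field_simp
    ring
  have hpos : (0:ℝ) < (2 / 1 : ℝ) * exp x ^ 1 := by positivity
  rw [← key] at h
  exact (mul_pos_iff_of_pos_right hpos).mp h

end Pool.Agent.Work.MP_b5407d_pos_h9.EP
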