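import Pool.Agent.Work.MP_b5407d_pos_helper9.Hyp

set_option autoImplicit false

/-! The ratio `r(a,b) = (F a - F b)/(b - a)`, `F = 1/E`, and `K = (1-r)/r`. -/

namespace Pool.Agent.Work.MP_b5407d_pos_h9

open Real Filter Topology

theorem continuous_T : Continuous (fun p : ℝ × ℝ => T p.1 p.2) := by
  unfold T
  apply intervalIntegral.continuous_parametric_intervalIntegral_of_continuous
  · have : Continuous fun p : (ℝ × ℝ) × ℝ => ∫ t in (0:ℝ)..1,
        p.2 * Real.exp (p.2 * ((1 - t) * p.1.1 + t * p.1.2)) := by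
      apply intervalIntegral.continuous_parametric_intervalIntegral_of_continuous
      · fun_prop
      · fun_prop
    exact this
  · fun_prop

theorem T_pos (a b : ℝ) : 0 < T a b := by
  rw [T]
  apply intervalIntegral.intervalIntegral_pos_of_pos_on
  · have : Continuous fun u : ℝ => ∫ t in (0:ℝ)..1,
        u * Real.exp (u * ((1 - t) * a + t * b)) := by
      apply intervalIntegral.continuous_parametric_intervalIntegral_of_continuous
      · fun_prop
      · fun_prop
    exact this.intervalIntegrable _ _
  · intro u hu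
    apply intervalIntegral.intervalIntegral_pos_of_pos_on
    · exact (by fun_prop : Continuous fun t : ℝ =>
        u * Real.exp (u * ((1 - t) * a + t * b))).intervalIntegrable _ _
    · intro t _
      exact mul_pos hu.1 (Real.exp_pos _)
    · norm_num
  · norm_num

/-- `R a b` is minus the divided difference of `1/E = x/(e^x-1)`. -/
noncomputable def R (a b : ℝ) : ℝ := T (-a) (b - a) / (E b * E (-a))

theorem R_pos (a b : ℝ) : 0 < R a b :=
  div_pos (T_pos _ _) (mul_pos (E_pos _) (E_pos _))

theorem continuous_R : Continuous (fun p : ℝ × ℝ => R p.1 p.2) := by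
  unfold R
  have hE := continuous_E
  have hT : Continuous (fun p : ℝ × ℝ => T (-p.1) (p.2 - p.1)) :=
    continuous_T.comp (by fun_prop : Continuous fun p : ℝ × ℝ => (-p.1, p.2 - p.1))
  apply hT.div
  · fun_prop
  · intro p; exact (mul_pos (E_pos _) (E_pos _)).ne'

theorem sub_mul_R (a b : ℝ) : (b - a) * R a b = 1 / E a - 1 / E b := by
  have h1 := mul_T (-a) (b - a)
  have h2 := sub_mul_T (-a) (b - a)
  have e1 := E_pos a
  have e2 := E_pos b
  have e3 := E_pos (-a)
  have h3 := E_neg a
  -- (b-a) T(-a,b-a) = e^{-a} E b - E(-a)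
  have h4 : (b - a) * T (-a) (b - a) = exp (-a) * E b - E (-a) := by
    have h5 : b - a - -a = b := by ring
    rw [h5] at h1 h2
    linarith
  have h6 : (b - a) * R a b = (exp (-a) * E b - E (-a)) / (E b * E (-a)) := by
    rw [R, ← h4]; ring
  rw [h6, h3]
  have := Real.exp_pos (-a)
  field_simp

theorem R_symm (a b : ℝ) : R a b = R b a := by
  by_cases h : a = b
  · rw [h]
  · have h1 := sub_mul_R a b
    have h2 := sub_mul_R b a
    have h3 : b - a ≠ 0 := sub_ne_zero.mpr (Ne.symm h)
    apply mul_left_cancel₀ h3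
    linarith

/-- `1/E x + x = 1/E (-x)`. -/
theorem inv_E_add (x : ℝ) : 1 / E x + x = 1 / E (-x) := by
  rw [E_neg]
  have h1 := mul_E x
  have h2 := E_pos x
  have h3 := Real.exp_pos x
  rw [Real.exp_neg]
  field_simp
  linarith

theorem R_add (a b : ℝ) : R a b + R (-b) (-a) = 1 := by
  have hc1 : Continuous fun b => R a b + R (-b) (-a) := by
    apply Continuous.add
    · exact continuous_R.comp (by fun_prop : Continuous fun b : ℝ => (a, b))
    · exact continuous_R.comp (by fun_prop : Continuous fun b : ℝ => (-b, -a))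
  have hc2 : Continuous fun _ : ℝ => (1:ℝ) := continuous_const
  have hd : Dense {b : ℝ | b ≠ a} := dense_compl_singleton a
  have := Continuous.ext_on hd hc1 hc2 (by
    intro b hb
    have hne : b - a ≠ 0 := sub_ne_zero.mpr hb
    have h1 := sub_mul_R a b
    have h2 := sub_mul_R (-b) (-a)
    have h3 := inv_E_add a
    have h4 := inv_E_add b
    apply mul_left_cancel₀ hne
    show (b - a) * (R a b + R (-b) (-a)) = (b - a) * 1
    have h5 : -a - -b = b - a := by ring
    rw [h5] at h2
    linarith)
  exact congrFun this b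

theorem R_lt_one (a b : ℝ) : R a b < 1 := by
  have := R_add a b
  have := R_pos (-b) (-a)
  linarith

/-- `K = (1 - r)/r`. -/
noncomputable def K (a b : ℝ) : ℝ := (1 - R a b) / R a b

theorem K_pos (a b : ℝ) : 0 < K a b :=
  div_pos (by linarith [R_lt_one a b]) (R_pos a b)

theorem K_symm (a b : ℝ) : K a b = K b a := by rw [K, K, R_symm]

theorem K_neg (a b : ℝ) : K (-b) (-a) = (K a b)⁻¹ := by
  have h1 := R_add a b
  have h2 : R (-b) (-a) = 1 - R a b := by linarith
  rw [K, K, h2, inv_div]
  congr 1
  ring

theorem continuous_K : Continuous (fun p : ℝ × ℝ => K p.1 p.2) := by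
  unfold K
  exact (continuous_const.sub continuous_R).div continuous_R (fun p => (R_pos _ _).ne')

theorem continuous_K_comp {f g : ℝ → ℝ} (hf : Continuous f) (hg : Continuous g) :
    Continuous (fun x => K (f x) (g x)) := continuous_K.comp (hf.prodMk hg)

/-- `N m = q e^m - q cosh q - m sinh q`. -/
noncomputable def N (q m : ℝ) : ℝ := q * exp m - q * cosh q - m * sinh q

theorem K_eq_N {q m : ℝ} (_hq : 0 < q) (h1 : m - q ≠ 0) (h2 : m + q ≠ 0) :
    K (m - q) (m + q) * N q (-m) = N q m := by
  have hR := sub_mul_R (m - q) (m + q)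
  have hr := R_pos (m - q) (m + q)
  have ha := mul_E (m - q)
  have hb := mul_E (m + q)
  have ea := E_pos (m - q)
  have eb := E_pos (m + q)
  have e1 : exp (m - q) = exp m * exp (-q) := by rw [← exp_add]; congr 1
  have e2 : exp (m + q) = exp m * exp q := by rw [← exp_add]
  have e3 : exp m * exp (-m) = 1 := by rw [← exp_add]; simp
  have c1 : exp q = cosh q + sinh q := (cosh_add_sinh q).symm
  have c2 : exp (-q) = cosh q - sinh q := (cosh_sub_sinh q).symm
  have hpos : 0 < exp m := exp_pos m
  -- exp (m-q) - 1 ≠ 0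
  have n1 : exp (m - q) - 1 ≠ 0 := by rw [← ha]; exact mul_ne_zero h1 ea.ne'
  have n2 : exp (m + q) - 1 ≠ 0 := by rw [← hb]; exact mul_ne_zero h2 eb.ne'
  have ia : 1 / E (m - q) = (m - q) / (exp (m - q) - 1) := by
    rw [← ha]; field_simp
  have ib : 1 / E (m + q) = (m + q) / (exp (m + q) - 1) := by
    rw [← hb]; field_simp
  rw [ia, ib] at hR
  have h5 : m + q - (m - q) = 2 * q := by ring
  rw [h5] at hR
  -- R * D = e^m N(-m), D = q (e^a-1)(e^b-1)
  have hD : q * R (m - q) (m + q) * ((exp (m - q) - 1) * (exp (m + q) - 1)) = exp m * N q (-m) := by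
    have h6 : 2 * q * R (m - q) (m + q) * ((exp (m - q) - 1) * (exp (m + q) - 1))
        = (m - q) * (exp (m + q) - 1) - (m + q) * (exp (m - q) - 1) := by
      rw [hR]; field_simp
    have h7 : (m - q) * (exp (m + q) - 1) - (m + q) * (exp (m - q) - 1) = 2 * (exp m * N q (-m)) := by
      rw [N, e1, e2, c1, c2]
      linear_combination (2 * q) * (-e3)
    linarith
  have hD2 : q * (1 - R (m - q) (m + q)) * ((exp (m - q) - 1) * (exp (m + q) - 1)) = exp m * N q m := by
    have h8 : q * ((exp (m - q) - 1) * (exp (m + q) - 1)) = exp m * N q (-m) + exp m * N q m := by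
      rw [N, N, e1, e2, c1, c2]
      have := cosh_sq_sub_sinh_sq q
      linear_combination (q * exp m * exp m) * this - q * e3
    linarith
  have hKR : K (m - q) (m + q) * R (m - q) (m + q) = 1 - R (m - q) (m + q) := by
    rw [K]; field_simp
  have h9 : exp m * (K (m - q) (m + q) * N q (-m)) = exp m * N q m := by
    calc exp m * (K (m - q) (m + q) * N q (-m)) = K (m - q) (m + q) * (exp m * N q (-m)) := by ring
      _ = q * (K (m - q) (m + q) * R (m - q) (m + q)) * ((exp (m - q) - 1) * (exp (m + q) - 1)) := by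
          rw [← hD]; ring
      _ = exp m * N q m := by rw [hKR, hD2]
  exact mul_left_cancel₀ hpos.ne' h9

end Pool.Agent.Work.MP_b5407d_pos_h9
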