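import Pool.Agent.Work.MP_b5407d_pos_helper9.Ratio

set_option autoImplicit false

/-! (E3) and the tilt lemma (K). -/

namespace Pool.Agent.Work.MP_b5407d_pos_h9

open Real Filter Topology

/-- A continuous function with nonnegative derivative off two points is monotone. -/
theorem mono_of_two {f : ℝ → ℝ} (hf : Continuous f) {a b : ℝ} (hab : a ≤ b)
    (hd : ∀ x, x ≠ a → x ≠ b → ∃ f', HasDerivAt f f' x ∧ 0 ≤ f') : Monotone f := by
  have h1 : MonotoneOn f (Set.Iic a) := by
    apply monotoneOn_of_deriv_nonneg (convex_Iic a) hf.continuousOn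
    · intro x hx
      rw [interior_Iic] at hx
      have hx' : x < a := hx
      obtain ⟨f', h, _⟩ := hd x hx'.ne (lt_of_lt_of_le hx' hab).ne
      exact h.differentiableAt.differentiableWithinAt
    · intro x hx
      rw [interior_Iic] at hx
      have hx' : x < a := hx
      obtain ⟨f', h, h0⟩ := hd x hx'.ne (lt_of_lt_of_le hx' hab).ne
      rw [h.deriv]; exact h0
  have h2 : MonotoneOn f (Set.Icc a b) := by
    apply monotoneOn_of_deriv_nonneg (convex_Icc a b) hf.continuousOn
    · intro x hx
      rw [interior_Icc] at hx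
      obtain ⟨f', h, _⟩ := hd x hx.1.ne' hx.2.ne
      exact h.differentiableAt.differentiableWithinAt
    · intro x hx
      rw [interior_Icc] at hx
      obtain ⟨f', h, h0⟩ := hd x hx.1.ne' hx.2.ne
      rw [h.deriv]; exact h0
  have h3 : MonotoneOn f (Set.Ici b) := by
    apply monotoneOn_of_deriv_nonneg (convex_Ici b) hf.continuousOn
    · intro x hx
      rw [interior_Ici] at hx
      have hx' : b < x := hx
      obtain ⟨f', h, _⟩ := hd x (lt_of_le_of_lt hab hx').ne' hx'.ne'
      exact h.differentiableAt.differentiableWithinAt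
    · intro x hx
      rw [interior_Ici] at hx
      have hx' : b < x := hx
      obtain ⟨f', h, h0⟩ := hd x (lt_of_le_of_lt hab hx').ne' hx'.ne'
      rw [h.deriv]; exact h0
  have h4 : MonotoneOn f (Set.Icc a b ∪ Set.Ici b) :=
    h2.union_right h3 (isGreatest_Icc hab) isLeast_Ici
  have h5 : Set.Icc a b ∪ Set.Ici b = Set.Ici a := Set.Icc_union_Ici_eq_Ici hab
  rw [h5] at h4
  exact MonotoneOn.Iic_union_Ici h1 h4

theorem hasDerivAt_N (q x : ℝ) : HasDerivAt (N q) (q * exp x - sinh q) x := by
  unfold N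
  have h1 : HasDerivAt (fun m : ℝ => q * exp m - q * cosh q) (q * exp x) x :=
    ((Real.hasDerivAt_exp x).const_mul q).sub_const _
  have h2 : HasDerivAt (fun m : ℝ => m * sinh q) (1 * sinh q) x := (hasDerivAt_id x).mul_const _
  have h3 := h1.sub h2
  rw [one_mul] at h3
  exact h3

/-- the derivative of `log K(m-q, m+q)` lies in `[0,1]`. -/
theorem logK_deriv {q m : ℝ} (hq : 0 < q) (h1 : m - q ≠ 0) (h2 : m + q ≠ 0) :
    ∃ d, HasDerivAt (fun m => log (K (m - q) (m + q))) d m ∧ 0 ≤ d ∧ d ≤ 1 := by
  have hN := K_eq_N hq h1 h2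
  have hK := K_pos (m - q) (m + q)
  -- N q (-m) ≠ 0
  have hne : N q (-m) ≠ 0 := by
    intro h0
    have hm0 : N q m = 0 := by rw [← hN, h0, mul_zero]
    -- e^m N(-m) = q R D with D ≠ 0 : use sum identity
    have e3 : exp m * exp (-m) = 1 := by rw [← exp_add]; simp
    have e1 : exp (m - q) = exp m * exp (-q) := by rw [← exp_add]; congr 1
    have e2 : exp (m + q) = exp m * exp q := by rw [← exp_add]
    have c1 : exp q = cosh q + sinh q := (cosh_add_sinh q).symm
    have c2 : exp (-q) = cosh q - sinh q := (cosh_sub_sinh q).symm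
    have h8 : q * ((exp (m - q) - 1) * (exp (m + q) - 1)) = exp m * N q (-m) + exp m * N q m := by
      rw [N, N, e1, e2, c1, c2]
      have := cosh_sq_sub_sinh_sq q
      linear_combination (q * exp m * exp m) * this - q * e3
    rw [h0, hm0, mul_zero, add_zero] at h8
    have n1 : exp (m - q) - 1 ≠ 0 := by
      rw [← mul_E]; exact mul_ne_zero h1 (E_pos _).ne'
    have n2 : exp (m + q) - 1 ≠ 0 := by
      rw [← mul_E]; exact mul_ne_zero h2 (E_pos _).ne'
    exact (mul_ne_zero hq.ne' (mul_ne_zero n1 n2)) h8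
  have hKd : K (m - q) (m + q) = N q m / N q (-m) := by
    rw [eq_div_iff hne]; exact hN
  have hprod : 0 < N q m * N q (-m) := by
    rw [← hN]
    have : K (m - q) (m + q) * N q (-m) * N q (-m) = K (m - q) (m + q) * (N q (-m)) ^ 2 := by ring
    rw [this]
    have := sq_pos_of_ne_zero hne
    positivity
  have hNm : N q m ≠ 0 := left_ne_zero_of_mul hprod.ne'
  -- eventually equal
  have hev : (fun m => log (K (m - q) (m + q))) =ᶠ[𝓝 m] fun m => log (N q m / N q (-m)) := by
    have hc : ∀ᶠ x in 𝓝 m, x - q ≠ 0 ∧ x + q ≠ 0 ∧ N q (-x) ≠ 0 := by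
      have a1 : ∀ᶠ x in 𝓝 m, x - q ≠ 0 :=
        (by fun_prop : ContinuousAt (fun x : ℝ => x - q) m).eventually_ne h1
      have a2 : ∀ᶠ x in 𝓝 m, x + q ≠ 0 :=
        (by fun_prop : ContinuousAt (fun x : ℝ => x + q) m).eventually_ne h2
      have a3 : ∀ᶠ x in 𝓝 m, N q (-x) ≠ 0 := by
        have : ContinuousAt (fun x : ℝ => N q (-x)) m := by
          unfold N; fun_prop
        exact this.eventually_ne hne
      filter_upwards [a1, a2, a3] with x b1 b2 b3
      exact ⟨b1, b2, b3⟩
    filter_upwards [hc] with x hx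
    have := K_eq_N hq hx.1 hx.2.1
    rw [← this, mul_div_assoc, div_self hx.2.2, mul_one]
  have hd1 : HasDerivAt (N q) (q * exp m - sinh q) m := hasDerivAt_N q m
  have hd2 : HasDerivAt (fun m => N q (-m)) (-(q * exp (-m) - sinh q)) m := by
    have h := HasDerivAt.comp m (hasDerivAt_N q (-m)) (hasDerivAt_neg m)
    have h' : (q * exp (-m) - sinh q) * -1 = -(q * exp (-m) - sinh q) := by ring
    rw [h'] at h
    exact h
  have hd3 := hd1.div hd2 hne
  have hd4 := hd3.log (div_ne_zero hNm hne)
  set P := (q * exp m - sinh q) * N q (-m) + N q m * (q * exp (-m) - sinh q) with hP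
  have e3 : exp m * exp (-m) = 1 := by rw [← exp_add]; simp
  have c3 : exp m = cosh m + sinh m := (cosh_add_sinh m).symm
  have c4 : exp (-m) = cosh m - sinh m := (cosh_sub_sinh m).symm
  have csm := cosh_sq_sub_sinh_sq m
  have csq := cosh_sq_sub_sinh_sq q
  have hP1 : P = 2 * q * (q + sinh q * cosh q - (q * cosh q + sinh q) * cosh m
      + m * sinh q * sinh m) := by
    rw [hP, N, N, c3, c4]
    linear_combination (2 * q ^ 2) * csm
  have hP2 : N q m * N q (-m) - P = sinh q * (2 * q * (cosh m - cosh q)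
      - sinh q * (m ^ 2 - q ^ 2)) := by
    rw [hP, N, N, c3, c4]
    linear_combination (- q ^ 2) * csm + q ^ 2 * csq
  have hS : 0 < sinh q := sinh_pos_iff.mpr hq
  have k1 := key1 q m hq
  have k2 := key2 q m hq
  have hPnn : 0 ≤ P := by rw [hP1]; positivity
  have hPle : P ≤ N q m * N q (-m) := by
    have : 0 ≤ N q m * N q (-m) - P := by
      rw [hP2]; exact mul_nonneg hS.le (by linarith)
    linarith
  refine ⟨P / (N q m * N q (-m)), ?_, div_nonneg hPnn hprod.le, (div_le_one hprod).mpr hPle⟩
  have hval : ((q * exp m - sinh q) * N q (-m) - N q m * -(q * exp (-m) - sinh q)) / N q (-m) ^ 2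
      / (N q m / N q (-m)) = P / (N q m * N q (-m)) := by
    rw [hP]; field_simp; ring
  rw [← hval]
  exact hd4.congr_of_eventuallyEq hev

theorem logK_mono {q : ℝ} (hq : 0 < q) : Monotone (fun m => log (K (m - q) (m + q))) := by
  have hc : Continuous (fun m => log (K (m - q) (m + q))) := by
    have h1 : Continuous (fun m => K (m - q) (m + q)) :=
      continuous_K_comp (by fun_prop) (by fun_prop)
    exact h1.log (fun m => (K_pos _ _).ne')
  apply mono_of_two hc (by linarith : -q ≤ q)
  intro x h1 h2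
  obtain ⟨d, hd, h0, _⟩ := logK_deriv hq (m := x) (fun h => h2 (by linarith))
    (fun h => h1 (by linarith))
  exact ⟨d, hd, h0⟩

theorem logK_anti {q : ℝ} (hq : 0 < q) : Monotone (fun m => m - log (K (m - q) (m + q))) := by
  have hc : Continuous (fun m => m - log (K (m - q) (m + q))) := by
    have h1 : Continuous (fun m => K (m - q) (m + q)) :=
      continuous_K_comp (by fun_prop) (by fun_prop)
    exact continuous_id.sub (h1.log (fun m => (K_pos _ _).ne'))
  apply mono_of_two hc (by linarith : -q ≤ q)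
  intro x h1 h2
  obtain ⟨d, hd, _, h3⟩ := logK_deriv hq (m := x) (fun h => h2 (by linarith))
    (fun h => h1 (by linarith))
  exact ⟨1 - d, (hasDerivAt_id x).sub hd, by linarith⟩

/-- (E3) for `p > 0`. -/
theorem E3_pos {v w p : ℝ} (hp : 0 < p) :
    K v (v + p) * K w (w + p) ≤ max 1 (exp (v + w + p)) := by
  have hq : 0 < p / 2 := by linarith
  have e1 : K v (v + p) = K ((v + p / 2) - p / 2) ((v + p / 2) + p / 2) := by
    rw [show (v + p / 2) - p / 2 = v by ring, show (v + p / 2) + p / 2 = v + p by ring]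
  have e2 : K w (w + p) = (K (-(w + p / 2) - p / 2) (-(w + p / 2) + p / 2))⁻¹ := by
    have := K_neg w (w + p)
    rw [show -(w + p / 2) - p / 2 = -(w + p) by ring, show -(w + p / 2) + p / 2 = -w by ring,
      this, inv_inv]
  have k1 := K_pos ((v + p / 2) - p / 2) ((v + p / 2) + p / 2)
  have k2 := K_pos (-(w + p / 2) - p / 2) (-(w + p / 2) + p / 2)
  rw [e1, e2]
  rcases le_total 0 (v + w + p) with h | h
  · have hm := logK_anti hq (show -(w + p / 2) ≤ v + p / 2 by linarith)
    simp only at hm
    apply le_max_of_le_right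
    rw [← exp_log k1, ← exp_log k2, ← exp_neg, ← exp_add]
    apply exp_le_exp.mpr
    linarith
  · have hm := logK_mono hq (show v + p / 2 ≤ -(w + p / 2) by linarith)
    simp only at hm
    apply le_max_of_le_left
    have := (log_le_log_iff k1 k2).mp hm
    rw [← div_eq_mul_inv]
    exact (div_le_one k2).mpr this

/-- (E3) for all `p`. -/
theorem E3 (v w p : ℝ) : K v (v + p) * K w (w + p) ≤ max 1 (exp (v + w + p)) := by
  rcases lt_trichotomy p 0 with h | h | h
  · have := E3_pos (v := v + p) (w := w + p) (p := -p) (by linarith)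
    rw [show v + p + -p = v by ring, show w + p + -p = w by ring,
      show v + p + (w + p) + -p = v + w + p by ring, K_symm (v + p) v, K_symm (w + p) w] at this
    exact this
  · subst h
    -- limit `p → 0+`
    have hc1 : Continuous (fun p : ℝ => K v (v + p) * K w (w + p)) := by
      apply Continuous.mul
      · exact continuous_K_comp (by fun_prop) (by fun_prop)
      · exact continuous_K_comp (by fun_prop) (by fun_prop)
    have hc2 : Continuous (fun p : ℝ => max 1 (exp (v + w + p))) := by fun_prop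
    have t1 : Tendsto (fun p : ℝ => K v (v + p) * K w (w + p)) (𝓝[>] 0)
        (𝓝 (K v (v + 0) * K w (w + 0))) := (hc1.tendsto 0).mono_left nhdsWithin_le_nhds
    have t2 : Tendsto (fun p : ℝ => max 1 (exp (v + w + p))) (𝓝[>] 0)
        (𝓝 (max 1 (exp (v + w + 0)))) := (hc2.tendsto 0).mono_left nhdsWithin_le_nhds
    apply le_of_tendsto_of_tendsto t1 t2
    filter_upwards [self_mem_nhdsWithin] with p hp
    exact E3_pos hp
  · exact E3_pos h

/-- The algebraic core of (K). -/
theorem K_core {j A B r1 r2 V W θ : ℝ} (hV : 0 < V) (hW : 0 < W)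
    (hr1 : 0 < r1) (hr1' : r1 < 1) (hr2 : 0 < r2) (hr2' : r2 < 1)
    (hE2 : j = r2 * A + r1 * B)
    (hE1 : exp θ - 1 = -(j - 1) * (V * W - 1) - (V - 1) * (A - j) - (W - 1) * (B - j))
    (hE3 : ((1 - r1) / r1) * ((1 - r2) / r2) ≤ max 1 (exp θ))
    (hj : 1 < j) (hA : j < A) (hB : j < B) :
    2 * (A - j) * (B - j) < j * (j - 1) * exp θ := by
  by_contra hcon
  push Not at hcon
  have hj0 : 0 < j := by linarith
  set K1 := (1 - r1) / r1 with hK1
  set K2 := (1 - r2) / r2 with hK2
  have k1 : 0 < K1 := div_pos (by linarith) hr1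
  have k2 : 0 < K2 := div_pos (by linarith) hr2
  have hr1e : r1 * (1 + K1) = 1 := by rw [hK1]; field_simp; ring
  have hr2e : r2 * (1 + K2) = 1 := by rw [hK2]; field_simp; ring
  set x := (A - j) / j with hx
  set y := (B - j) / j with hy
  have hxp : 0 < x := div_pos (by linarith) hj0
  have hyp : 0 < y := div_pos (by linarith) hj0
  have hAe : A = j * (1 + x) := by rw [hx]; field_simp; ring
  have hBe : B = j * (1 + y) := by rw [hy]; field_simp; ring
  -- (E2): K1 K2 - 1 = (1+K1) x + (1+K2) y
  have h2 : 1 = r2 * (1 + x) + r1 * (1 + y) := by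
    have : j * 1 = j * (r2 * (1 + x) + r1 * (1 + y)) := by
      rw [hAe, hBe] at hE2; linarith
    exact mul_left_cancel₀ hj0.ne' this
  have h3 : K1 * K2 - 1 = (1 + K1) * x + (1 + K2) * y := by
    have h4 : (1 + K1) * (1 + K2) = (1 + K1) * (r2 * (1 + K2)) * (1 + x)
        + (1 + K2) * (r1 * (1 + K1)) * (1 + y) := by
      linear_combination (1 + K1) * (1 + K2) * h2
    rw [hr1e, hr2e] at h4
    linarith
  have hKK : 1 < K1 * K2 := by
    have : 0 < (1 + K1) * x + (1 + K2) * y := by positivity
    linarith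
  have hE3' : K1 * K2 ≤ exp θ := by
    rcases le_max_iff.mp hE3 with h | h
    · linarith
    · exact h
  -- (E1)
  have hcon' : (j - 1) * exp θ ≤ 2 * j * x * y := by
    have : j * ((j - 1) * exp θ) ≤ j * (2 * j * x * y) := by
      rw [hAe, hBe] at hcon
      nlinarith [hcon]
    exact le_of_mul_le_mul_left this hj0
  have hQ : exp θ - 1 ≤ x + y + 2 * x * y := by
    -- e^θ - 1 = -(j-1)(VW-1) - (V-1) j x - (W-1) j y
    have h5 : exp θ - 1 = -(j - 1) * (V * W - 1) - (V - 1) * (j * x) - (W - 1) * (j * y) := by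
      rw [hE1, hAe, hBe]; ring
    have hVW : 0 < V * W := mul_pos hV hW
    have h6 : exp θ - 1 ≤ (j - 1) + j * x + j * y := by
      have a1 : 0 ≤ (j - 1) * (V * W) := mul_nonneg (by linarith) hVW.le
      have a2 : 0 ≤ V * (j * x) := by positivity
      have a3 : 0 ≤ W * (j * y) := by positivity
      nlinarith [a1, a2, a3]
    -- multiply: (e^θ - 1)/j ... use (j-1) e^θ ≤ 2 j x y
    have h7 : j * (exp θ - 1) ≤ j * (x + y + 2 * x * y) := by
      nlinarith [h6, hcon']
    exact le_of_mul_le_mul_left h7 hj0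
  -- contradiction
  have h8 : 2 * x * y < K1 * x + K2 * y := by
    -- k = sqrt (K1 K2), π = sqrt (x y)
    set k := sqrt (K1 * K2) with hk
    set π' := sqrt (x * y) with hπ
    have hk2 : k ^ 2 = K1 * K2 := sq_sqrt (by positivity)
    have hπ2 : π' ^ 2 = x * y := sq_sqrt (by positivity)
    have hkp : 0 < k := sqrt_pos.mpr (by positivity)
    have hπp : 0 < π' := sqrt_pos.mpr (by positivity)
    have b1 : 2 * π' ≤ x + y := by
      have := sq_nonneg (sqrt x - sqrt y)
      have s1 := sq_sqrt hxp.le
      have s2 := sq_sqrt hyp.le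
      have s3 : π' = sqrt x * sqrt y := by rw [hπ, sqrt_mul hxp.le]
      nlinarith [this]
    have b2 : 2 * (k * π') ≤ K1 * x + K2 * y := by
      have := sq_nonneg (sqrt (K1 * x) - sqrt (K2 * y))
      have s1 := sq_sqrt (show 0 ≤ K1 * x by positivity)
      have s2 := sq_sqrt (show 0 ≤ K2 * y by positivity)
      have s3 : k * π' = sqrt (K1 * x) * sqrt (K2 * y) := by
        rw [hk, hπ, ← sqrt_mul (by positivity), ← sqrt_mul (by positivity)]
        congr 1; ring
      nlinarith [this]
    have b3 : k ^ 2 - 1 ≥ 2 * π' + 2 * (k * π') := by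
      have : K1 * K2 - 1 = x + y + (K1 * x + K2 * y) := by rw [h3]; ring
      nlinarith [this, b1, b2, hk2]
    have b4 : 2 * π' ≤ k - 1 := by
      have : (k + 1) * (2 * π') ≤ (k + 1) * (k - 1) := by nlinarith [b3]
      exact le_of_mul_le_mul_left this (by linarith)
    have b5 : 2 * x * y = 2 * π' ^ 2 := by rw [hπ2]; ring
    rw [b5]
    nlinarith [b2, b4, mul_pos hkp hπp, mul_pos hπp hπp]
  nlinarith [h3, h8, hE3', hQ]

/-- (K) for the kite with vertices `O, (1,0), (X,Y), (0,1)`, weight `exp (-v x - w y)`. -/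
theorem kite_tilt {v w X Y : ℝ} (j A B : ℝ)
    (hj : j = (Y * T (-v) (-(v * X) - w * Y) + X * T (-w) (-(v * X) - w * Y)) / (E (-v) * E (-w)))
    (hA : A = X * E (w + (-(v * X) - w * Y)) / E (-v))
    (hB : B = Y * E (v + (-(v * X) - w * Y)) / E (-w))
    (h1 : 1 < j) (h2 : j < A) (h3 : j < B) :
    2 * (A - j) * (B - j) < j * (j - 1) * exp (v + w + (-(v * X) - w * Y)) := by
  set p := -(v * X) - w * Y with hp
  have ev := E_pos (-v)
  have ew := E_pos (-w)
  have evp := E_pos (v + p)
  have ewp := E_pos (w + p)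
  have hR1 : T (-v) p = R v (v + p) * (E (v + p) * E (-v)) := by
    rw [R, show v + p - v = p by ring]; field_simp
  have hR2 : T (-w) p = R w (w + p) * (E (w + p) * E (-w)) := by
    rw [R, show w + p - w = p by ring]; field_simp
  apply K_core (V := exp v) (W := exp w) (r1 := R v (v + p)) (r2 := R w (w + p))
    (exp_pos v) (exp_pos w) (R_pos _ _) (R_lt_one _ _) (R_pos _ _) (R_lt_one _ _) _ _ _ h1 h2 h3
  · rw [hj, hA, hB, hR1, hR2]; field_simp; ring
  · -- (E1)
    have a1 := mul_T (-v) p
    have a2 := mul_T (-w) p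
    rw [show p - -v = v + p by ring] at a1
    rw [show p - -w = w + p by ring] at a2
    have a3 := mul_E p
    have b1 := mul_E v
    have b2 := mul_E w
    have n1 := E_neg v
    have n2 := E_neg w
    have x1 : exp v * exp (-v) = 1 := by rw [← exp_add]; simp
    have x2 : exp w * exp (-w) = 1 := by rw [← exp_add]; simp
    have x3 : exp (v + w + p) = exp v * exp w * exp p := by rw [exp_add, exp_add]
    -- (V-1)/E(-v) = v e^v
    have c1 : exp v - 1 = v * exp v * E (-v) := by
      rw [← b1, n1]; linear_combination (-(v * E v)) * x1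
    have c2 : exp w - 1 = w * exp w * E (-w) := by
      rw [← b2, n2]; linear_combination (-(w * E w)) * x2
    have d1 : (exp v - 1) * A = v * exp v * X * E (w + p) := by
      rw [hA, c1]; field_simp
    have d2 : (exp w - 1) * B = w * exp w * Y * E (v + p) := by
      rw [hB, c2]; field_simp
    have d3 : j * ((exp v - 1) * (exp w - 1)) = v * w * exp v * exp w * (Y * T (-v) p + X * T (-w) p) := by
      rw [hj, c1, c2]; field_simp
    have key : exp v * exp w * (1 - v * w * (Y * T (-v) p + X * T (-w) p))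
        - v * exp v * X * E (w + p) - w * exp w * Y * E (v + p) = exp v * exp w * exp p := by
      -- E(v+p) e^{-v} = E p - v T(-v,p)
      have f1 : exp (-v) * E (v + p) = E p - v * T (-v) p := by linarith
      have f2 : exp (-w) * E (w + p) = E p - w * T (-w) p := by linarith
      have g1 : E (v + p) = exp v * (E p - v * T (-v) p) := by
        rw [← f1]; linear_combination (-(E (v + p))) * x1
      have g2 : E (w + p) = exp w * (E p - w * T (-w) p) := by
        rw [← f2]; linear_combination (-(E (w + p))) * x2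
      rw [g1, g2]
      have a4 : exp p = 1 + p * E p := by linarith
      rw [a4, hp]
      ring
    rw [x3]
    linarith [key, d1, d2, d3]
  · have := E3 v w p
    rw [K, K] at this
    exact this

end Pool.Agent.Work.MP_b5407d_pos_h9
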